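import Pool.Agent.W779.Morrey.BeurlingNorm

set_option autoImplicit false

open MeasureTheory Set Filter Topology

namespace Pool.Agent.W772.Beu

open Pool.Agent.W779.Morrey

/-- second derivative from the restriction to a line -/
theorem hess_line {W : E → ℝ} (hW : ContDiff ℝ 2 W) (F G : E) (φ : ℝ → ℝ) (e : ℝ)
    (h1 : ∀ t : ℝ, HasDerivAt (fun t : ℝ => W (F + t • G)) (φ t) t) (h2 : HasDerivAt φ e 0) :
    fderiv ℝ (fderiv ℝ W) F G G = e := by
  have hP1 : ContDiff ℝ 1 (fderiv ℝ W) := hW.fderiv_right (by norm_num)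
  have hline : ∀ t : ℝ, HasDerivAt (fun t : ℝ => F + t • G) G t := by
    intro t
    have := ((hasDerivAt_id t).smul_const G).const_add F
    simpa using this
  have h3 : ∀ t : ℝ, fderiv ℝ W (F + t • G) G = φ t := by
    intro t
    have d1 : HasDerivAt (fun t : ℝ => W (F + t • G)) (fderiv ℝ W (F + t • G) G) t :=
      (hW.differentiable (by norm_num) _).hasFDerivAt.comp_hasDerivAt t (hline t)
    exact d1.unique (h1 t)
  have d3 : HasDerivAt (fun t : ℝ => fderiv ℝ W (F + t • G) G) (fderiv ℝ (fderiv ℝ W) F G G) 0 := by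
    have h2 : HasFDerivAt (fderiv ℝ W) (fderiv ℝ (fderiv ℝ W) F) (F + (0:ℝ) • G) := by
      rw [zero_smul, add_zero]
      exact (hP1.differentiable (by norm_num) F).hasFDerivAt
    have h3 := h2.comp_hasDerivAt (0:ℝ) (hline 0)
    have h4 := h3.clm_apply (hasDerivAt_const (0:ℝ) G)
    simpa using h4
  have e' : (fun t : ℝ => fderiv ℝ W (F + t • G) G) = φ := funext h3
  rw [e'] at d3
  exact d3.unique h2

/-- derivative of a one-form from the restriction to a line -/
theorem dform_line {θ : E → E →L[ℝ] ℝ} (hθ : ContDiff ℝ 1 θ) (F G H : E) (e : ℝ)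
    (h : HasDerivAt (fun t : ℝ => θ (F + t • G) H) e 0) : fderiv ℝ θ F G H = e := by
  have hline : HasDerivAt (fun t : ℝ => F + t • G) G 0 := by
    have := ((hasDerivAt_id (0:ℝ)).smul_const G).const_add F
    simpa using this
  have d3 : HasDerivAt (fun t : ℝ => θ (F + t • G) H) (fderiv ℝ θ F G H) 0 := by
    have h2 : HasFDerivAt θ (fderiv ℝ θ F) (F + (0:ℝ) • G) := by
      rw [zero_smul, add_zero]
      exact (hθ.differentiable (by norm_num) F).hasFDerivAt
    have h3 := h2.comp_hasDerivAt (0:ℝ) hline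
    have h4 := h3.clm_apply (hasDerivAt_const (0:ℝ) H)
    simpa using h4
  exact d3.unique h

/-- the linear part of the expansion of `pP` on a line -/
noncomputable def lP (F G : E) : ℝ := 2 * (a1 F * a1 G + a2 F * a2 G)
/-- the linear part of the expansion of `pQ` on a line -/
noncomputable def lQ (F G : E) : ℝ := 2 * (b1 F * b1 G + b2 F * b2 G)

theorem pP_line (F G : E) (t : ℝ) : pP (F + t • G) = pP F + lP F G * t + pP G * t ^ 2 := by
  simp only [pP, lP, map_add, map_smul, smul_eq_mul]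
  ring

theorem pQ_line (F G : E) (t : ℝ) : pQ (F + t • G) = pQ F + lQ F G * t + pQ G * t ^ 2 := by
  simp only [pQ, lQ, map_add, map_smul, smul_eq_mul]
  ring

/-- the base of the power -/
noncomputable def NN (l ε : ℝ) (F : E) : ℝ := pP F + l * pQ F + ε

theorem NN_pos {l ε : ℝ} (hl : 0 ≤ l) (hε : 0 < ε) (F : E) : 0 < NN l ε F := by
  have h1 := pP_nonneg F
  have h2 := mul_nonneg hl (pQ_nonneg F)
  unfold NN
  linarith

theorem contDiff_NN (l ε : ℝ) {n : ℕ∞} : ContDiff ℝ n (NN l ε) :=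
  (contDiff_pP.add (contDiff_const.mul contDiff_pQ)).add contDiff_const

theorem contDiff_Npow {l ε : ℝ} (hl : 0 ≤ l) (hε : 0 < ε) (κ : ℝ) {n : ℕ∞} :
    ContDiff ℝ n (fun F => (NN l ε F) ^ κ) :=
  (contDiff_NN l ε).rpow_const_of_ne fun F => (NN_pos hl hε F).ne'

/-- the function -/
noncomputable def Wf (g l κ ε : ℝ) (F : E) : ℝ := (g * pQ F - pP F) * (NN l ε F) ^ κ

theorem contDiff_Wf {g l κ ε : ℝ} (hl : 0 ≤ l) (hε : 0 < ε) {n : ℕ∞} :
    ContDiff ℝ n (Wf g l κ ε) :=
  ((contDiff_const.mul contDiff_pQ).sub contDiff_pP).mul (contDiff_Npow hl hε κ)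

/-- the one-form -/
noncomputable def θf (u v l κ ε : ℝ) (F : E) : E →L[ℝ] ℝ :=
  (2 * u * (NN l ε F) ^ κ) • (a1 F • a2 - a2 F • a1)
    + (2 * v * (NN l ε F) ^ κ) • (b1 F • b2 - b2 F • b1)

theorem contDiff_θf {u v l κ ε : ℝ} (hl : 0 ≤ l) (hε : 0 < ε) : ContDiff ℝ 1 (θf u v l κ ε) := by
  have k1 : ContDiff ℝ 1 (fun F : E => 2 * u * (NN l ε F) ^ κ) :=
    contDiff_const.mul (contDiff_Npow hl hε κ (n := 1))
  have k2 : ContDiff ℝ 1 (fun F : E => 2 * v * (NN l ε F) ^ κ) :=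
    contDiff_const.mul (contDiff_Npow hl hε κ (n := 1))
  have k3 : ContDiff ℝ 1 (fun F : E => a1 F • a2 - a2 F • a1) :=
    (a1.contDiff.smul contDiff_const).sub (a2.contDiff.smul contDiff_const)
  have k4 : ContDiff ℝ 1 (fun F : E => b1 F • b2 - b2 F • b1) :=
    (b1.contDiff.smul contDiff_const).sub (b2.contDiff.smul contDiff_const)
  exact (k1.smul k3).add (k2.smul k4)

theorem hasDerivAt_quad (a b c t : ℝ) :
    HasDerivAt (fun t : ℝ => a + b * t + c * t ^ 2) (b + 2 * c * t) t := by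
  have := ((hasDerivAt_const t a).add ((hasDerivAt_id t).const_mul b)).add
    ((hasDerivAt_pow 2 t).const_mul c)
  refine this.congr_deriv ?_
  norm_num
  ring

theorem rpow_sub1 {N κ : ℝ} (hN : 0 < N) : N ^ (κ - 1) = N ^ (κ - 2) * N := by
  have : κ - 1 = (κ - 2) + 1 := by ring
  rw [this, Real.rpow_add_one hN.ne']

theorem rpow_sub2 {N κ : ℝ} (hN : 0 < N) : N ^ κ = N ^ (κ - 2) * N ^ 2 := by
  have : κ = (κ - 2) + (2 : ℕ) := by push_cast; ring
  conv_lhs => rw [this]
  rw [Real.rpow_add_natCast hN.ne']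

theorem hess_Wf {g l κ ε : ℝ} (hl : 0 ≤ l) (hε : 0 < ε) (F G : E) :
    fderiv ℝ (fderiv ℝ (Wf g l κ ε)) F G G = (NN l ε F) ^ (κ - 2) *
      (2 * (g * pQ G - pP G) * (NN l ε F) ^ 2
        + 2 * κ * (g * lQ F G - lP F G) * (lP F G + l * lQ F G) * NN l ε F
        + 2 * κ * (g * pQ F - pP F) * (pP G + l * pQ G) * NN l ε F
        + κ * (κ - 1) * (g * pQ F - pP F) * (lP F G + l * lQ F G) ^ 2) := by
  have hNp : ∀ t : ℝ, 0 < pP F + l * pQ F + ε + (lP F G + l * lQ F G) * t
      + (pP G + l * pQ G) * t ^ 2 := by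
    intro t
    have h := NN_pos hl hε (F + t • G)
    unfold NN at h
    rw [pP_line, pQ_line] at h
    linarith
  refine hess_line (contDiff_Wf hl hε (n := 2)) F G
    (fun t => (g * lQ F G - lP F G + 2 * (g * pQ G - pP G) * t)
        * (pP F + l * pQ F + ε + (lP F G + l * lQ F G) * t + (pP G + l * pQ G) * t ^ 2) ^ κ
      + (g * pQ F - pP F + (g * lQ F G - lP F G) * t + (g * pQ G - pP G) * t ^ 2)
        * ((lP F G + l * lQ F G + 2 * (pP G + l * pQ G) * t) * κ
          * (pP F + l * pQ F + ε + (lP F G + l * lQ F G) * t + (pP G + l * pQ G) * t ^ 2) ^ (κ - 1)))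
    _ (fun t => ?_) ?_
  · have e : (fun t : ℝ => Wf g l κ ε (F + t • G)) = fun t : ℝ =>
        (g * pQ F - pP F + (g * lQ F G - lP F G) * t + (g * pQ G - pP G) * t ^ 2)
        * (pP F + l * pQ F + ε + (lP F G + l * lQ F G) * t + (pP G + l * pQ G) * t ^ 2) ^ κ := by
      funext t
      unfold Wf NN
      rw [pP_line, pQ_line]
      congr 1
      · ring
      · congr 1
        ring
    rw [e]
    exact (hasDerivAt_quad _ _ _ t).mul ((hasDerivAt_quad _ _ _ t).rpow_const (Or.inl (hNp t).ne'))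
  · have hN0 : 0 < NN l ε F := NN_pos hl hε F
    have hN0' : NN l ε F = pP F + l * pQ F + ε := rfl
    have d1 : HasDerivAt (fun t : ℝ => g * lQ F G - lP F G + 2 * (g * pQ G - pP G) * t)
        (2 * (g * pQ G - pP G)) 0 := by
      have := ((hasDerivAt_id (0:ℝ)).const_mul (2 * (g * pQ G - pP G))).const_add
        (g * lQ F G - lP F G)
      simpa using this
    have d2 := (hasDerivAt_quad (pP F + l * pQ F + ε) (lP F G + l * lQ F G) (pP G + l * pQ G)
      0).rpow_const (p := κ) (Or.inl (hNp 0).ne')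
    have d3 := (hasDerivAt_quad (pP F + l * pQ F + ε) (lP F G + l * lQ F G) (pP G + l * pQ G)
      0).rpow_const (p := κ - 1) (Or.inl (hNp 0).ne')
    have d4 : HasDerivAt (fun t : ℝ => (lP F G + l * lQ F G + 2 * (pP G + l * pQ G) * t) * κ)
        (2 * (pP G + l * pQ G) * κ) 0 := by
      have := (((hasDerivAt_id (0:ℝ)).const_mul (2 * (pP G + l * pQ G))).const_add
        (lP F G + l * lQ F G)).mul_const κ
      simpa using this
    have d5 := hasDerivAt_quad (g * pQ F - pP F) (g * lQ F G - lP F G) (g * pQ G - pP G) 0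
    refine ((d1.mul d2).add (d5.mul (d4.mul d3))).congr_deriv ?_
    have e2 : κ - 1 - 1 = κ - 2 := by ring
    simp only [Pi.mul_apply, mul_zero, add_zero, zero_pow (two_ne_zero), ← hN0', e2]
    rw [rpow_sub1 hN0, rpow_sub2 (κ := κ) hN0]
    ring

theorem dform_θf {u v l κ ε : ℝ} (hl : 0 ≤ l) (hε : 0 < ε) (F G H : E) :
    fderiv ℝ (θf u v l κ ε) F G H = (NN l ε F) ^ (κ - 2) *
      (2 * u * ((lP F G + l * lQ F G) * κ * NN l ε F * (a1 F * a2 H - a2 F * a1 H)
          + (NN l ε F) ^ 2 * (a1 G * a2 H - a2 G * a1 H))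
        + 2 * v * ((lP F G + l * lQ F G) * κ * NN l ε F * (b1 F * b2 H - b2 F * b1 H)
          + (NN l ε F) ^ 2 * (b1 G * b2 H - b2 G * b1 H))) := by
  refine dform_line (contDiff_θf hl hε) F G H _ ?_
  have hN0 : 0 < NN l ε F := NN_pos hl hε F
  have e : (fun t : ℝ => θf u v l κ ε (F + t • G) H) = fun t : ℝ =>
      (pP F + l * pQ F + ε + (lP F G + l * lQ F G) * t + (pP G + l * pQ G) * t ^ 2) ^ κ
      * ((2 * u * (a1 F * a2 H - a2 F * a1 H) + 2 * v * (b1 F * b2 H - b2 F * b1 H))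
        + (2 * u * (a1 G * a2 H - a2 G * a1 H) + 2 * v * (b1 G * b2 H - b2 G * b1 H)) * t) := by
    funext t
    have hN : NN l ε (F + t • G) = pP F + l * pQ F + ε + (lP F G + l * lQ F G) * t
        + (pP G + l * pQ G) * t ^ 2 := by
      unfold NN
      rw [pP_line, pQ_line]
      ring
    simp only [θf, hN, map_add, map_smul, smul_eq_mul, _root_.add_apply, _root_.sub_apply,
      FunLike.coe_smul, Pi.smul_apply]
    ring
  rw [e]
  have hb : (pP F + l * pQ F + ε + (lP F G + l * lQ F G) * 0 + (pP G + l * pQ G) * 0 ^ 2)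
      = NN l ε F := by unfold NN; ring
  have d2 := (hasDerivAt_quad (pP F + l * pQ F + ε) (lP F G + l * lQ F G) (pP G + l * pQ G)
      0).rpow_const (p := κ) (Or.inl (by rw [hb]; exact hN0.ne'))
  have d3 : HasDerivAt (fun t : ℝ =>
      (2 * u * (a1 F * a2 H - a2 F * a1 H) + 2 * v * (b1 F * b2 H - b2 F * b1 H))
        + (2 * u * (a1 G * a2 H - a2 G * a1 H) + 2 * v * (b1 G * b2 H - b2 G * b1 H)) * t)
      (2 * u * (a1 G * a2 H - a2 G * a1 H) + 2 * v * (b1 G * b2 H - b2 G * b1 H)) 0 := by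
    have := ((hasDerivAt_id (0:ℝ)).const_mul
      (2 * u * (a1 G * a2 H - a2 G * a1 H) + 2 * v * (b1 G * b2 H - b2 G * b1 H))).const_add
      (2 * u * (a1 F * a2 H - a2 F * a1 H) + 2 * v * (b1 F * b2 H - b2 F * b1 H))
    simpa using this
  refine (d2.mul d3).congr_deriv ?_
  simp only [hb]
  rw [rpow_sub1 hN0, rpow_sub2 (κ := κ) hN0]
  ring

end Pool.Agent.W772.Beu
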