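import Pool.Agent.W772.Beu1

set_option autoImplicit false

open MeasureTheory Set Filter Topology

namespace Pool.Agent.W772.Beu

open Pool.Agent.W779.Morrey

/-- unit complex numbers -/
noncomputable def ex (x : ℝ) : ℂ := Complex.exp (x * Complex.I)

theorem ex_add (x y : ℝ) : ex (x + y) = ex x * ex y := by
  unfold ex
  rw [← Complex.exp_add]
  congr 1
  push_cast
  ring

theorem ex_conj (x : ℝ) : (starRingEnd ℂ) (ex x) = ex (-x) := by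
  unfold ex
  rw [← Complex.exp_conj]
  congr 1
  simp

theorem ex_norm (x : ℝ) : ‖ex x‖ = 1 := Complex.norm_exp_ofReal_mul_I x

theorem polar_c (a b A B C : ℂ) : ∃ (r ρ : ℝ) (z A' B' C' : ℂ), r ^ 2 = ‖a‖ ^ 2 ∧ ρ ^ 2 = ‖b‖ ^ 2 ∧
    ‖z‖ = 1 ∧ ‖A'‖ = ‖A‖ ∧ ‖B'‖ = ‖B‖ ∧ ‖C'‖ = ‖C‖ ∧
    (starRingEnd ℂ) a * A = r * (z * A') ∧ a * (starRingEnd ℂ) B = r * (z * (starRingEnd ℂ) B') ∧
    (starRingEnd ℂ) b * B = ρ * (z * B') ∧ b * (starRingEnd ℂ) C = ρ * (z * (starRingEnd ℂ) C') := by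
  set φa := Complex.arg a
  set φb := Complex.arg b
  have ha : a = ‖a‖ * ex φa := (Complex.norm_mul_exp_arg_mul_I a).symm
  have hb : b = ‖b‖ * ex φb := (Complex.norm_mul_exp_arg_mul_I b).symm
  set η : ℝ := -(φa + φb) / 2 with hη
  set θ : ℝ := (φb - φa) / 2 with hθ
  refine ⟨‖a‖, ‖b‖, ex (-θ), ex (η + 2 * θ) * A, ex η * B, ex (η - 2 * θ) * C, rfl, rfl,
    ex_norm _, ?_, ?_, ?_, ?_, ?_, ?_, ?_⟩
  · rw [norm_mul, ex_norm, one_mul]
  · rw [norm_mul, ex_norm, one_mul]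
  · rw [norm_mul, ex_norm, one_mul]
  · conv_lhs => rw [ha]
    rw [map_mul, Complex.conj_ofReal, ex_conj, mul_assoc, ← mul_assoc (ex (-θ)), ← ex_add]
    congr 3
    rw [hη, hθ]; ring
  · conv_lhs => rw [ha]
    rw [map_mul, ex_conj, mul_assoc, ← mul_assoc (ex (-θ)), ← ex_add]
    congr 3
    rw [hη, hθ]; ring
  · conv_lhs => rw [hb]
    rw [map_mul, Complex.conj_ofReal, ex_conj, mul_assoc, ← mul_assoc (ex (-θ)), ← ex_add]
    congr 3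
    rw [hη, hθ]; ring
  · conv_lhs => rw [hb]
    rw [map_mul, ex_conj, mul_assoc, ← mul_assoc (ex (-θ)), ← ex_add]
    congr 3
    rw [hη, hθ]; ring

theorem polar_r (α1 α2 β1 β2 A1 A2 B1 B2 C1 C2 : ℝ) :
    ∃ r ρ c s A1' A2' B1' B2' C1' C2' : ℝ, r ^ 2 = α1 ^ 2 + α2 ^ 2 ∧ ρ ^ 2 = β1 ^ 2 + β2 ^ 2 ∧
    c ^ 2 + s ^ 2 = 1 ∧ A1' ^ 2 + A2' ^ 2 = A1 ^ 2 + A2 ^ 2 ∧ B1' ^ 2 + B2' ^ 2 = B1 ^ 2 + B2 ^ 2 ∧
    C1' ^ 2 + C2' ^ 2 = C1 ^ 2 + C2 ^ 2 ∧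
    α1 * A1 + α2 * A2 = r * (c * A1' - s * A2') ∧ α1 * A2 - α2 * A1 = r * (c * A2' + s * A1') ∧
    α1 * B1 + α2 * B2 = r * (c * B1' + s * B2') ∧ α2 * B1 - α1 * B2 = r * (s * B1' - c * B2') ∧
    β1 * B1 + β2 * B2 = ρ * (c * B1' - s * B2') ∧ β1 * B2 - β2 * B1 = ρ * (c * B2' + s * B1') ∧
    β1 * C1 + β2 * C2 = ρ * (c * C1' + s * C2') ∧ β2 * C1 - β1 * C2 = ρ * (s * C1' - c * C2') := by
  obtain ⟨r, ρ, z, A', B', C', h1, h2, h3, h4, h5, h6, h7, h8, h9, h10⟩ :=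
    polar_c ⟨α1, α2⟩ ⟨β1, β2⟩ ⟨A1, A2⟩ ⟨B1, B2⟩ ⟨C1, C2⟩
  have hn : ∀ w : ℂ, ‖w‖ ^ 2 = w.re ^ 2 + w.im ^ 2 := by
    intro w
    rw [← Complex.normSq_eq_norm_sq, Complex.normSq_apply]
    ring
  refine ⟨r, ρ, z.re, z.im, A'.re, A'.im, B'.re, B'.im, C'.re, C'.im, ?_, ?_, ?_, ?_, ?_, ?_,
    ?_, ?_, ?_, ?_, ?_, ?_, ?_, ?_⟩
  · rw [h1, hn]
  · rw [h2, hn]
  · rw [← hn, h3, one_pow]
  · rw [← hn, h4, hn]
  · rw [← hn, h5, hn]
  · rw [← hn, h6, hn]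
  · have := congrArg Complex.re h7
    simp at this
    linarith
  · have := congrArg Complex.im h7
    simp at this
    linarith
  · have := congrArg Complex.re h8
    simp at this
    linarith
  · have := congrArg Complex.im h8
    simp at this
    linarith
  · have := congrArg Complex.re h9
    simp at this
    linarith
  · have := congrArg Complex.im h9
    simp at this
    linarith
  · have := congrArg Complex.re h10
    simp at this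
    linarith
  · have := congrArg Complex.im h10
    simp at this
    linarith

/-- the gradient part of the quadratic form -/
def Hq (N y κ l u v g S X Y T : ℝ) : ℝ :=
  κ * N * (S + X + l * (Y + T)) * (2 * (-(S + X) + g * (Y + T)) + u * (S - X) + v * (Y - T))
    + κ * (κ - 1) * y * (S + X + l * (Y + T)) ^ 2

/-- the diagonal part -/
def Dq (N y κ l u v g A B C : ℝ) : ℝ :=
  N ^ 2 * ((u - 1) * A + (g - 1 - u + v) * B + (g - v) * C) + κ * N * y * (A + B + l * (B + C))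

/-- the real quadratic form -/
def Qr (r ρ ε l κ u v g A B C : ℝ) : ℝ :=
  Dq (r ^ 2 + l * ρ ^ 2 + ε) (g * ρ ^ 2 - r ^ 2) κ l u v g (A ^ 2) (B ^ 2) (C ^ 2)
    + Hq (r ^ 2 + l * ρ ^ 2 + ε) (g * ρ ^ 2 - r ^ 2) κ l u v g (r * A) (r * B) (ρ * B) (ρ * C)

theorem Hq_rot (N y κ l u v g S X Y T S' X' Y' T' c s : ℝ) (hc : c ^ 2 + s ^ 2 = 1) :
    Hq N y κ l u v g (c * S - s * S') (c * X - s * X') (c * Y - s * Y') (c * T - s * T')
      + Hq N y κ l u v g (c * S' + s * S) (c * X' + s * X) (c * Y' + s * Y) (c * T' + s * T)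
    = Hq N y κ l u v g S X Y T + Hq N y κ l u v g S' X' Y' T' := by
  unfold Hq
  linear_combination (κ * N * (S + X + l * (Y + T)) * (2 * (-(S + X) + g * (Y + T)) + u * (S - X)
    + v * (Y - T)) + κ * (κ - 1) * y * (S + X + l * (Y + T)) ^ 2
    + (κ * N * (S' + X' + l * (Y' + T')) * (2 * (-(S' + X') + g * (Y' + T')) + u * (S' - X')
    + v * (Y' - T')) + κ * (κ - 1) * y * (S' + X' + l * (Y' + T')) ^ 2)) * hc

theorem heatCert_of_Qr {g l κ ε u v : ℝ} (hl : 0 ≤ l) (hε : 0 < ε)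
    (hQ : ∀ r ρ A B C : ℝ, 0 ≤ Qr r ρ ε l κ u v g A B C) :
    HeatCert (Wf g l κ ε) (θf u v l κ ε) := by
  intro F G₀ G₁ hG
  rw [hess_Wf hl hε, hess_Wf hl hε, dform_θf hl hε, dform_θf hl hε]
  have g0 := hG 0
  have g1 := hG 1
  have hNpos : 0 < (NN l ε F) ^ (κ - 2) := Real.rpow_pos_of_pos (NN_pos hl hε F) _
  rw [← mul_add, ← mul_sub, ← mul_add]
  refine mul_nonneg hNpos.le ?_
  set A1 := (a1 G₀ + a2 G₁) / 2 with hA1
  set A2 := (a2 G₀ - a1 G₁) / 2 with hA2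
  set B1 := (a1 G₀ - a2 G₁) / 2 with hB1
  set B2 := (a2 G₀ + a1 G₁) / 2 with hB2
  set C1 := (b1 G₀ - b2 G₁) / 2 with hC1
  set C2 := (b2 G₀ + b1 G₁) / 2 with hC2
  have k1 : a1 G₀ = A1 + B1 := by rw [hA1, hB1]; ring
  have k2 : a2 G₀ = A2 + B2 := by rw [hA2, hB2]; ring
  have k3 : a1 G₁ = -(A2 - B2) := by rw [hA2, hB2]; ring
  have k4 : a2 G₁ = A1 - B1 := by rw [hA1, hB1]; ring
  have m1 : b1 G₀ + b2 G₁ = a1 G₀ - a2 G₁ := by
    rw [a1_apply, a2_apply, b1_apply, b2_apply]; linarith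
  have m2 : b2 G₀ - b1 G₁ = a2 G₀ + a1 G₁ := by
    rw [a1_apply, a2_apply, b1_apply, b2_apply]; linarith
  have k5 : b1 G₀ = B1 + C1 := by rw [hB1, hC1]; linarith
  have k6 : b2 G₀ = B2 + C2 := by rw [hB2, hC2]; linarith
  have k7 : b1 G₁ = -(B2 - C2) := by rw [hB2, hC2]; linarith
  have k8 : b2 G₁ = B1 - C1 := by rw [hB1, hC1]; linarith
  obtain ⟨r, ρ, c, s, A1', A2', B1', B2', C1', C2', h1, h2, h3, h4, h5, h6, e1, e2, e3, e4, e5,
    e6, e7, e8⟩ := polar_r (a1 F) (a2 F) (b1 F) (b2 F) A1 A2 B1 B2 C1 C2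
  have q1 := hQ r ρ A1' B1' C1'
  have q2 := hQ r (-ρ) A2' (-B2') C2'
  have hN : NN l ε F = r ^ 2 + l * ρ ^ 2 + ε := by unfold NN pP pQ; rw [h1, h2]
  have hy : g * pQ F - pP F = g * ρ ^ 2 - r ^ 2 := by unfold pP pQ; rw [h1, h2]
  -- the sum of the two real forms
  have hsum : Qr r ρ ε l κ u v g A1' B1' C1' + Qr r (-ρ) ε l κ u v g A2' (-B2') C2'
      = Dq (NN l ε F) (g * pQ F - pP F) κ l u v g (A1 ^ 2 + A2 ^ 2) (B1 ^ 2 + B2 ^ 2)
          (C1 ^ 2 + C2 ^ 2)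
        + (Hq (NN l ε F) (g * pQ F - pP F) κ l u v g (a1 F * A1 + a2 F * A2)
            (a1 F * B1 + a2 F * B2) (b1 F * B1 + b2 F * B2) (b1 F * C1 + b2 F * C2)
          + Hq (NN l ε F) (g * pQ F - pP F) κ l u v g (a1 F * A2 - a2 F * A1)
            (a2 F * B1 - a1 F * B2) (b1 F * B2 - b2 F * B1) (b2 F * C1 - b1 F * C2)) := by
    rw [e1, e2, e3, e4, e5, e6, e7, e8, hN, hy, ← h4, ← h5, ← h6]
    have hr := Hq_rot (r ^ 2 + l * ρ ^ 2 + ε) (g * ρ ^ 2 - r ^ 2) κ l u v g (r * A1') (r * B1')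
      (ρ * B1') (ρ * C1') (r * A2') (-(r * B2')) (ρ * B2') (-(ρ * C2')) c s h3
    have t1 : r * (c * A1' - s * A2') = c * (r * A1') - s * (r * A2') := by ring
    have t2 : r * (c * A2' + s * A1') = c * (r * A2') + s * (r * A1') := by ring
    have t3 : r * (c * B1' + s * B2') = c * (r * B1') - s * (-(r * B2')) := by ring
    have t4 : r * (s * B1' - c * B2') = c * (-(r * B2')) + s * (r * B1') := by ring
    have t5 : ρ * (c * B1' - s * B2') = c * (ρ * B1') - s * (ρ * B2') := by ring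
    have t6 : ρ * (c * B2' + s * B1') = c * (ρ * B2') + s * (ρ * B1') := by ring
    have t7 : ρ * (c * C1' + s * C2') = c * (ρ * C1') - s * (-(ρ * C2')) := by ring
    have t8 : ρ * (s * C1' - c * C2') = c * (-(ρ * C2')) + s * (ρ * C1') := by ring
    rw [t1, t2, t3, t4, t5, t6, t7, t8, hr]
    unfold Qr Dq Hq
    ring
  have hfin : 0 ≤ 4 * (Qr r ρ ε l κ u v g A1' B1' C1' + Qr r (-ρ) ε l κ u v g A2' (-B2') C2') := by
    linarith
  rw [hsum] at hfin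
  refine hfin.trans (le_of_eq ?_)
  simp only [Dq, Hq, lP, lQ, k1, k2, k3, k4, k5, k6, k7, k8]
  generalize NN l ε F = N
  simp only [pP, pQ, k1, k2, k3, k4, k5, k6, k7, k8]
  ring

end Pool.Agent.W772.Beu
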