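import Pool.Agent.W772.Beu2

set_option autoImplicit false

open MeasureTheory Set Filter Topology

namespace Pool.Agent.W772.Beu

theorem star1 (r ρ l κ u g A B C N y e : ℝ) (he : e = r * (A + B) + l * ρ * (B + C)) :
    r ^ 2 * (Dq N y κ l u (g - l * κ) g (A ^ 2) (B ^ 2) (C ^ 2)
      + Hq N y κ l u (g - l * κ) g (r * A) (r * B) (ρ * B) (ρ * C))
    = N * (((u - 1) * N + κ * y) * (e - (r + l * ρ) * B - l * ρ * C) ^ 2
        + r ^ 2 * ((2 * g - 1 - u - l * κ) * N + κ * (1 + l) * y) * B ^ 2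
        + r ^ 2 * (κ * l * (N + y)) * C ^ 2)
      + κ * r ^ 2 * N * e * ((u - 2) * e + ((3 * g + l * (2 - κ - u)) * ρ - 2 * u * r) * B
        + (g + l * (2 + κ - u)) * ρ * C)
      + κ * (κ - 1) * y * r ^ 2 * e ^ 2 := by
  rw [he]
  unfold Dq Hq
  ring

theorem star2 (r ρ l κ u N y a1 a4 ε G d b e B C H : ℝ) (hH : H = l * a1 + κ * r ^ 2 * G) :
    4 * l * G * H * (N * (a1 * (e - (r + l * ρ) * B - l * ρ * C) ^ 2 + r ^ 2 * a4 * B ^ 2
        + (l * (ρ ^ 2 * H + κ * r ^ 2 * ε) - l ^ 2 * ρ ^ 2 * a1) * C ^ 2)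
      + κ * r ^ 2 * N * e * ((u - 2) * e + (b * ρ - 2 * u * r) * B + d * ρ * C)
      + κ * (κ - 1) * y * r ^ 2 * e ^ 2)
    = G * N * (2 * l * H * ρ * C + ((κ * r ^ 2 * d - 2 * l * a1) * e
        + 2 * a1 * l * (r + l * ρ) * B)) ^ 2
      + 4 * l ^ 2 * G * H * N * κ * r ^ 2 * ε * C ^ 2
      + r ^ 2 * (κ * (((4 * l * G * (u - 2) - d ^ 2) * N + 4 * l * G * (κ - 1) * y) * H
          + l * (2 * G + d) ^ 2 * a1 * N) * e ^ 2
        + 4 * l * G * N * κ * (H * (b * ρ - 2 * u * r) - a1 * (2 * G + d) * (r + l * ρ)) * e * B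
        + 4 * l * G * N * (κ * G * a1 * (r + l * ρ) ^ 2 + a4 * H) * B ^ 2) := by
  subst hH
  ring

theorem star3 {κ l G N H Γ11 Γ12 Γ22 F : ℝ} (hκ : 0 ≤ κ) (hM : 0 < 4 * l * G * N) (hH : 0 ≤ H)
    (hΓ : 0 < Γ22) (hF : 0 ≤ F) (hd : Γ11 * Γ22 - κ * l * G * N * Γ12 ^ 2 = H * F) (e B : ℝ) :
    0 ≤ κ * Γ11 * e ^ 2 + 4 * l * G * N * κ * Γ12 * e * B + 4 * l * G * N * Γ22 * B ^ 2 := by
  have h1 : 4 * (4 * l * G * N) * Γ22 * (κ * Γ11 * e ^ 2 + 4 * l * G * N * κ * Γ12 * e * B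
      + 4 * l * G * N * Γ22 * B ^ 2)
      = (2 * (4 * l * G * N) * Γ22 * B + (4 * l * G * N) * κ * Γ12 * e) ^ 2
        + 4 * (4 * l * G * N) * κ * (H * F) * e ^ 2 := by
    rw [← hd]; ring
  have h2 : 0 ≤ 4 * (4 * l * G * N) * Γ22 * (κ * Γ11 * e ^ 2 + 4 * l * G * N * κ * Γ12 * e * B
      + 4 * l * G * N * Γ22 * B ^ 2) := by
    rw [h1]
    have := mul_nonneg hH hF
    positivity
  exact nonneg_of_mul_nonneg_right h2 (by positivity)

theorem disc (κ l G N H a1 a4 Y h w rc : ℝ) :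
    (Y * H + l * h ^ 2 * a1 * N) * (κ * G * a1 * rc ^ 2 + a4 * H)
      - κ * l * G * N * (H * w - a1 * h * rc) ^ 2
    = H * (H * (Y * a4 - κ * l * G * N * w ^ 2) + a1 * (κ * Y * G * rc ^ 2
        + 2 * κ * l * G * N * h * w * rc + l * h ^ 2 * N * a4)) := by
  ring

/-- the remaining polynomial of the certificate -/
def Fp (r ρ l κ u g N y : ℝ) : ℝ :=
  (l * ((u - 1) * N + κ * y) + κ * r ^ 2 * (g + l)) *
    (((4 * l * (g + l) * (u - 2) - (g + l * (2 + κ - u)) ^ 2) * N + 4 * l * (g + l) * (κ - 1) * y)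
        * ((2 * g - 1 - u - l * κ) * N + κ * (1 + l) * y)
      - κ * l * (g + l) * N * ((3 * g + l * (2 - κ - u)) * ρ - 2 * u * r) ^ 2)
  + ((u - 1) * N + κ * y) *
    (κ * ((4 * l * (g + l) * (u - 2) - (g + l * (2 + κ - u)) ^ 2) * N + 4 * l * (g + l) * (κ - 1) * y)
        * (g + l) * (r + l * ρ) ^ 2
      + 2 * κ * l * (g + l) * N * (2 * (g + l) + (g + l * (2 + κ - u)))
        * ((3 * g + l * (2 - κ - u)) * ρ - 2 * u * r) * (r + l * ρ)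
      + l * (2 * (g + l) + (g + l * (2 + κ - u))) ^ 2 * N
        * ((2 * g - 1 - u - l * κ) * N + κ * (1 + l) * y))

theorem Qr_nonneg_of {r ρ ε l κ u g : ℝ} (hr : r ≠ 0) (hl : 0 < l) (hg : 0 < g) (hε : 0 < ε)
    (hκ : 0 ≤ κ)
    (h1 : 0 < (u - 1) * (r ^ 2 + l * ρ ^ 2 + ε) + κ * (g * ρ ^ 2 - r ^ 2))
    (h4 : 0 < (2 * g - 1 - u - l * κ) * (r ^ 2 + l * ρ ^ 2 + ε) + κ * (1 + l) * (g * ρ ^ 2 - r ^ 2))
    (hF : 0 ≤ Fp r ρ l κ u g (r ^ 2 + l * ρ ^ 2 + ε) (g * ρ ^ 2 - r ^ 2)) (A B C : ℝ) :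
    0 ≤ Qr r ρ ε l κ u (g - l * κ) g A B C := by
  set N := r ^ 2 + l * ρ ^ 2 + ε with hN
  set y := g * ρ ^ 2 - r ^ 2 with hy
  set a1 := (u - 1) * N + κ * y with ha1
  set a4 := (2 * g - 1 - u - l * κ) * N + κ * (1 + l) * y with ha4
  set G := g + l with hG
  set H := l * a1 + κ * r ^ 2 * G with hH
  have hNp : 0 < N := by rw [hN]; positivity
  have hGp : 0 < G := by rw [hG]; positivity
  have hHp : 0 < H := by
    rw [hH]
    have : 0 < l * a1 := mul_pos hl h1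
    have : 0 ≤ κ * r ^ 2 * G := by positivity
    linarith
  have e1 := star1 r ρ l κ u g A B C N y (r * (A + B) + l * ρ * (B + C)) rfl
  set e := r * (A + B) + l * ρ * (B + C) with he
  have e3 : r ^ 2 * (κ * l * (N + y))
      = l * (ρ ^ 2 * H + κ * r ^ 2 * ε) - l ^ 2 * ρ ^ 2 * a1 := by
    rw [hH, hG, hN, hy]; ring
  have e2 := star2 r ρ l κ u N y a1 a4 ε G (g + l * (2 + κ - u)) (3 * g + l * (2 - κ - u)) e B C H hH
  rw [← e3, ← e1] at e2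
  have hQ : Qr r ρ ε l κ u (g - l * κ) g A B C
      = Dq N y κ l u (g - l * κ) g (A ^ 2) (B ^ 2) (C ^ 2)
      + Hq N y κ l u (g - l * κ) g (r * A) (r * B) (ρ * B) (ρ * C) := rfl
  rw [← hQ] at e2
  have hΓ : 0 < κ * G * a1 * (r + l * ρ) ^ 2 + a4 * H := by
    have k1 : 0 < a4 * H := mul_pos h4 hHp
    have k2 : 0 ≤ κ * G * a1 * (r + l * ρ) ^ 2 := by
      have := h1.le
      positivity
    linarith
  have hs := star3 (Γ11 := ((4 * l * G * (u - 2) - (g + l * (2 + κ - u)) ^ 2) * N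
      + 4 * l * G * (κ - 1) * y) * H + l * (2 * G + (g + l * (2 + κ - u))) ^ 2 * a1 * N)
    (Γ12 := H * ((3 * g + l * (2 - κ - u)) * ρ - 2 * u * r)
      - a1 * (2 * G + (g + l * (2 + κ - u))) * (r + l * ρ)) hκ
    (show 0 < 4 * l * G * N by positivity) hHp.le hΓ hF (disc κ l G N H a1 a4 _ _ _ _) e B
  have hr2 : 0 < r ^ 2 := by positivity
  have h5 : 0 ≤ 4 * l * G * H * (r ^ 2 * Qr r ρ ε l κ u (g - l * κ) g A B C) := by
    rw [e2]
    have := mul_nonneg hr2.le hs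
    positivity
  have h6 : 0 < 4 * l * G * H := by positivity
  exact nonneg_of_mul_nonneg_right (nonneg_of_mul_nonneg_right h5 h6) hr2

theorem continuous_Qr (ρ ε l κ u v g A B C : ℝ) :
    Continuous (fun r => Qr r ρ ε l κ u v g A B C) := by
  unfold Qr Dq Hq
  fun_prop

theorem Qr_nonneg {ρ ε l κ u v g A B C : ℝ} (h : ∀ r : ℝ, r ≠ 0 → 0 ≤ Qr r ρ ε l κ u v g A B C)
    (r : ℝ) : 0 ≤ Qr r ρ ε l κ u v g A B C := by
  by_cases hr : r = 0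
  · subst hr
    have hc := (continuous_Qr ρ ε l κ u v g A B C).tendsto 0
    have h1 : Tendsto (fun n : ℕ => Qr (1 / ((n : ℝ) + 1)) ρ ε l κ u v g A B C) atTop
        (𝓝 (Qr 0 ρ ε l κ u v g A B C)) := hc.comp tendsto_one_div_add_atTop_nhds_zero_nat
    exact ge_of_tendsto' h1 fun n => h _ (by positivity)
  · exact h r hr

end Pool.Agent.W772.Beu
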