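import Pool.Agent.W772.Beu4

set_option autoImplicit false

open MeasureTheory Set Filter Topology

namespace Pool.Agent.W772.Beu

open Pool.Agent.W779.Morrey

/-- the parameter `λ` -/
noncomputable def lq (q : ℝ) : ℝ := (9 * q + 4) / 10
/-- the parameter `u` -/
noncomputable def uq (q : ℝ) : ℝ := (35 * q + 22) / 20
/-- the parameter `γ` -/
noncomputable def gq (q : ℝ) : ℝ := 121 / 100 * (q + 1) ^ 2

/-- scaled version of the polynomial -/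
def Fs (r X l κ u g N y k : ℝ) : ℝ :=
  (l * ((u - 1) * N + κ * y * k ^ 2) + κ * r ^ 2 * (g + l) * k ^ 2) *
    (((4 * l * (g + l) * (u - 2) - (g + l * (2 + κ - u)) ^ 2) * N
        + 4 * l * (g + l) * (κ - 1) * y * k ^ 2)
        * ((2 * g - 1 - u - l * κ) * N + κ * (1 + l) * y * k ^ 2)
      - κ * l * (g + l) * N * ((3 * g + l * (2 - κ - u)) * X - 2 * u * r * k) ^ 2)
  + ((u - 1) * N + κ * y * k ^ 2) *
    (κ * ((4 * l * (g + l) * (u - 2) - (g + l * (2 + κ - u)) ^ 2) * N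
          + 4 * l * (g + l) * (κ - 1) * y * k ^ 2)
        * (g + l) * (r * k + l * X) ^ 2
      + 2 * κ * l * (g + l) * N * (2 * (g + l) + (g + l * (2 + κ - u)))
        * ((3 * g + l * (2 - κ - u)) * X - 2 * u * r * k) * (r * k + l * X)
      + l * (2 * (g + l) + (g + l * (2 + κ - u))) ^ 2 * N
        * ((2 * g - 1 - u - l * κ) * N + κ * (1 + l) * y * k ^ 2))

theorem Fs_eq (r ρ l κ u g N y k : ℝ) :
    Fs r (k * ρ) l κ u g (k ^ 2 * N) y k = k ^ 6 * Fp r ρ l κ u g N y := by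
  unfold Fs Fp
  ring

theorem Fs_big (q r X ε : ℝ) :
    400000000000 * Fs r X (lq q) (q / 2) (uq q) (gq q)
      ((q + 1) ^ 2 * r ^ 2 + lq q * X ^ 2 + (q + 1) ^ 2 * ε) (121 / 100 * X ^ 2 - r ^ 2) (q + 1)
    = Phi0 q r X + ε * Phi1 q r X + ε ^ 2 * Phi2 q r X + ε ^ 3 * Phi3 q r X := by
  unfold Fs lq uq gq Phi0 Phi1 Phi2 Phi3
  ring

theorem lq_pos {q : ℝ} (hq : 0 ≤ q) : 0 < lq q := by unfold lq; positivity
theorem gq_pos {q : ℝ} (hq : 0 ≤ q) : 0 < gq q := by unfold gq; positivity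

theorem cond1 {q : ℝ} (hq : 0 ≤ q) {ε : ℝ} (hε : 0 < ε) (r ρ : ℝ) :
    0 < (uq q - 1) * (r ^ 2 + lq q * ρ ^ 2 + ε) + q / 2 * (gq q * ρ ^ 2 - r ^ 2) := by
  have e : (uq q - 1) * (r ^ 2 + lq q * ρ ^ 2 + ε) + q / 2 * (gq q * ρ ^ 2 - r ^ 2)
      = (25 * q + 2) / 20 * r ^ 2 + ((35 * q + 2) / 20 * lq q + q / 2 * gq q) * ρ ^ 2
        + (35 * q + 2) / 20 * ε := by unfold uq; ring
  rw [e]
  have := lq_pos hq
  have := gq_pos hq
  positivity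

theorem cond4 {q : ℝ} (hq : 0 ≤ q) {ε : ℝ} (hε : 0 < ε) (r ρ : ℝ) :
    0 < (2 * gq q - 1 - uq q - lq q * (q / 2)) * (r ^ 2 + lq q * ρ ^ 2 + ε)
      + q / 2 * (1 + lq q) * (gq q * ρ ^ 2 - r ^ 2) := by
  have e : (2 * gq q - 1 - uq q - lq q * (q / 2)) * (r ^ 2 + lq q * ρ ^ 2 + ε)
      + q / 2 * (1 + lq q) * (gq q * ρ ^ 2 - r ^ 2)
      = (38 / 25 * q ^ 2 + 219 / 100 * q + 8 / 25) * r ^ 2
        + ((197 / 100 * q ^ 2 + 289 / 100 * q + 8 / 25) * lq q + q / 2 * (1 + lq q) * gq q) * ρ ^ 2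
        + (197 / 100 * q ^ 2 + 289 / 100 * q + 8 / 25) * ε := by unfold uq gq lq; ring
  rw [e]
  have := lq_pos hq
  have := gq_pos hq
  positivity

theorem Fp_nonneg {q : ℝ} (hq : 0 ≤ q) {ε : ℝ} (hε : 0 < ε) (r ρ : ℝ) :
    0 ≤ Fp r ρ (lq q) (q / 2) (uq q) (gq q) (r ^ 2 + lq q * ρ ^ 2 + ε) (gq q * ρ ^ 2 - r ^ 2) := by
  have h1 := Fs_big q r ((q + 1) * ρ) ε
  have e1 : (q + 1) ^ 2 * r ^ 2 + lq q * ((q + 1) * ρ) ^ 2 + (q + 1) ^ 2 * ε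
      = (q + 1) ^ 2 * (r ^ 2 + lq q * ρ ^ 2 + ε) := by ring
  have e2 : 121 / 100 * ((q + 1) * ρ) ^ 2 - r ^ 2 = gq q * ρ ^ 2 - r ^ 2 := by unfold gq; ring
  rw [e1, e2, Fs_eq] at h1
  have h2 := Phi0_nonneg hq r ((q + 1) * ρ)
  have h3 := Phi1_nonneg hq r ((q + 1) * ρ)
  have h4 := Phi2_nonneg hq r ((q + 1) * ρ)
  have h5 := Phi3_nonneg hq r ((q + 1) * ρ)
  have h6 : 0 ≤ 400000000000 * ((q + 1) ^ 6 * Fp r ρ (lq q) (q / 2) (uq q) (gq q)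
      (r ^ 2 + lq q * ρ ^ 2 + ε) (gq q * ρ ^ 2 - r ^ 2)) := by
    rw [h1]; positivity
  exact nonneg_of_mul_nonneg_right (nonneg_of_mul_nonneg_right h6 (by norm_num))
    (by positivity)

theorem cert_all {q : ℝ} (hq : 0 ≤ q) {ε : ℝ} (hε : 0 < ε) :
    HeatCert (Wf (gq q) (lq q) (q / 2) ε)
      (θf (uq q) (gq q - lq q * (q / 2)) (lq q) (q / 2) ε) := by
  refine heatCert_of_Qr (lq_pos hq).le hε fun r ρ A B C => ?_
  refine Qr_nonneg (fun r hr => ?_) r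
  exact Qr_nonneg_of hr (lq_pos hq) (gq_pos hq) hε (by positivity) (cond1 hq hε r ρ)
    (cond4 hq hε r ρ) (Fp_nonneg hq hε r ρ) A B C

end Pool.Agent.W772.Beu
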