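import Mathlib

set_option autoImplicit false

open MeasureTheory Set Filter Topology

namespace Pool.Agent.W772.Beu

/-- the key inequality, positive increments -/
theorem key_pos {κ θ : ℝ} (hκ : 0 ≤ κ) (h0 : 1 / 2 ≤ θ) (h1 : θ < 1)
    (hb : 1 ≤ (1 + κ) * θ ^ κ) {δ : ℝ} (hδ : 0 ≤ δ) :
    (1 + δ) ^ (1 + κ) ≤ 1 + (1 + κ) * (δ * (1 + θ * δ) ^ κ) := by
  have hθ : 0 < θ := by linarith
  by_contra hcon
  push Not at hcon
  have hδ0 : 0 < δ := by
    rcases hδ.lt_or_eq with h | h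
    · exact h
    · exfalso; rw [← h] at hcon; simp at hcon
  have hd : ∀ x : ℝ, 0 ≤ x → HasDerivAt (fun x : ℝ => 1 + (1 + κ) * (x * (1 + θ * x) ^ κ)
      - (1 + x) ^ (1 + κ))
      ((1 + κ) * ((1 + θ * x) ^ κ + x * (θ * κ * (1 + θ * x) ^ (κ - 1)) - (1 + x) ^ κ)) x := by
    intro x hx
    have p1 : 0 < 1 + θ * x := by positivity
    have p2 : 0 < 1 + x := by positivity
    have d1 : HasDerivAt (fun x : ℝ => 1 + θ * x) θ x := by
      simpa using ((hasDerivAt_id x).const_mul θ).const_add 1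
    have d2 : HasDerivAt (fun x : ℝ => 1 + x) 1 x := by
      simpa using (hasDerivAt_id x).const_add 1
    have d3 := ((hasDerivAt_id x).mul (d1.rpow_const (p := κ) (Or.inl p1.ne'))).const_mul (1 + κ)
    have d4 := (d3.const_add 1).sub (d2.rpow_const (p := 1 + κ) (Or.inl p2.ne'))
    refine d4.congr_deriv ?_
    have e : 1 + κ - 1 = κ := by ring
    simp only [id, one_mul, e]
    ring
  obtain ⟨c, hc, hc2⟩ := exists_hasDerivAt_eq_slope
    (fun x : ℝ => 1 + (1 + κ) * (x * (1 + θ * x) ^ κ) - (1 + x) ^ (1 + κ))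
    (fun x => (1 + κ) * ((1 + θ * x) ^ κ + x * (θ * κ * (1 + θ * x) ^ (κ - 1)) - (1 + x) ^ κ))
    hδ0 (fun x hx => (hd x hx.1).continuousAt.continuousWithinAt) (fun x hx => hd x hx.1.le)
  have hneg : (1 + κ) * ((1 + θ * c) ^ κ + c * (θ * κ * (1 + θ * c) ^ (κ - 1)) - (1 + c) ^ κ) < 0 := by
    rw [hc2]
    refine div_neg_of_neg_of_pos ?_ (by linarith)
    simp only [zero_mul, mul_zero, add_zero, Real.one_rpow]
    linarith
  have hc0 : 0 < c := hc.1
  have p1 : 0 < 1 + θ * c := by positivity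
  -- the ratio
  set z := θ * c / (1 + θ * c) with hz
  have hz0 : 0 ≤ z := by positivity
  have hz1 : z ≤ 1 := by
    rw [hz, div_le_one p1]; linarith
  have e1 : (1 + θ * c) ^ κ + c * (θ * κ * (1 + θ * c) ^ (κ - 1)) = (1 + θ * c) ^ κ * (1 + κ * z) := by
    rw [Real.rpow_sub_one p1.ne', hz]
    field_simp
  have e2 : (1 + c) = (1 + θ * c) * ((1 - z) * 1 + z * θ⁻¹) := by
    rw [hz]
    field_simp
    ring
  have hx0 : 0 ≤ (1 - z) * 1 + z * θ⁻¹ := by
    have := inv_pos.2 hθ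
    have : 0 ≤ 1 - z := by linarith
    positivity
  have e3 : (1 + c) ^ κ = (1 + θ * c) ^ κ * ((1 - z) * 1 + z * θ⁻¹) ^ κ := by
    rw [e2, Real.mul_rpow p1.le hx0]
  have hinv : (θ⁻¹) ^ κ ≤ 1 + κ := by
    rw [Real.inv_rpow hθ.le, inv_le_iff_one_le_mul₀ (Real.rpow_pos_of_pos hθ κ)]
    exact hb
  have hle : ((1 - z) * 1 + z * θ⁻¹) ^ κ ≤ 1 + κ * z := by
    rcases le_total 1 κ with hk | hk
    · have hcv := (convexOn_rpow hk).2 (show (1:ℝ) ∈ Ici (0:ℝ) by simp)
        (show θ⁻¹ ∈ Ici (0:ℝ) by simpa using hθ.le) (show 0 ≤ 1 - z by linarith) hz0 (by ring)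
      simp only [smul_eq_mul, Real.one_rpow] at hcv
      refine hcv.trans ?_
      nlinarith [mul_le_mul_of_nonneg_left hinv hz0]
    · have hb2 := rpow_one_add_le_one_add_mul_self (s := z * (θ⁻¹ - 1)) (p := κ) (by
        have : 1 ≤ θ⁻¹ := (one_le_inv₀ hθ).2 h1.le
        have : 0 ≤ z * (θ⁻¹ - 1) := mul_nonneg hz0 (by linarith)
        linarith) hκ hk
      have e4 : (1 - z) * 1 + z * θ⁻¹ = 1 + z * (θ⁻¹ - 1) := by ring
      rw [e4]
      refine hb2.trans ?_
      have h2 : θ⁻¹ ≤ 2 := by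
        rw [inv_le_comm₀ hθ (by norm_num)]
        linarith
      nlinarith [mul_nonneg hκ hz0]
  have hfin : (1 + c) ^ κ ≤ (1 + θ * c) ^ κ + c * (θ * κ * (1 + θ * c) ^ (κ - 1)) := by
    rw [e1, e3]
    exact mul_le_mul_of_nonneg_left hle (Real.rpow_nonneg p1.le κ)
  have : 0 ≤ (1 + κ) * ((1 + θ * c) ^ κ + c * (θ * κ * (1 + θ * c) ^ (κ - 1)) - (1 + c) ^ κ) :=
    mul_nonneg (by linarith) (by linarith)
  linarith

/-- the key inequality, negative increments -/
theorem key_neg {κ θ : ℝ} (hκ : 0 ≤ κ) (h0 : 1 / 2 ≤ θ) (h1 : θ < 1)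
    (hc' : κ ≤ 1 → (1 + κ) * (1 - θ) ^ κ ≤ 1) {d : ℝ} (hd0 : 0 ≤ d) (hd1 : d ≤ 1) :
    (1 - d) ^ (1 + κ) ≤ 1 - (1 + κ) * (d * (1 - θ * d) ^ κ) := by
  have hθ : 0 < θ := by linarith
  by_contra hcon
  push Not at hcon
  have hκ1 : (0:ℝ) < 1 + κ := by linarith
  have hdpos : 0 < d := by
    rcases hd0.lt_or_eq with h | h
    · exact h
    · exfalso; rw [← h] at hcon; simp at hcon
  have hp : ∀ x : ℝ, x ≤ 1 → 0 < 1 - θ * x := by
    intro x hx
    nlinarith
  set G : ℝ → ℝ := fun x => 1 - (1 + κ) * (x * (1 - θ * x) ^ κ) - (1 - x) ^ (1 + κ) with hG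
  set G' : ℝ → ℝ := fun x => (1 + κ) * ((1 - x) ^ κ - (1 - θ * x) ^ κ
    + x * (θ * κ * (1 - θ * x) ^ (κ - 1))) with hG'
  have hder : ∀ x : ℝ, x ≤ 1 → HasDerivAt G (G' x) x := by
    intro x hx
    have p1 := hp x hx
    have d1 : HasDerivAt (fun x : ℝ => 1 - θ * x) (-θ) x := by
      simpa using ((hasDerivAt_id x).const_mul θ).const_sub 1
    have d2 : HasDerivAt (fun x : ℝ => 1 - x) (-1) x := by
      simpa using (hasDerivAt_id x).const_sub 1
    have d3 := ((hasDerivAt_id x).mul (d1.rpow_const (p := κ) (Or.inl p1.ne'))).const_mul (1 + κ)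
    have d4 := (d3.const_sub 1).sub (d2.rpow_const (p := 1 + κ) (Or.inr (by linarith)))
    refine d4.congr_deriv ?_
    have e : 1 + κ - 1 = κ := by ring
    simp only [id, one_mul, e, hG']
    ring
  -- sign function
  set ψ : ℝ → ℝ := fun z => (1 - (1 - θ) * z) ^ κ - 1 + κ * θ * z with hψ
  have hrel : ∀ x : ℝ, x ≤ 1 → G' x = (1 + κ) * ((1 - θ * x) ^ κ * ψ (x / (1 - θ * x))) := by
    intro x hx
    have p1 := hp x hx
    have e1 : 1 - (1 - θ) * (x / (1 - θ * x)) = (1 - x) / (1 - θ * x) := by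
      field_simp
      ring
    simp only [hG', hψ]
    rw [e1, Real.div_rpow (by linarith) p1.le, Real.rpow_sub_one p1.ne']
    have h3 : (1 - θ * x) ^ κ ≠ 0 := (Real.rpow_pos_of_pos p1 κ).ne'
    generalize (1 - θ * x) ^ κ = a at h3 ⊢
    have h4 : 1 - θ * x ≠ 0 := p1.ne'
    field_simp
  have hsgn : ∀ x : ℝ, x ≤ 1 → (G' x < 0 → ψ (x / (1 - θ * x)) < 0) ∧
      (0 < G' x → 0 < ψ (x / (1 - θ * x))) := by
    intro x hx
    have p2 : 0 < (1 - θ * x) ^ κ := Real.rpow_pos_of_pos (hp x hx) κ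
    rw [hrel x hx]
    constructor
    · intro h
      by_contra hn
      push Not at hn
      have : 0 ≤ (1 + κ) * ((1 - θ * x) ^ κ * ψ (x / (1 - θ * x))) := by positivity
      linarith
    · intro h
      by_contra hn
      push Not at hn
      have : (1 + κ) * ((1 - θ * x) ^ κ * ψ (x / (1 - θ * x))) ≤ 0 :=
        mul_nonpos_of_nonneg_of_nonpos hκ1.le (mul_nonpos_of_nonneg_of_nonpos p2.le hn)
      linarith
  have hGd : G d < 0 := by simp only [hG]; linarith
  have hG0 : G 0 = 0 := by simp [hG]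
  obtain ⟨x1, hx1, hx1'⟩ := exists_hasDerivAt_eq_slope G G' hdpos
    (fun x hx => (hder x (hx.2.trans hd1)).continuousAt.continuousWithinAt)
    (fun x hx => hder x (hx.2.le.trans hd1))
  have hs1 : G' x1 < 0 := by
    rw [hx1', hG0]
    exact div_neg_of_neg_of_pos (by linarith) (by linarith)
  have hx1le : x1 ≤ 1 := hx1.2.le.trans hd1
  have hψ1 := (hsgn x1 hx1le).1 hs1
  set z1 := x1 / (1 - θ * x1) with hz1
  have hz1pos : 0 < z1 := div_pos hx1.1 (hp x1 hx1le)
  have hz1b : (1 - θ) * z1 ≤ 1 := by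
    have p1 := hp x1 hx1le
    rw [hz1, ← mul_div_assoc, div_le_one p1]
    nlinarith
  rcases le_total 1 κ with hk | hk
  · have hb := one_add_mul_self_le_rpow_one_add (s := -((1 - θ) * z1)) (by linarith) hk
    have e : 1 + -((1 - θ) * z1) = 1 - (1 - θ) * z1 := by ring
    rw [e] at hb
    have : 0 ≤ ψ z1 := by
      simp only [hψ]
      have : 0 ≤ κ * ((2 * θ - 1) * z1) := by
        have : 0 ≤ 2 * θ - 1 := by linarith
        positivity
      nlinarith
    linarith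
  · -- there is a later point with positive derivative
    have hG1 : 0 ≤ G 1 := by
      simp only [hG, mul_one, one_mul, sub_self]
      rw [Real.zero_rpow hκ1.ne']
      have := hc' hk
      linarith
    have hd1' : d < 1 := by
      rcases hd1.lt_or_eq with h | h
      · exact h
      · exfalso; rw [h] at hGd; linarith
    obtain ⟨x2, hx2, hx2'⟩ := exists_hasDerivAt_eq_slope G G' hd1'
      (fun x hx => (hder x hx.2).continuousAt.continuousWithinAt)
      (fun x hx => hder x hx.2.le)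
    have hs2 : 0 < G' x2 := by
      rw [hx2']
      exact div_pos (by linarith) (by linarith)
    have hψ2 := (hsgn x2 hx2.2.le).2 hs2
    set z2 := x2 / (1 - θ * x2) with hz2
    have hp1 := hp x1 hx1le
    have hp2 := hp x2 hx2.2.le
    have hz12 : z1 < z2 := by
      rw [hz1, hz2, div_lt_div_iff₀ hp1 hp2]
      have : x1 < x2 := hx1.2.trans hx2.1
      nlinarith
    have hz2pos : 0 < z2 := hz1pos.trans hz12
    have hz2b : (1 - θ) * z2 ≤ 1 := by
      rw [hz2, ← mul_div_assoc, div_le_one hp2]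
      nlinarith [hx2.2]
    set τ := z1 / z2 with hτ
    have hτ0 : 0 ≤ τ := by positivity
    have hτ1 : τ ≤ 1 := by rw [hτ, div_le_one hz2pos]; exact hz12.le
    have hτz : τ * z2 = z1 := by rw [hτ]; field_simp
    have hcc := (Real.concaveOn_rpow hκ hk).2 (show (1:ℝ) ∈ Ici (0:ℝ) by simp)
      (show 1 - (1 - θ) * z2 ∈ Ici (0:ℝ) by simp only [mem_Ici]; linarith)
      (show 0 ≤ 1 - τ by linarith) hτ0 (by ring)
    simp only [smul_eq_mul, Real.one_rpow] at hcc
    have e : (1 - τ) * 1 + τ * (1 - (1 - θ) * z2) = 1 - (1 - θ) * z1 := by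
      rw [← hτz]; ring
    rw [e] at hcc
    have : τ * ψ z2 ≤ ψ z1 := by
      simp only [hψ]
      rw [← hτz] at hcc ⊢
      nlinarith
    have h3 : 0 < τ := div_pos hz1pos hz2pos
    have := mul_pos h3 hψ2
    linarith

theorem key {κ θ : ℝ} (hκ : 0 ≤ κ) (h0 : 1 / 2 ≤ θ) (h1 : θ < 1)
    (hb : 1 ≤ (1 + κ) * θ ^ κ) (hc' : κ ≤ 1 → (1 + κ) * (1 - θ) ^ κ ≤ 1) {δ : ℝ} (hδ : -1 ≤ δ) :
    (1 + δ) ^ (1 + κ) ≤ 1 + (1 + κ) * (δ * (1 + θ * δ) ^ κ) := by
  rcases le_total 0 δ with h | h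
  · exact key_pos hκ h0 h1 hb h
  · have := key_neg hκ h0 h1 hc' (d := -δ) (by linarith) (by linarith)
    have e1 : 1 - -δ = 1 + δ := by ring
    have e2 : 1 - θ * -δ = 1 + θ * δ := by ring
    rw [e1, e2] at this
    linarith

/-- the pointwise inequality -/
theorem pointwise {κ g l : ℝ} (hκ : 0 ≤ κ) (hg : 0 < g) (hl : 0 < l) (hlg : l ≤ g)
    (hb : 1 ≤ (1 + κ) * (g / (g + l)) ^ κ) (hc' : κ ≤ 1 → (1 + κ) * (l / (g + l)) ^ κ ≤ 1)
    {s t : ℝ} (hs : 0 ≤ s) (ht : 0 ≤ t) :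
    (1 + κ) * (g / (g + l)) ^ κ * ((g * t - s) * (s + l * t) ^ κ)
      ≤ (g * t) ^ (1 + κ) - s ^ (1 + κ) := by
  have hgl : 0 < g + l := by positivity
  rcases ht.lt_or_eq with ht' | ht'
  · have hgt : 0 < g * t := by positivity
    have hk := key (κ := κ) (θ := g / (g + l)) hκ (by rw [div_le_div_iff₀ (by norm_num) hgl]; linarith)
      (by rw [div_lt_one hgl]; linarith) hb
      (by
        intro h
        have e : 1 - g / (g + l) = l / (g + l) := by field_simp; ring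
        rw [e]; exact hc' h) (δ := s / (g * t) - 1) (by
        have : 0 ≤ s / (g * t) := by positivity
        linarith)
    have e1 : 1 + (s / (g * t) - 1) = s / (g * t) := by ring
    have e2 : 1 + g / (g + l) * (s / (g * t) - 1) = (s + l * t) / (t * (g + l)) := by
      field_simp
      ring
    rw [e1, e2, Real.div_rpow hs hgt.le] at hk
    have h3 := mul_le_mul_of_nonneg_left hk (Real.rpow_nonneg hgt.le (1 + κ))
    have hne : (g * t) ^ (1 + κ) ≠ 0 := (Real.rpow_pos_of_pos hgt _).ne'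
    rw [mul_div_cancel₀ _ hne] at h3
    have e3 : (g * t) ^ (1 + κ) * (1 + (1 + κ) * ((s / (g * t) - 1)
        * ((s + l * t) / (t * (g + l))) ^ κ))
        = (g * t) ^ (1 + κ) - (1 + κ) * (g / (g + l)) ^ κ * ((g * t - s) * (s + l * t) ^ κ) := by
      have e4 : (g * t) ^ (1 + κ) = (g * t) * (g * t) ^ κ := by
        rw [Real.rpow_add hgt, Real.rpow_one]
      have e5 : (g * t) ^ κ * ((s + l * t) / (t * (g + l))) ^ κ
          = (g / (g + l)) ^ κ * (s + l * t) ^ κ := by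
        rw [← Real.mul_rpow hgt.le (by positivity), ← Real.mul_rpow (by positivity) (by positivity)]
        congr 1
        field_simp
      have e6 : (g * t) ^ (1 + κ) * ((1 + κ) * ((s / (g * t) - 1)
        * ((s + l * t) / (t * (g + l))) ^ κ))
        = (1 + κ) * (s - g * t) * ((g * t) ^ κ * ((s + l * t) / (t * (g + l))) ^ κ) := by
        rw [e4]
        field_simp
      rw [mul_add, mul_one, e6, e5]
      ring
    rw [e3] at h3
    linarith
  · subst ht'
    have e1 : s ^ (1 + κ) = s * s ^ κ := by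
      rcases hs.lt_or_eq with h | h
      · rw [Real.rpow_add h, Real.rpow_one]
      · rw [← h, zero_mul, Real.zero_rpow (by linarith)]
    simp only [mul_zero, zero_sub, add_zero]
    rw [Real.zero_rpow (by linarith), e1]
    have h4 : 0 ≤ s * s ^ κ := mul_nonneg hs (Real.rpow_nonneg hs κ)
    nlinarith [mul_le_mul_of_nonneg_right hb h4]

end Pool.Agent.W772.Beu
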