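import Pool.Agent.W772.Beu5
import Pool.Agent.W772.Beu6

set_option autoImplicit false

open MeasureTheory Set Filter Topology

namespace Pool.Agent.W772.Beu

open Pool.Agent.W779.Morrey

theorem continuous_pP : Continuous pP := (contDiff_pP (n := 1)).continuous
theorem continuous_pQ : Continuous pQ := (contDiff_pQ (n := 1)).continuous

/-- the limit function -/
noncomputable def W0 (g l κ : ℝ) (F : E) : ℝ := (g * pQ F - pP F) * (pP F + l * pQ F) ^ κ

theorem Wf_tendsto (g l : ℝ) {κ : ℝ} (hκ : 0 ≤ κ) (F : E) :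
    Tendsto (fun n : ℕ => Wf g l κ (1 / ((n : ℝ) + 1)) F) atTop (𝓝 (W0 g l κ F)) := by
  unfold Wf W0
  refine Tendsto.const_mul _ ?_
  have h1 : Tendsto (fun n : ℕ => NN l (1 / ((n : ℝ) + 1)) F) atTop (𝓝 (pP F + l * pQ F + 0)) := by
    unfold NN
    exact tendsto_const_nhds.add tendsto_one_div_add_atTop_nhds_zero_nat
  rw [add_zero] at h1
  exact h1.rpow_const (Or.inr hκ)

theorem Wf_bound {g l κ : ℝ} (hl : 0 ≤ l) (hκ : 0 ≤ κ) (n : ℕ) (F : E) :
    |Wf g l κ (1 / ((n : ℝ) + 1)) F| ≤ |g * pQ F - pP F| * (NN l 1 F) ^ κ := by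
  unfold Wf
  have hn : (0:ℝ) < 1 / ((n : ℝ) + 1) := by positivity
  have hn1 : 1 / ((n : ℝ) + 1) ≤ 1 := by
    rw [div_le_one (by positivity)]
    have : (0:ℝ) ≤ n := Nat.cast_nonneg n
    linarith
  have h0 := NN_pos hl hn F
  rw [abs_mul, abs_of_nonneg (Real.rpow_nonneg h0.le κ)]
  refine mul_le_mul_of_nonneg_left (Real.rpow_le_rpow h0.le ?_ hκ) (abs_nonneg _)
  unfold NN
  linarith

theorem l_le_g {q : ℝ} (hq : 0 ≤ q) : lq q ≤ gq q := by
  unfold lq gq
  nlinarith

theorem hb_q {q : ℝ} (hq : 0 ≤ q) :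
    1 ≤ (1 + q / 2) * (gq q / (gq q + lq q)) ^ (q / 2) := by
  have hg := gq_pos hq
  have hl := lq_pos hq
  have hle := l_le_g hq
  have hκ : 0 ≤ q / 2 := by positivity
  have h1 : (gq q / (gq q + lq q)) = (1 + lq q / gq q)⁻¹ := by field_simp
  have hx : 0 ≤ lq q / gq q := by positivity
  have hx1 : lq q / gq q ≤ 1 := (div_le_one hg).2 hle
  rw [h1, Real.inv_rpow (by positivity), ← div_eq_mul_inv,
    one_le_div (Real.rpow_pos_of_pos (by positivity) _)]
  rcases le_total (q / 2) 1 with hk | hk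
  · have := rpow_one_add_le_one_add_mul_self (s := lq q / gq q) (p := q / 2) (by linarith) hκ hk
    refine this.trans ?_
    nlinarith
  · have h2 : (1 + lq q / gq q) ^ (q / 2) ≤ Real.exp (lq q / gq q * (q / 2)) := by
      rw [Real.exp_mul]
      refine Real.rpow_le_rpow (by positivity) ?_ hκ
      rw [add_comm]
      exact Real.add_one_le_exp _
    have h3 : lq q / gq q * (q / 2) ≤ 1 / 2 := by
      rw [div_mul_eq_mul_div, div_le_iff₀ hg]
      unfold lq gq
      nlinarith
    have h4 : Real.exp (1 / 2) ≤ 2 := by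
      have h5 : Real.exp (1 / 2) ^ 2 = Real.exp 1 := by
        rw [← Real.exp_nat_mul]; norm_num
      have h6 := Real.exp_one_lt_d9
      have h7 := Real.exp_pos (1 / 2)
      nlinarith
    have h8 := Real.exp_le_exp.2 h3
    linarith

theorem hc_q {q : ℝ} (hq : 0 ≤ q) :
    q / 2 ≤ 1 → (1 + q / 2) * (lq q / (gq q + lq q)) ^ (q / 2) ≤ 1 := by
  intro _
  have hg := gq_pos hq
  have hl := lq_pos hq
  have hκ : 0 ≤ q / 2 := by positivity
  have h1 : lq q / (gq q + lq q) ≤ Real.exp (-1) := by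
    have h2 := Real.exp_neg_one_gt_d9
    have h3 : lq q / (gq q + lq q) ≤ 3 / 10 := by
      rw [div_le_div_iff₀ (by positivity) (by norm_num)]
      unfold lq gq
      nlinarith
    linarith
  have h2 : (lq q / (gq q + lq q)) ^ (q / 2) ≤ Real.exp (-1) ^ (q / 2) :=
    Real.rpow_le_rpow (by positivity) h1 hκ
  rw [← Real.exp_mul, neg_one_mul] at h2
  have h3 : (1 + q / 2) * (lq q / (gq q + lq q)) ^ (q / 2) ≤ Real.exp (q / 2) * Real.exp (-(q / 2)) := by
    refine mul_le_mul ?_ h2 (Real.rpow_nonneg (by positivity) _) (Real.exp_pos _).le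
    rw [add_comm]
    exact Real.add_one_le_exp _
  rwa [← Real.exp_add, add_neg_cancel, Real.exp_zero] at h3

theorem sq_rpow {x q : ℝ} (hx : 0 ≤ x) : (x ^ 2) ^ (1 + q / 2) = x ^ (q + 2) := by
  rw [← Real.rpow_natCast, ← Real.rpow_mul hx]
  congr 1
  push_cast
  ring

theorem pointwise_q {q : ℝ} (hq : 0 ≤ q) {a b : ℝ} (ha : 0 ≤ a) (hb : 0 ≤ b) :
    (1 + q / 2) * (gq q / (gq q + lq q)) ^ (q / 2) *
        ((gq q * b ^ 2 - a ^ 2) * (a ^ 2 + lq q * b ^ 2) ^ (q / 2))
      ≤ (11 / 10 * (q + 1)) ^ (q + 2) * b ^ (q + 2) - a ^ (q + 2) := by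
  have h := pointwise (κ := q / 2) (g := gq q) (l := lq q) (by positivity) (gq_pos hq) (lq_pos hq)
    (l_le_g hq) (hb_q hq) (hc_q hq) (s := a ^ 2) (t := b ^ 2) (by positivity) (by positivity)
  have e : gq q * b ^ 2 = (11 / 10 * (q + 1) * b) ^ 2 := by unfold gq; ring
  rw [sq_rpow ha] at h
  nth_rewrite 2 [e] at h
  rw [sq_rpow (by positivity), Real.mul_rpow (by positivity) hb] at h
  exact h

/-- **The `L^p` inequality for compactly supported `C¹` maps.** -/
theorem beurling_p {q : ℝ} (hq : 0 ≤ q) (f : ℂ → ℂ) (hf : ContDiff ℝ 1 f)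
    (hc : HasCompactSupport f) :
    ∫ z, ‖dz f z‖ ^ (q + 2) ≤ (11 / 10 * (q + 1)) ^ (q + 2) * ∫ z, ‖dzbar f z‖ ^ (q + 2) := by
  set ϑ : V → V := fun x => ofC (f (toC x)) with hϑ
  have hϑd : ContDiff ℝ 1 ϑ := ofC.contDiff.comp (hf.comp toC.contDiff)
  -- compact support
  obtain ⟨R, hR⟩ := hc.isCompact.isBounded.subset_closedBall (0 : ℂ)
  have hzero : ∀ z : ℂ, R < ‖z‖ → f z = 0 := by
    intro z hz
    by_contra hne
    have h1 : z ∈ tsupport f := subset_tsupport f hne
    have h2 := hR h1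
    rw [Metric.mem_closedBall, dist_zero_right] at h2
    linarith
  have hnorm : ∀ (x : V) (i : Fin 2), |x i| ≤ ‖toC x‖ := by
    intro x i
    rw [toC_apply]
    fin_cases i
    · have := Complex.abs_re_le_norm ((x 0 : ℂ) + (x 1 : ℂ) * Complex.I)
      simpa using this
    · have := Complex.abs_im_le_norm ((x 0 : ℂ) + (x 1 : ℂ) * Complex.I)
      simpa using this
  set Ω : Set V := Metric.ball 0 (|R| + 1) with hΩ
  have hoff : ∀ x, x ∉ Ω → f (toC x) = 0 := by
    intro x hx
    refine hzero _ ?_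
    rw [hΩ, Metric.mem_ball, dist_zero_right, not_lt] at hx
    by_contra hcon
    push Not at hcon
    have h1 : ‖x‖ ≤ R := (pi_norm_le_iff_of_nonneg ((norm_nonneg _).trans hcon)).2 fun i =>
      (hnorm x i).trans hcon
    have := le_abs_self R
    linarith
  have h0 : ∀ x, x ∉ Ω → ϑ x = 0 := by
    intro x hx
    rw [hϑ]
    simp only
    rw [hoff x hx, map_zero]
  have hcs : HasCompactSupport ϑ := by
    refine HasCompactSupport.intro (K := Metric.closedBall 0 (|R| + 1)) (isCompact_closedBall _ _)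
      fun x hx => h0 x fun h => hx (Metric.ball_subset_closedBall h)
  obtain ⟨K, hK⟩ := hϑd.lipschitzWith_of_hasCompactSupport hcs (by norm_num)
  have hdc : Continuous (fun z => fderiv ℝ f z) := hf.continuous_fderiv (by norm_num)
  have hfd0 : ∀ x, x ∉ Metric.closedBall (0 : V) (|R| + 1) → fderiv ℝ f (toC x) = 0 := by
    intro x hx
    have h1 : ¬ (toC x ∈ tsupport f) := by
      intro hmem
      have h2 := hR hmem
      rw [Metric.mem_closedBall, dist_zero_right] at h2
      apply hx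
      rw [Metric.mem_closedBall, dist_zero_right]
      refine (pi_norm_le_iff_of_nonneg (by positivity)).2 fun i => ?_
      have := hnorm x i
      have h3 := le_abs_self R
      rw [Real.norm_eq_abs]
      linarith
    exact image_eq_zero_of_notMem_tsupport (fun h => h1 (tsupport_fderiv_subset ℝ h))
  have hκ : 0 ≤ q / 2 := by positivity
  have hq2 : (0:ℝ) ≤ q + 2 := by linarith
  have hl := (lq_pos hq).le
  have hgrc : Continuous (gr ϑ) := continuous_gr hϑd
  -- positivity for every regularisation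
  have hpos : ∀ n : ℕ, 0 ≤ ∫ x in Ω, Wf (gq q) (lq q) (q / 2) (1 / ((n : ℝ) + 1)) (gr ϑ x) := by
    intro n
    have hn : (0:ℝ) < 1 / ((n : ℝ) + 1) := by positivity
    have hcd : ContDiff ℝ 2 (Wf (gq q) (lq q) (q / 2) (1 / ((n : ℝ) + 1))) :=
      contDiff_Wf hl hn (n := 2)
    have hcert : QCtrig (Wf (gq q) (lq q) (q / 2) (1 / ((n : ℝ) + 1))) :=
      QCtrig_of_cert hcd (contDiff_θf hl hn) (cert_all hq hn)
    have h := qc_of_trig hcd.continuous hcert 0 Metric.isOpen_ball Metric.isBounded_ball hK h0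
    have hW0 : Wf (gq q) (lq q) (q / 2) (1 / ((n : ℝ) + 1)) 0 = 0 := by simp [Wf, pP, pQ]
    rw [hW0, zero_mul] at h
    simpa only [zero_add] using h
  have hlim : Tendsto (fun n : ℕ => ∫ x in Ω, Wf (gq q) (lq q) (q / 2) (1 / ((n : ℝ) + 1)) (gr ϑ x))
      atTop (𝓝 (∫ x in Ω, W0 (gq q) (lq q) (q / 2) (gr ϑ x))) := by
    refine tendsto_integral_of_dominated_convergence
      (fun x => |gq q * pQ (gr ϑ x) - pP (gr ϑ x)| * (NN (lq q) 1 (gr ϑ x)) ^ (q / 2))
      (fun n => ?_) ?_ (fun n => Eventually.of_forall fun x => ?_)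
      (Eventually.of_forall fun x => ?_)
    · have hn : (0:ℝ) < 1 / ((n : ℝ) + 1) := by positivity
      exact (((contDiff_Wf hl hn (n := 2)).continuous).comp hgrc).aestronglyMeasurable
    · have c1 : Continuous (fun x => |gq q * pQ (gr ϑ x) - pP (gr ϑ x)|
          * (NN (lq q) 1 (gr ϑ x)) ^ (q / 2)) := by
        refine Continuous.mul ?_ ?_
        · exact ((continuous_const.mul (continuous_pQ.comp hgrc)).sub
            (continuous_pP.comp hgrc)).abs
        · exact ((contDiff_NN (lq q) 1 (n := 1)).continuous.comp hgrc).rpow_const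
            fun x => Or.inr hκ
      exact (c1.continuousOn.integrableOn_compact (isCompact_closedBall (0 : V) (|R| + 1))).mono_set
        Metric.ball_subset_closedBall
    · rw [Real.norm_eq_abs]
      exact Wf_bound hl hκ n _
    · exact Wf_tendsto _ _ hκ _
  have hlimpos : 0 ≤ ∫ x in Ω, W0 (gq q) (lq q) (q / 2) (gr ϑ x) := ge_of_tendsto' hlim hpos
  -- rewrite everything on the plane
  have cz : Continuous (fun x : V => ‖dz f (toC x)‖ ^ (q + 2)) := by
    unfold dz
    have c1 : Continuous (fun x : V => fderiv ℝ f (toC x)) := hdc.comp toC.continuous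
    exact ((continuous_const.mul ((c1.clm_apply continuous_const).sub
      (continuous_const.mul (c1.clm_apply continuous_const)))).norm).rpow_const fun x => Or.inr hq2
  have czb : Continuous (fun x : V => ‖dzbar f (toC x)‖ ^ (q + 2)) := by
    unfold dzbar
    have c1 : Continuous (fun x : V => fderiv ℝ f (toC x)) := hdc.comp toC.continuous
    exact ((continuous_const.mul ((c1.clm_apply continuous_const).add
      (continuous_const.mul (c1.clm_apply continuous_const)))).norm).rpow_const fun x => Or.inr hq2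
  have hq20 : q + 2 ≠ 0 := by linarith
  have vz : ∀ x, x ∉ Metric.closedBall (0 : V) (|R| + 1) → ‖dz f (toC x)‖ ^ (q + 2) = 0 := by
    intro x hx
    simp [dz, hfd0 x hx, Real.zero_rpow hq20]
  have vzb : ∀ x, x ∉ Metric.closedBall (0 : V) (|R| + 1) → ‖dzbar f (toC x)‖ ^ (q + 2) = 0 := by
    intro x hx
    simp [dzbar, hfd0 x hx, Real.zero_rpow hq20]
  have sz := HasCompactSupport.intro (isCompact_closedBall (0 : V) (|R| + 1)) vz
  have szb := HasCompactSupport.intro (isCompact_closedBall (0 : V) (|R| + 1)) vzb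
  have iz := cz.integrable_of_hasCompactSupport (μ := volume) sz
  have izb := czb.integrable_of_hasCompactSupport (μ := volume) szb
  have hgr0 : ∀ᵐ x ∂(volume : Measure V), x ∉ Ω → gr ϑ x = 0 := by
    have := Pool.Agent.Helper188.Morrey.grad_off hK Metric.isOpen_ball h0
    rw [ae_restrict_iff' Metric.isOpen_ball.measurableSet.compl] at this
    filter_upwards [this] with x hx hx'
    rw [gr_eq_grad, hx hx']
    rfl
  have hfin : 0 ≤ ∫ x : V, ((11 / 10 * (q + 1)) ^ (q + 2) * ‖dzbar f (toC x)‖ ^ (q + 2)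
      - ‖dz f (toC x)‖ ^ (q + 2)) := by
    have e1 : ∫ x in Ω, ((11 / 10 * (q + 1)) ^ (q + 2) * ‖dzbar f (toC x)‖ ^ (q + 2)
        - ‖dz f (toC x)‖ ^ (q + 2))
        = ∫ x : V, ((11 / 10 * (q + 1)) ^ (q + 2) * ‖dzbar f (toC x)‖ ^ (q + 2)
        - ‖dz f (toC x)‖ ^ (q + 2)) := by
      refine setIntegral_eq_integral_of_ae_compl_eq_zero ?_
      filter_upwards [hgr0] with x hx hx'
      have h1 := hx hx'
      have h2 : ‖dz f (toC x)‖ ^ 2 = 0 := by
        rw [← pP_gr hf, ← hϑ, h1]; simp [pP]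
      have h3 : ‖dzbar f (toC x)‖ ^ 2 = 0 := by
        rw [← pQ_gr hf, ← hϑ, h1]; simp [pQ]
      have h4 : ‖dz f (toC x)‖ = 0 := by simpa using h2
      have h5 : ‖dzbar f (toC x)‖ = 0 := by simpa using h3
      rw [h4, h5, Real.zero_rpow hq20]
      ring
    rw [← e1]
    have hc0 : 0 ≤ (1 + q / 2) * (gq q / (gq q + lq q)) ^ (q / 2) := by
      have := gq_pos hq
      have := lq_pos hq
      positivity
    have h3 := mul_nonneg hc0 hlimpos
    rw [← integral_const_mul] at h3
    refine h3.trans ?_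
    have hW0c : Continuous (fun x => W0 (gq q) (lq q) (q / 2) (gr ϑ x)) := by
      unfold W0
      refine Continuous.mul ?_ ?_
      · exact (continuous_const.mul (continuous_pQ.comp hgrc)).sub (continuous_pP.comp hgrc)
      · exact ((continuous_pP.comp hgrc).add
          (continuous_const.mul (continuous_pQ.comp hgrc))).rpow_const fun x => Or.inr hκ
    refine integral_mono ?_ ?_ fun x => ?_
    · exact ((hW0c.const_mul _).continuousOn.integrableOn_compact
        (isCompact_closedBall (0 : V) (|R| + 1))).mono_set Metric.ball_subset_closedBall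
    · exact ((izb.const_mul _).sub iz).integrableOn
    · simp only [W0]
      rw [hϑ, pP_gr hf, pQ_gr hf]
      exact pointwise_q hq (norm_nonneg _) (norm_nonneg _)
  rw [integral_sub (izb.const_mul _) iz, integral_const_mul] at hfin
  rw [integral_toC (fun z => ‖dzbar f z‖ ^ (q + 2)), integral_toC (fun z => ‖dz f z‖ ^ (q + 2))]
  linarith

end Pool.Agent.W772.Beu
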