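import Pool.Agent.W779.Morrey.BeurlingNorm

set_option autoImplicit false

open MeasureTheory Set Filter Topology
open scoped SchwartzMap FourierTransform ENNReal

namespace Pool.Agent.W772.Beu

open Pool.Agent.W779.Morrey

theorem integrable_rpow {F : Type*} [NormedAddCommGroup F] {p : ℝ} (hp : 2 ≤ p) {f : ℂ → F}
    (hf : MemLp f (ENNReal.ofReal p) (volume : Measure ℂ)) : Integrable (fun z => ‖f z‖ ^ p) := by
  have hp0 : 0 < p := by linarith
  have := hf.integrable_norm_rpow (by simpa using hp0) ENNReal.ofReal_ne_top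
  rwa [ENNReal.toReal_ofReal hp0.le] at this

theorem schwartz_of_cc {p K : ℝ} (hp : 2 ≤ p)
    (hmain : ∀ f : ℂ → ℂ, ContDiff ℝ 1 f → HasCompactSupport f →
      ∫ z, ‖dz f z‖ ^ p ≤ K * ∫ z, ‖dzbar f z‖ ^ p) (u : 𝓢(ℂ, ℂ)) :
    ∫ z, ‖dz u z‖ ^ p ≤ K * ∫ z, ‖dzbar u z‖ ^ p := by
  have hp0 : 0 ≤ p := by linarith
  obtain ⟨C, hC0, hC⟩ := fderiv_cutn_bound
  set un : ℕ → ℂ → ℂ := fun n z => cutn n z • u z with hun
  have hud : ∀ z, HasFDerivAt (u : ℂ → ℂ) (fderiv ℝ u z) z := fun z => u.differentiableAt.hasFDerivAt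
  have hcd : ∀ n z, HasFDerivAt (cutn n) (fderiv ℝ (cutn n) z) z := fun n z =>
    ((contDiff_cutn n (m := 1)).differentiable (by norm_num) z).hasFDerivAt
  have hfd : ∀ n z, fderiv ℝ (un n) z
      = cutn n z • fderiv ℝ u z + (fderiv ℝ (cutn n) z).smulRight (u z) := fun n z =>
    ((hcd n z).smul (hud z)).fderiv
  have hbd : ∀ n z, ‖fderiv ℝ (un n) z‖ ≤ ‖fderiv ℝ u z‖ + C * ‖u z‖ := by
    intro n z
    rw [hfd]
    refine (norm_add_le _ _).trans (add_le_add ?_ ?_)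
    · rw [norm_smul, Real.norm_eq_abs]
      exact mul_le_of_le_one_left (norm_nonneg _) (cutn_abs_le n z)
    · rw [ContinuousLinearMap.norm_smulRight_apply]
      refine mul_le_mul_of_nonneg_right ((hC n z).trans ?_) (norm_nonneg _)
      refine div_le_self hC0 ?_
      have : (0:ℝ) ≤ n := Nat.cast_nonneg n
      linarith
  have hlimd : ∀ z, Tendsto (fun n => fderiv ℝ (un n) z) atTop (𝓝 (fderiv ℝ u z)) := by
    intro z
    simp only [hfd]
    have h1 : Tendsto (fun n => cutn n z • fderiv ℝ u z) atTop (𝓝 (fderiv ℝ u z)) := by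
      refine tendsto_const_nhds.congr' ?_
      filter_upwards [cutn_tendsto z] with n hn
      rw [hn, one_smul]
    have h2 : Tendsto (fun n => (fderiv ℝ (cutn n) z).smulRight (u z)) atTop (𝓝 0) := by
      rw [tendsto_zero_iff_norm_tendsto_zero]
      refine squeeze_zero (fun n => norm_nonneg _) (g := fun n : ℕ => C / ((n : ℝ) + 1) * ‖u z‖)
        (fun n => ?_) ?_
      · rw [ContinuousLinearMap.norm_smulRight_apply]
        exact mul_le_mul_of_nonneg_right (hC n z) (norm_nonneg _)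
      · have : Tendsto (fun n : ℕ => C / ((n : ℝ) + 1)) atTop (𝓝 0) :=
          tendsto_const_nhds.div_atTop
            (tendsto_atTop_add_const_right _ _ tendsto_natCast_atTop_atTop)
        simpa using this.mul_const ‖u z‖
    simpa using h1.add h2
  have hl : ∀ z v, Tendsto (fun n => fderiv ℝ (un n) z v) atTop (𝓝 (fderiv ℝ u z v)) :=
    fun z v => ((ContinuousLinearMap.apply ℝ ℂ v).continuous.tendsto _).comp (hlimd z)
  have hund : ∀ n, ContDiff ℝ 1 (un n) := fun n => (contDiff_cutn n (m := 1)).smul (u.smooth 1)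
  have hunc : ∀ n, HasCompactSupport (un n) := fun n => (cutn_support n).smul_right
  have hbint : Integrable (fun z => (‖fderiv ℝ u z‖ + C * ‖u z‖) ^ p) := by
    have m1 : MemLp (fun z => ‖fderiv ℝ u z‖) (ENNReal.ofReal p) (volume : Measure ℂ) :=
      ((SchwartzMap.fderivCLM ℝ ℂ ℂ u).memLp (ENNReal.ofReal p) volume).norm
    have m2 : MemLp (fun z => C * ‖u z‖) (ENNReal.ofReal p) (volume : Measure ℂ) :=
      ((u.memLp (ENNReal.ofReal p) volume).norm).const_mul C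
    have m3 := integrable_rpow hp (m1.add m2)
    refine m3.congr (Eventually.of_forall fun z => ?_)
    simp only [Pi.add_apply, Real.norm_eq_abs]
    rw [abs_of_nonneg (by positivity)]
  have hL : Tendsto (fun n => ∫ z, ‖dz (un n) z‖ ^ p) atTop (𝓝 (∫ z, ‖dz u z‖ ^ p)) := by
    refine tendsto_integral_of_dominated_convergence (fun z => (‖fderiv ℝ u z‖ + C * ‖u z‖) ^ p)
      (fun n => ?_) hbint (fun n => Eventually.of_forall fun z => ?_)
      (Eventually.of_forall fun z => ?_)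
    · have c1 := (hund n).continuous_fderiv (by norm_num)
      have : Continuous (fun z => ‖dz (un n) z‖ ^ p) := by
        unfold dz
        exact ((continuous_const.mul ((c1.clm_apply continuous_const).sub
          (continuous_const.mul (c1.clm_apply continuous_const)))).norm).rpow_const
            fun _ => Or.inr hp0
      exact this.aestronglyMeasurable
    · rw [Real.norm_eq_abs, abs_of_nonneg (Real.rpow_nonneg (norm_nonneg _) _)]
      exact Real.rpow_le_rpow (norm_nonneg _) ((norm_dz_le _ _).trans (hbd n z)) hp0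
    · refine (Tendsto.norm ?_).rpow_const (Or.inr hp0)
      unfold dz
      exact ((hl z 1).sub ((hl z Complex.I).const_mul _)).const_mul _
  have hR : Tendsto (fun n => ∫ z, ‖dzbar (un n) z‖ ^ p) atTop (𝓝 (∫ z, ‖dzbar u z‖ ^ p)) := by
    refine tendsto_integral_of_dominated_convergence (fun z => (‖fderiv ℝ u z‖ + C * ‖u z‖) ^ p)
      (fun n => ?_) hbint (fun n => Eventually.of_forall fun z => ?_)
      (Eventually.of_forall fun z => ?_)
    · have c1 := (hund n).continuous_fderiv (by norm_num)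
      have : Continuous (fun z => ‖dzbar (un n) z‖ ^ p) := by
        unfold dzbar
        exact ((continuous_const.mul ((c1.clm_apply continuous_const).add
          (continuous_const.mul (c1.clm_apply continuous_const)))).norm).rpow_const
            fun _ => Or.inr hp0
      exact this.aestronglyMeasurable
    · rw [Real.norm_eq_abs, abs_of_nonneg (Real.rpow_nonneg (norm_nonneg _) _)]
      exact Real.rpow_le_rpow (norm_nonneg _) ((norm_dzbar_le _ _).trans (hbd n z)) hp0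
    · refine (Tendsto.norm ?_).rpow_const (Or.inr hp0)
      unfold dzbar
      exact ((hl z 1).add ((hl z Complex.I).const_mul _)).const_mul _
  exact le_of_tendsto_of_tendsto' hL (hR.const_mul K) fun n =>
    hmain (un n) (hund n) (hunc n)

theorem eLpNorm_p {p : ℝ} (hp : 2 ≤ p) (u : 𝓢(ℂ, ℂ)) :
    eLpNorm u (ENNReal.ofReal p) (volume : Measure ℂ)
      = ENNReal.ofReal ((∫ z, ‖u z‖ ^ p) ^ (1 / p)) := by
  have hp0 : 0 < p := by linarith
  rw [(u.memLp (ENNReal.ofReal p) volume).eLpNorm_eq_integral_rpow_norm (by simpa using hp0)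
    ENNReal.ofReal_ne_top, ENNReal.toReal_ofReal hp0.le, one_div]

variable (g : 𝓢(ℂ, ℂ))

theorem ineq_eLp_p {p K : ℝ} (hp : 2 ≤ p) (hK : 0 ≤ K)
    (hmain : ∀ f : ℂ → ℂ, ContDiff ℝ 1 f → HasCompactSupport f →
      ∫ z, ‖dz f z‖ ^ p ≤ K * ∫ z, ‖dzbar f z‖ ^ p) (n : ℕ) :
    eLpNorm (𝓕⁻ (S1 g n) : 𝓢(ℂ, ℂ)) (ENNReal.ofReal p) (volume : Measure ℂ)
      ≤ ENNReal.ofReal (K ^ (1 / p)) *
        eLpNorm (𝓕⁻ (S2 g n) : 𝓢(ℂ, ℂ)) (ENNReal.ofReal p) (volume : Measure ℂ) := by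
  have hp0 : 0 < p := by linarith
  have h := schwartz_of_cc hp hmain (𝓕⁻ (Hs g n) : 𝓢(ℂ, ℂ))
  simp only [dz_pot, dzbar_pot] at h
  have i1 : ∀ u : 𝓢(ℂ, ℂ), 0 ≤ ∫ z, ‖u z‖ ^ p := fun u =>
    integral_nonneg fun z => Real.rpow_nonneg (norm_nonneg _) _
  rw [eLpNorm_p hp, eLpNorm_p hp, ← ENNReal.ofReal_mul (Real.rpow_nonneg hK _),
    ← Real.mul_rpow hK (i1 _)]
  exact ENNReal.ofReal_le_ofReal (Real.rpow_le_rpow (i1 _) h (by positivity))

theorem Lp_bound {p : ℝ} (hp : 2 ≤ p) (u : 𝓢(ℂ, ℂ)) :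
    ∫ z, ‖(𝓕⁻ u : 𝓢(ℂ, ℂ)) z‖ ^ p ≤ (∫ ξ, ‖u ξ‖) ^ (p - 2) * ∫ ξ, ‖u ξ‖ ^ 2 := by
  rw [← L2_eq u, ← integral_const_mul]
  refine integral_mono ?_ ?_ fun z => ?_
  · exact integrable_rpow hp ((𝓕⁻ u : 𝓢(ℂ, ℂ)).memLp (ENNReal.ofReal p) volume)
  · exact (((𝓕⁻ u : 𝓢(ℂ, ℂ)).memLp 2 volume).integrable_norm_pow (by norm_num)).const_mul _
  · simp only
    have h := sup_bound u z
    have e : ‖(𝓕⁻ u : 𝓢(ℂ, ℂ)) z‖ ^ p
        = ‖(𝓕⁻ u : 𝓢(ℂ, ℂ)) z‖ ^ (p - 2) * ‖(𝓕⁻ u : 𝓢(ℂ, ℂ)) z‖ ^ 2 := by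
      rw [← Real.rpow_natCast _ 2, ← Real.rpow_add_of_nonneg (norm_nonneg _) (by linarith)
        (by norm_num)]
      congr 1
      push_cast
      ring
    rw [e]
    exact mul_le_mul_of_nonneg_right (Real.rpow_le_rpow (norm_nonneg _) h (by linarith))
      (by positivity)

theorem rem_tendsto_p {p : ℝ} (hp : 2 ≤ p) :
    Tendsto (fun n => eLpNorm (𝓕⁻ (Rs g n) : 𝓢(ℂ, ℂ)) (ENNReal.ofReal p) (volume : Measure ℂ))
      atTop (𝓝 0) := by
  have hp0 : 0 < p := by linarith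
  simp only [eLpNorm_p hp]
  have h1 : Tendsto (fun n => (∫ ξ, ‖Rs g n ξ‖) ^ (p - 2) * ∫ ξ, ‖Rs g n ξ‖ ^ 2) atTop (𝓝 0) := by
    have := ((Rs_int_one g).rpow_const (p := p - 2) (Or.inr (by linarith))).mul (Rs_int_two g)
    simpa using this
  have h2 : Tendsto (fun n => ∫ z, ‖(𝓕⁻ (Rs g n) : 𝓢(ℂ, ℂ)) z‖ ^ p) atTop (𝓝 0) :=
    squeeze_zero (fun n => integral_nonneg fun z => Real.rpow_nonneg (norm_nonneg _) _)
      (fun n => Lp_bound hp (Rs g n)) h1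
  have h3 := h2.rpow_const (p := 1 / p) (Or.inr (by positivity))
  rw [Real.zero_rpow (by positivity)] at h3
  have h4 := ENNReal.tendsto_ofReal h3
  simpa using h4

/-- **The Beurling transform on `L^p`.** -/
theorem beurling_norm_p {p K : ℝ} (hp : 2 ≤ p) (hK : 0 ≤ K)
    (hmain : ∀ f : ℂ → ℂ, ContDiff ℝ 1 f → HasCompactSupport f →
      ∫ z, ‖dz f z‖ ^ p ≤ K * ∫ z, ‖dzbar f z‖ ^ p) (f : 𝓢(ℂ, ℂ)) :
    eLpNorm (fun z => 𝓕⁻ (fun ξ : ℂ => starRingEnd ℂ ξ / ξ * 𝓕 (f : ℂ → ℂ) ξ) z)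
        (ENNReal.ofReal p) (volume : Measure ℂ)
      ≤ ENNReal.ofReal (K ^ (1 / p)) * eLpNorm f (ENNReal.ofReal p) (volume : Measure ℂ) := by
  have hp0 : 0 < p := by linarith
  have hp1 : 1 ≤ ENNReal.ofReal p := by
    rw [ENNReal.one_le_ofReal]; linarith
  set g : 𝓢(ℂ, ℂ) := 𝓕 f with hg
  have hgf : (𝓕⁻ g : 𝓢(ℂ, ℂ)) = f := by rw [hg, FourierTransform.fourierInv_fourier_eq]
  have e0 : ∀ ξ, 𝓕 (f : ℂ → ℂ) ξ = g ξ := fun ξ => by rw [hg, SchwartzMap.fourier_coe]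
  simp only [e0]
  have hB : ∀ n, eLpNorm (𝓕⁻ (S2 g n) : 𝓢(ℂ, ℂ)) (ENNReal.ofReal p) (volume : Measure ℂ)
      ≤ eLpNorm f (ENNReal.ofReal p) (volume : Measure ℂ)
        + eLpNorm (𝓕⁻ (Rs g n) : 𝓢(ℂ, ℂ)) (ENNReal.ofReal p) (volume : Measure ℂ) := by
    intro n
    have e1 : S2 g n = g + Rs g n := by unfold Rs; abel
    have e2 : ((𝓕⁻ (S2 g n) : 𝓢(ℂ, ℂ)) : ℂ → ℂ)
        = (f : ℂ → ℂ) + ((𝓕⁻ (Rs g n) : 𝓢(ℂ, ℂ)) : ℂ → ℂ) := by
      rw [e1, FourierTransform.fourierInv_add, hgf]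
      rfl
    rw [e2]
    exact eLpNorm_add_le f.continuous.aestronglyMeasurable
      (𝓕⁻ (Rs g n) : 𝓢(ℂ, ℂ)).continuous.aestronglyMeasurable hp1
  have hA : ∀ n, eLpNorm (𝓕⁻ (S1 g n) : 𝓢(ℂ, ℂ)) (ENNReal.ofReal p) (volume : Measure ℂ)
      ≤ ENNReal.ofReal (K ^ (1 / p)) * (eLpNorm f (ENNReal.ofReal p) (volume : Measure ℂ)
        + eLpNorm (𝓕⁻ (Rs g n) : 𝓢(ℂ, ℂ)) (ENNReal.ofReal p) (volume : Measure ℂ)) := fun n =>
    (ineq_eLp_p g hp hK hmain n).trans (mul_le_mul_right (hB n) _)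
  refine (Lp.eLpNorm_lim_le_liminf_eLpNorm
    (f := fun n => ((𝓕⁻ (S1 g n) : 𝓢(ℂ, ℂ)) : ℂ → ℂ))
    (fun n => (𝓕⁻ (S1 g n) : 𝓢(ℂ, ℂ)).continuous.aestronglyMeasurable) _
    (Eventually.of_forall fun z => S1_pointwise g z)).trans ?_
  have hlim : Tendsto (fun n => ENNReal.ofReal (K ^ (1 / p)) *
      (eLpNorm f (ENNReal.ofReal p) (volume : Measure ℂ)
        + eLpNorm (𝓕⁻ (Rs g n) : 𝓢(ℂ, ℂ)) (ENNReal.ofReal p) (volume : Measure ℂ))) atTop
      (𝓝 (ENNReal.ofReal (K ^ (1 / p)) *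
        (eLpNorm f (ENNReal.ofReal p) (volume : Measure ℂ) + 0))) :=
    ENNReal.Tendsto.const_mul (tendsto_const_nhds.add (rem_tendsto_p g hp))
      (Or.inr ENNReal.ofReal_ne_top)
  rw [add_zero] at hlim
  rw [← hlim.liminf_eq]
  exact liminf_le_liminf (Eventually.of_forall hA)

end Pool.Agent.W772.Beu
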