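import Mathlib

set_option autoImplicit false

/-! Sums of indicators of sets organised in a tree of slabs. -/

open MeasureTheory Set ENNReal

namespace Pool.Agent.W772.Fol

variable {α ι κ : Type} [MeasurableSpace α] [Fintype ι] [DecidableEq κ]

/-- The children of the group `c` of level `l`. -/
def ch (cls : ℕ → ι → κ) (l : ℕ) (c : κ) : Finset κ :=
  (Finset.univ.filter (fun i => cls l i = c)).image (cls (l + 1))

/-- The sum of the indicators of the sets of one group. -/
noncomputable def fs (T : ι → Set α) (cls : ℕ → ι → κ) (l : ℕ) (c : κ) (y : α) : ℝ≥0∞ :=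
  ∑ i ∈ Finset.univ.filter (fun i => cls l i = c), (T i).indicator (fun _ => 1) y

theorem fs_meas {T : ι → Set α} (hT : ∀ i, MeasurableSet (T i)) (cls : ℕ → ι → κ) (l : ℕ) (c : κ) :
    Measurable (fs T cls l c) :=
  Finset.measurable_fun_sum _ fun i _ => measurable_const.indicator (hT i)

theorem sum_ch {M : Type} [AddCommMonoid M] (cls : ℕ → ι → κ) {l : ℕ}
    (hn : ∀ i i', cls (l + 1) i = cls (l + 1) i' → cls l i = cls l i') (c : κ) (F : ι → M) :
    ∑ c' ∈ ch cls l c, ∑ i ∈ Finset.univ.filter (fun i => cls (l + 1) i = c'), F i =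
      ∑ i ∈ Finset.univ.filter (fun i => cls l i = c), F i := by
  classical
  have h : ∀ c' ∈ ch cls l c, Finset.univ.filter (fun i => cls (l + 1) i = c') =
      (Finset.univ.filter (fun i => cls l i = c)).filter (fun i => cls (l + 1) i = c') := by
    intro c' hc'
    obtain ⟨i₀, hi₀, rfl⟩ := Finset.mem_image.1 hc'
    ext i
    simp only [Finset.mem_filter, Finset.mem_univ, true_and]
    constructor
    · intro h
      exact ⟨(hn i i₀ h).trans (Finset.mem_filter.1 hi₀).2, h⟩
    · exact fun h => h.2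
  rw [Finset.sum_congr rfl (fun c' hc' => by rw [h c' hc'])]
  exact Finset.sum_fiberwise_of_maps_to (fun i hi => Finset.mem_image_of_mem _ hi) F

/-- **The tree lemma.** -/
theorem tree (μ : Measure α) {T : ι → Set α} (hT : ∀ i, MeasurableSet (T i)) (cls : ℕ → ι → κ)
    (D : ℕ) (hn : ∀ l < D, ∀ i i', cls (l + 1) i = cls (l + 1) i' → cls l i = cls l i')
    (hinj : ∀ i i', cls D i = cls D i' → i = i')
    {P : ℕ → κ → Set α} (hP : ∀ l c, MeasurableSet (P l c))
    (hTP : ∀ l < D, ∀ i, T i ⊆ P (l + 1) (cls (l + 1) i))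
    {Λ : ℝ≥0∞} (hΛ : ∀ l < D, ∀ i, ∑ c' ∈ ch cls l (cls l i), μ (T i ∩ P (l + 1) c') ≤ Λ) :
    ∀ (e l : ℕ), l + (e + 1) = D → ∀ c : κ,
      ∫⁻ y, fs T cls l c y ^ (1 + 1 / ((e : ℝ) + 1)) ∂μ ≤
        Λ * (Finset.univ.filter (fun i => cls l i = c)).card := by
  classical
  -- the product with the number of slabs
  have hprod : ∀ l < D, ∀ c, ∫⁻ y, fs T cls l c y * ∑ c' ∈ ch cls l c, (P (l + 1) c').indicator (fun _ => 1) y ∂μ ≤
      Λ * (Finset.univ.filter (fun i => cls l i = c)).card := by
    intro l hl c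
    have e1 : ∀ y, fs T cls l c y * ∑ c' ∈ ch cls l c, (P (l + 1) c').indicator (fun _ => (1 : ℝ≥0∞)) y =
        ∑ i ∈ Finset.univ.filter (fun i => cls l i = c), ∑ c' ∈ ch cls l c,
          (T i ∩ P (l + 1) c').indicator (fun _ => (1 : ℝ≥0∞)) y := by
      intro y
      unfold fs
      rw [Finset.sum_mul_sum]
      refine Finset.sum_congr rfl fun i _ => Finset.sum_congr rfl fun c' _ => ?_
      by_cases h1 : y ∈ T i
      · by_cases h2 : y ∈ P (l + 1) c'
        · have h3 : y ∈ T i ∩ P (l + 1) c' := ⟨h1, h2⟩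
          rw [indicator_of_mem h1, indicator_of_mem h2, indicator_of_mem h3, one_mul]
        · have h3 : y ∉ T i ∩ P (l + 1) c' := fun h => h2 (mem_of_mem_inter_right h)
          rw [indicator_of_notMem h2, indicator_of_notMem h3, mul_zero]
      · have h3 : y ∉ T i ∩ P (l + 1) c' := fun h => h1 (mem_of_mem_inter_left h)
        rw [indicator_of_notMem h1, indicator_of_notMem h3, zero_mul]
    simp only [e1]
    rw [lintegral_finsetSum _ (fun i _ => Finset.measurable_fun_sum _ fun c' _ =>
      measurable_const.indicator ((hT i).inter (hP _ _)))]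
    calc ∑ i ∈ Finset.univ.filter (fun i => cls l i = c), ∫⁻ y, ∑ c' ∈ ch cls l c,
            (T i ∩ P (l + 1) c').indicator (fun _ => (1 : ℝ≥0∞)) y ∂μ
        ≤ ∑ _i ∈ Finset.univ.filter (fun i => cls l i = c), Λ := by
          refine Finset.sum_le_sum fun i hi => ?_
          rw [lintegral_finsetSum _ (fun c' _ => measurable_const.indicator ((hT i).inter (hP _ _)))]
          have hic : cls l i = c := (Finset.mem_filter.1 hi).2
          rw [← hic]
          refine le_trans (le_of_eq ?_) (hΛ l hl i)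
          refine Finset.sum_congr rfl fun c' _ => ?_
          rw [lintegral_indicator_const ((hT i).inter (hP _ _)), one_mul]
      _ = _ := by rw [Finset.sum_const, nsmul_eq_mul, mul_comm]
  -- membership in the slabs
  have hsupp : ∀ l < D, ∀ c' y, y ∉ P (l + 1) c' → fs T cls (l + 1) c' y = 0 := by
    intro l hl c' y hy
    unfold fs
    apply Finset.sum_eq_zero
    intro i hi
    have hic : cls (l + 1) i = c' := (Finset.mem_filter.1 hi).2
    refine indicator_of_notMem (fun h => hy ?_) _
    rw [← hic]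
    exact hTP l hl i h
  have hsplit : ∀ l < D, ∀ c y, fs T cls l c y =
      ∑ c' ∈ ch cls l c, (P (l + 1) c').indicator (fun _ => (1 : ℝ≥0∞)) y * fs T cls (l + 1) c' y := by
    intro l hl c y
    have h1 : fs T cls l c y = ∑ c' ∈ ch cls l c, fs T cls (l + 1) c' y := by
      unfold fs
      exact (sum_ch cls (hn l hl) c _).symm
    rw [h1]
    refine Finset.sum_congr rfl fun c' _ => ?_
    by_cases h : y ∈ P (l + 1) c'
    · rw [indicator_of_mem h, one_mul]
    · rw [hsupp l hl c' y h, mul_zero]
  intro e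
  induction e with
  | zero =>
    intro l hl c
    have hlD : l < D := by omega
    refine le_trans (lintegral_mono fun y => ?_) (hprod l hlD c)
    have h2 : (1 : ℝ) + 1 / (((0 : ℕ) : ℝ) + 1) = 2 := by norm_num
    rw [h2, ENNReal.rpow_two, sq]
    refine mul_le_mul' le_rfl ?_
    rw [hsplit l hlD c y]
    refine Finset.sum_le_sum fun c' _ => ?_
    have h3 : fs T cls (l + 1) c' y ≤ 1 := by
      have hl1 : l + 1 = D := by omega
      unfold fs
      by_cases hex : ∃ i, cls (l + 1) i = c'
      · obtain ⟨i, hi⟩ := hex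
        have h4 : Finset.univ.filter (fun i => cls (l + 1) i = c') = {i} := by
          ext j
          simp only [Finset.mem_filter, Finset.mem_univ, true_and, Finset.mem_singleton]
          constructor
          · intro h
            apply hinj
            rw [← hl1, h, hi]
          · rintro rfl
            exact hi
        rw [h4, Finset.sum_singleton]
        exact indicator_le_self' (fun _ _ => zero_le) y
      · have h4 : Finset.univ.filter (fun i => cls (l + 1) i = c') = ∅ := by
          ext j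
          simp only [Finset.mem_filter, Finset.mem_univ, true_and, Finset.notMem_empty, iff_false]
          exact fun h => hex ⟨j, h⟩
        rw [h4, Finset.sum_empty]
        exact zero_le
    calc (P (l + 1) c').indicator (fun _ => (1 : ℝ≥0∞)) y * fs T cls (l + 1) c' y
        ≤ (P (l + 1) c').indicator (fun _ => (1 : ℝ≥0∞)) y * 1 := mul_le_mul' le_rfl h3
      _ = _ := mul_one _
  | succ e ih =>
    intro l hl c
    have hlD : l < D := by omega
    have hl' : l + 1 + (e + 1) = D := by omega
    set p : ℝ := 1 + 1 / ((e : ℝ) + 1) with hp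
    have he0 : (0 : ℝ) < (e : ℝ) + 1 := by positivity
    have he1 : (0 : ℝ) < (e : ℝ) + 2 := by positivity
    have hp1 : 1 ≤ p := by
      have : 0 < 1 / ((e : ℝ) + 1) := by positivity
      linarith
    have hpinv : p⁻¹ = ((e : ℝ) + 1) / ((e : ℝ) + 2) := by
      rw [hp]
      field_simp
      ring
    have hpinv' : 1 - p⁻¹ = 1 / ((e : ℝ) + 2) := by
      rw [hpinv]
      field_simp
      ring
    have hcast : (1 : ℝ) + 1 / (((e + 1 : ℕ) : ℝ) + 1) = 1 + 1 / ((e : ℝ) + 2) := by
      push_cast
      ring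
    rw [hcast]
    set n : α → ℝ≥0∞ := fun y => ∑ c' ∈ ch cls l c, (P (l + 1) c').indicator (fun _ => (1 : ℝ≥0∞)) y with hnd
    set B : α → ℝ≥0∞ := fun y => ∑ c' ∈ ch cls l c, fs T cls (l + 1) c' y ^ p with hB
    have hBm : Measurable B := Finset.measurable_fun_sum _ fun c' _ => (fs_meas hT cls _ _).pow_const p
    have hnm : Measurable n := Finset.measurable_fun_sum _ fun c' _ => measurable_const.indicator (hP _ _)
    have hFm := fs_meas hT cls l c
    have hpt : ∀ y, fs T cls l c y ^ (1 + 1 / ((e : ℝ) + 2)) ≤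
        (fs T cls l c y * n y) ^ (1 / ((e : ℝ) + 2)) * B y ^ (((e : ℝ) + 1) / ((e : ℝ) + 2)) := by
      intro y
      have h1 : fs T cls l c y ≤ n y ^ (1 / ((e : ℝ) + 2)) * B y ^ (((e : ℝ) + 1) / ((e : ℝ) + 2)) := by
        have h := ENNReal.inner_le_weight_mul_Lp_of_nonneg (ch cls l c) hp1
          (fun c' => (P (l + 1) c').indicator (fun _ => (1 : ℝ≥0∞)) y) (fun c' => fs T cls (l + 1) c' y)
        rw [← hsplit l hlD c y, hpinv', hpinv] at h
        refine h.trans (mul_le_mul' le_rfl (ENNReal.rpow_le_rpow ?_ (by positivity)))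
        refine Finset.sum_le_sum fun c' _ => ?_
        calc (P (l + 1) c').indicator (fun _ => (1 : ℝ≥0∞)) y * fs T cls (l + 1) c' y ^ p
            ≤ 1 * fs T cls (l + 1) c' y ^ p := by
              refine mul_le_mul' ?_ le_rfl
              exact indicator_le_self' (fun _ _ => zero_le) y
          _ = _ := one_mul _
      rw [ENNReal.rpow_add_of_nonneg _ _ zero_le_one (by positivity), ENNReal.rpow_one,
        ENNReal.mul_rpow_of_nonneg _ _ (by positivity)]
      calc fs T cls l c y * fs T cls l c y ^ (1 / ((e : ℝ) + 2))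
          ≤ (n y ^ (1 / ((e : ℝ) + 2)) * B y ^ (((e : ℝ) + 1) / ((e : ℝ) + 2))) *
              fs T cls l c y ^ (1 / ((e : ℝ) + 2)) := mul_le_mul' h1 le_rfl
        _ = _ := by ring
    set V : ℝ≥0∞ := Λ * (Finset.univ.filter (fun i => cls l i = c)).card with hV
    have hBi : ∫⁻ y, B y ∂μ ≤ V := by
      rw [hB, lintegral_finsetSum _ (fun c' _ => (fs_meas hT cls _ _).pow_const p)]
      calc ∑ c' ∈ ch cls l c, ∫⁻ y, fs T cls (l + 1) c' y ^ p ∂μ
          ≤ ∑ c' ∈ ch cls l c, Λ * (Finset.univ.filter (fun i => cls (l + 1) i = c')).card :=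
            Finset.sum_le_sum fun c' _ => ih (l + 1) hl' c'
        _ = V := by
            rw [← Finset.mul_sum, hV]
            congr 1
            have h1 := sum_ch cls (hn l hlD) c (fun _ => (1 : ℝ≥0∞))
            simp only [Finset.sum_const, nsmul_eq_mul, mul_one] at h1
            exact h1
    calc ∫⁻ y, fs T cls l c y ^ (1 + 1 / ((e : ℝ) + 2)) ∂μ
        ≤ ∫⁻ y, (fs T cls l c y * n y) ^ (1 / ((e : ℝ) + 2)) * B y ^ (((e : ℝ) + 1) / ((e : ℝ) + 2)) ∂μ :=
          lintegral_mono hpt
      _ ≤ (∫⁻ y, fs T cls l c y * n y ∂μ) ^ (1 / ((e : ℝ) + 2)) *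
            (∫⁻ y, B y ∂μ) ^ (((e : ℝ) + 1) / ((e : ℝ) + 2)) :=
          ENNReal.lintegral_mul_norm_pow_le (hFm.mul hnm).aemeasurable hBm.aemeasurable (by positivity)
            (by positivity) (by field_simp; ring)
      _ ≤ V ^ (1 / ((e : ℝ) + 2)) * V ^ (((e : ℝ) + 1) / ((e : ℝ) + 2)) :=
          mul_le_mul' (ENNReal.rpow_le_rpow (hprod l hlD c) (by positivity))
            (ENNReal.rpow_le_rpow hBi (by positivity))
      _ = V := by
          rw [← ENNReal.rpow_add_of_nonneg _ _ (by positivity) (by positivity)]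
          have : 1 / ((e : ℝ) + 2) + ((e : ℝ) + 1) / ((e : ℝ) + 2) = 1 := by
            field_simp
            ring
          rw [this, ENNReal.rpow_one]

end Pool.Agent.W772.Fol
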