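import Pool.Agent.W772.Fol1

set_option autoImplicit false

/-! Tubes and slabs in Euclidean space. -/

open MeasureTheory Set ENNReal

namespace Pool.Agent.W772.Fol

/-- Euclidean space `ℝ^(m+1)`. -/
abbrev Eu (m : ℕ) : Type := EuclideanSpace ℝ (Fin (m + 1))

/-- The tube of length `1` and radius `δ` with centre `a` and direction `e`. -/
def tube {m : ℕ} (δ : ℝ) (e a : Eu m) : Set (Eu m) :=
  {y | |inner ℝ (y - a) e| ≤ 1 / 2 ∧ ‖(y - a) - (inner ℝ (y - a) e : ℝ) • e‖ ≤ δ}

/-- The slab of half-width `ρ` about the hyperplane with normal `ν` and offset `s`. -/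
def slab {m : ℕ} (ρ : ℝ) (ν : Eu m) (s : ℝ) : Set (Eu m) := {y | |inner ℝ y ν - s| ≤ ρ}

theorem tube_closed {m : ℕ} (δ : ℝ) (e a : Eu m) : IsClosed (tube δ e a) := by
  have h1 : IsClosed {y : Eu m | |inner ℝ (y - a) e| ≤ 1 / 2} := isClosed_le (by fun_prop) continuous_const
  have h2 : IsClosed {y : Eu m | ‖(y - a) - (inner ℝ (y - a) e : ℝ) • e‖ ≤ δ} :=
    isClosed_le (by fun_prop) continuous_const
  exact h1.inter h2

theorem slab_closed {m : ℕ} (ρ : ℝ) (ν : Eu m) (s : ℝ) : IsClosed (slab ρ ν s) :=
  isClosed_le (by fun_prop) continuous_const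

/-- The length of the admissible heights. -/
theorem len_le {c β ρ : ℝ} (hβ : β ≠ 0) :
    volume {τ : ℝ | |c + τ * β| ≤ ρ} ≤ ENNReal.ofReal (2 * ρ / |β|) := by
  have hb : 0 < |β| := abs_pos.2 hβ
  have : {τ : ℝ | |c + τ * β| ≤ ρ} ⊆ Icc (-c / β - ρ / |β|) (-c / β + ρ / |β|) := by
    intro τ hτ
    have h1 : |(τ - -c / β)| * |β| ≤ ρ := by
      rw [← abs_mul]
      have e : (τ - -c / β) * β = c + τ * β := by field_simp; ring
      rw [e]
      exact hτ
    rw [← le_div_iff₀ hb, abs_le] at h1
    constructor <;> linarith [h1.1, h1.2]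
  refine (measure_mono this).trans ?_
  rw [Real.volume_Icc]
  apply ENNReal.ofReal_le_ofReal
  apply le_of_eq
  ring

/-- The volume of the intersection of a tube and a slab. -/
theorem vol_inter {m : ℕ} {δ ρ : ℝ} (hδ : 0 < δ) (hρ : 0 ≤ ρ) {e a ν : Eu m} (he : ‖e‖ = 1) (hν : ‖ν‖ = 1)
    (s : ℝ) :
    volume (tube δ e a ∩ slab ρ ν s) ≤
      ENNReal.ofReal ((2 * δ) ^ m * (2 * (ρ + δ) / max |inner ℝ e ν| δ)) := by
  classical
  set β : ℝ := inner ℝ e ν with hβ
  set c : ℝ := inner ℝ a ν - s with hc
  -- an orthonormal basis starting with the direction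
  have hfr : Module.finrank ℝ (Eu m) = Fintype.card (Fin (m + 1)) := by simp
  have hon : Orthonormal ℝ (({0} : Set (Fin (m + 1))).domRestrict (fun _ => e)) := by
    constructor
    · intro i
      exact he
    · intro i j hij
      exact absurd (Subtype.ext (i.2.trans j.2.symm)) hij
  obtain ⟨b, hb⟩ := hon.exists_orthonormalBasis_extension_of_card_eq hfr
  have hb0 : b 0 = e := hb 0 rfl
  have hmp : MeasurePreserving (fun y : Eu m => WithLp.ofLp (b.repr y)) volume volume :=
    (PiLp.volume_preserving_ofLp (Fin (m + 1))).comp b.measurePreserving_repr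
  set α : Fin (m + 1) → ℝ := fun k => inner ℝ (b k) a with hα
  set J : Set ℝ := {z | |z - α 0| ≤ 1 / 2 ∧ |c + (z - α 0) * β| ≤ ρ + δ} with hJ
  set Bx : Set (Fin (m + 1) → ℝ) := Set.pi univ (Fin.cons J (fun k : Fin m => Icc (α k.succ - δ) (α k.succ + δ)))
    with hBx
  have hsub : tube δ e a ∩ slab ρ ν s ⊆ (fun y : Eu m => WithLp.ofLp (b.repr y)) ⁻¹' Bx := by
    rintro y ⟨⟨h1, h2⟩, h3⟩
    have hrep : ∀ k, WithLp.ofLp (b.repr y) k = inner ℝ (b k) y := fun k => b.repr_apply_apply y k
    set τ : ℝ := inner ℝ (y - a) e with hτ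
    set w : Eu m := (y - a) - τ • e with hw
    have hya : y - a = τ • e + w := by rw [hw]; abel
    rw [mem_preimage, hBx]
    intro k _
    rw [hrep]
    refine Fin.cases ?_ (fun k => ?_) k
    · rw [Fin.cons_zero]
      have e1 : (inner ℝ (b 0) y : ℝ) - α 0 = τ := by
        rw [hα]
        simp only
        rw [← inner_sub_right, hb0, hτ, real_inner_comm]
      show |(inner ℝ (b 0) y : ℝ) - α 0| ≤ 1 / 2 ∧ |c + ((inner ℝ (b 0) y : ℝ) - α 0) * β| ≤ ρ + δ
      rw [e1]
      refine ⟨h1, ?_⟩
      have e2 : (inner ℝ y ν : ℝ) - s = (c + τ * β) + inner ℝ w ν := by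
        have e3 : (inner ℝ y ν : ℝ) = inner ℝ a ν + inner ℝ (y - a) ν := by
          rw [← inner_add_left]
          congr 1
          abel
        rw [e3, hya, inner_add_left, inner_smul_left, hc, hβ]
        simp only [conj_trivial]
        ring
      have h4 : |(inner ℝ w ν : ℝ)| ≤ δ := by
        refine (abs_real_inner_le_norm w ν).trans ?_
        rw [hν, mul_one]
        exact h2
      have h5 : |(inner ℝ y ν : ℝ) - s| ≤ ρ := h3
      rw [e2] at h5
      have h6 := abs_le.1 h4
      have h7 := abs_le.1 h5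
      rw [abs_le]
      constructor <;> linarith [h6.1, h6.2, h7.1, h7.2]
    · rw [Fin.cons_succ]
      have hne : b k.succ ≠ e ∨ True := Or.inr trivial
      have horth : (inner ℝ (b k.succ) e : ℝ) = 0 := by
        rw [← hb0]
        exact b.orthonormal.2 (Fin.succ_ne_zero k)
      have e1 : (inner ℝ (b k.succ) y : ℝ) - α k.succ = inner ℝ (b k.succ) w := by
        rw [hα]
        simp only
        rw [← inner_sub_right, hya, inner_add_right, inner_smul_right, horth, mul_zero, zero_add]
      have h4 : |(inner ℝ (b k.succ) w : ℝ)| ≤ δ := by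
        refine (abs_real_inner_le_norm _ w).trans ?_
        rw [b.orthonormal.1 k.succ, one_mul]
        exact h2
      rw [← e1] at h4
      have h5 := abs_le.1 h4
      constructor <;> linarith [h5.1, h5.2]
  have hJm : MeasurableSet J := by
    have h1 : IsClosed {z : ℝ | |z - α 0| ≤ 1 / 2} := isClosed_le (by fun_prop) continuous_const
    have h2 : IsClosed {z : ℝ | |c + (z - α 0) * β| ≤ ρ + δ} := isClosed_le (by fun_prop) continuous_const
    exact (h1.inter h2).measurableSet
  have hBxm : MeasurableSet Bx := by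
    apply MeasurableSet.univ_pi
    intro k
    refine Fin.cases ?_ (fun k => ?_) k
    · exact hJm
    · exact measurableSet_Icc
  have hJv : volume J ≤ ENNReal.ofReal (2 * (ρ + δ) / max |β| δ) := by
    by_cases hβδ : δ ≤ |β|
    · rw [max_eq_left hβδ]
      have hβ0 : β ≠ 0 := fun h => by
        rw [h, abs_zero] at hβδ
        linarith
      have hsubJ : J ⊆ {z : ℝ | |(c - α 0 * β) + z * β| ≤ ρ + δ} := by
        intro z hz
        have : (c - α 0 * β) + z * β = c + (z - α 0) * β := by ring
        rw [mem_ofPred_eq, this]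
        exact hz.2
      exact (measure_mono hsubJ).trans (len_le hβ0)
    · push Not at hβδ
      rw [max_eq_right hβδ.le]
      have hsubJ : J ⊆ Icc (α 0 - 1 / 2) (α 0 + 1 / 2) := by
        intro z hz
        have := abs_le.1 hz.1
        constructor <;> linarith [this.1, this.2]
      refine (measure_mono hsubJ).trans ?_
      rw [Real.volume_Icc]
      apply ENNReal.ofReal_le_ofReal
      rw [le_div_iff₀ hδ]
      nlinarith
  calc volume (tube δ e a ∩ slab ρ ν s) ≤ volume ((fun y : Eu m => WithLp.ofLp (b.repr y)) ⁻¹' Bx) :=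
        measure_mono hsub
    _ = volume Bx := hmp.measure_preimage hBxm.nullMeasurableSet
    _ = volume J * ENNReal.ofReal (2 * δ) ^ m := by
        rw [hBx, volume_pi_pi, Fin.prod_univ_succ, Fin.cons_zero]
        congr 1
        simp only [Fin.cons_succ, Real.volume_Icc]
        have : ∀ k : Fin m, α k.succ + δ - (α k.succ - δ) = 2 * δ := fun k => by ring
        simp only [this]
        simp
    _ ≤ ENNReal.ofReal (2 * (ρ + δ) / max |β| δ) * ENNReal.ofReal (2 * δ) ^ m :=
        mul_le_mul' hJv le_rfl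
    _ = _ := by
        have hm : 0 < max |β| δ := lt_max_of_lt_right hδ
        rw [← ENNReal.ofReal_pow (by positivity), ← ENNReal.ofReal_mul (by positivity)]
        congr 1
        ring

/-- A sum over a finite set that is counted by a linear function. -/
theorem count_sum {κ : Type} [DecidableEq κ] {A : ℝ} (t β : κ → ℝ) : ∀ (N : ℕ) (S : Finset κ), S.card = N →
    (∀ x ∈ S, ((S.filter (fun c => β c ≤ β x)).card : ℝ) * t x ≤ A) →
    (∀ x ∈ S, 0 ≤ t x) → ∑ x ∈ S, t x ≤ A * ∑ k ∈ Finset.range N, 1 / ((k : ℝ) + 1) := by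
  intro N
  induction N with
  | zero =>
    intro S hS _ _
    rw [Finset.card_eq_zero] at hS
    rw [hS]
    simp
  | succ N ih =>
    intro S hS h hp
    have hne : S.Nonempty := by
      rw [← Finset.card_pos]
      omega
    obtain ⟨x, hx, hmax⟩ := Finset.exists_max_image S β hne
    have h1 : S.filter (fun c => β c ≤ β x) = S := Finset.filter_true_of_mem hmax
    have h2 := h x hx
    rw [h1, hS] at h2
    have h3 : t x ≤ A * (1 / ((N : ℝ) + 1)) := by
      rw [mul_one_div, le_div_iff₀ (by positivity)]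
      push_cast at h2
      linarith
    have h4 : (S.erase x).card = N := by
      rw [Finset.card_erase_of_mem hx, hS]
      rfl
    have h5 := ih (S.erase x) h4 (fun y hy => by
      have hyS := Finset.mem_of_mem_erase hy
      refine le_trans ?_ (h y hyS)
      apply mul_le_mul_of_nonneg_right _ (hp y hyS)
      have : ((S.erase x).filter (fun c => β c ≤ β y)).card ≤ (S.filter (fun c => β c ≤ β y)).card :=
        Finset.card_le_card (Finset.filter_subset_filter _ (Finset.erase_subset _ _))
      exact_mod_cast this) (fun y hy => hp y (Finset.mem_of_mem_erase hy))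
    rw [← Finset.add_sum_erase _ _ hx, Finset.sum_range_succ, mul_add]
    linarith

end Pool.Agent.W772.Fol
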