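import Pool.Agent.W772.Fol1

set_option autoImplicit false

/-! Families organised in a tree: the full range without loss. Preparations. -/

open MeasureTheory Set ENNReal

namespace Pool.Agent.W772.Fol

/-- Minkowski's inequality for a finite sum. -/
theorem mink {α κ : Type} [MeasurableSpace α] (μ : Measure α) (S : Finset κ) {g : κ → α → ℝ≥0∞}
    (hg : ∀ c, Measurable (g c)) {s : ℝ} (hs : 1 ≤ s) :
    (∫⁻ y, (∑ c ∈ S, g c y) ^ s ∂μ) ^ (1 / s) ≤ ∑ c ∈ S, (∫⁻ y, g c y ^ s ∂μ) ^ (1 / s) := by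
  classical
  have hs0 : 0 < s := by linarith
  refine Finset.induction_on S ?_ ?_
  · simp only [Finset.sum_empty]
    rw [ENNReal.zero_rpow_of_pos hs0, lintegral_zero, ENNReal.zero_rpow_of_pos (by positivity)]
  · intro a S ha ih
    rw [Finset.sum_insert ha]
    have h := ENNReal.lintegral_Lp_add_le (μ := μ) (f := g a) (g := fun y => ∑ c ∈ S, g c y)
      (hg a).aemeasurable (Finset.measurable_fun_sum _ fun c _ => hg c).aemeasurable hs
    calc (∫⁻ y, (∑ c ∈ insert a S, g c y) ^ s ∂μ) ^ (1 / s)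
        = (∫⁻ y, (g a + fun y => ∑ c ∈ S, g c y) y ^ s ∂μ) ^ (1 / s) := by
          congr 2
          funext y
          rw [Finset.sum_insert ha]
          rfl
      _ ≤ _ := h.trans (add_le_add le_rfl ih)

/-- Sums of negative powers. -/
theorem pow_sum {a : ℝ} (h0 : 0 < a) (h1 : a < 1) (N : ℕ) :
    ∑ k ∈ Finset.range N, (1 / ((k : ℝ) + 1)) ^ a ≤ (N : ℝ) ^ (1 - a) / (1 - a) := by
  have h1a : 0 < 1 - a := by linarith
  induction N with
  | zero =>
    simp only [Finset.range_zero, Finset.sum_empty]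
    positivity
  | succ N ih =>
    rw [Finset.sum_range_succ]
    have hN : (0 : ℝ) < (N : ℝ) + 1 := by positivity
    have h2 : (N : ℝ) = ((N : ℝ) + 1) * (1 + (-(1 / ((N : ℝ) + 1)))) := by
      field_simp
      ring
    have h3 : (1 + (-(1 / ((N : ℝ) + 1)))) ^ (1 - a) ≤ 1 + (1 - a) * (-(1 / ((N : ℝ) + 1))) := by
      refine rpow_one_add_le_one_add_mul_self ?_ h1a.le (by linarith)
      have : 1 / ((N : ℝ) + 1) ≤ 1 := by
        rw [div_le_one hN]
        have : (0 : ℝ) ≤ N := Nat.cast_nonneg N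
        linarith
      linarith
    have h4 : 0 ≤ 1 + (-(1 / ((N : ℝ) + 1))) := by
      have : 1 / ((N : ℝ) + 1) ≤ 1 := by
        rw [div_le_one hN]
        have : (0 : ℝ) ≤ N := Nat.cast_nonneg N
        linarith
      linarith
    have h5 : (N : ℝ) ^ (1 - a) ≤ ((N : ℝ) + 1) ^ (1 - a) * (1 + (1 - a) * (-(1 / ((N : ℝ) + 1)))) := by
      calc (N : ℝ) ^ (1 - a) = (((N : ℝ) + 1) * (1 + (-(1 / ((N : ℝ) + 1))))) ^ (1 - a) := by rw [← h2]
        _ = ((N : ℝ) + 1) ^ (1 - a) * (1 + (-(1 / ((N : ℝ) + 1)))) ^ (1 - a) :=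
            Real.mul_rpow hN.le h4
        _ ≤ _ := mul_le_mul_of_nonneg_left h3 (by positivity)
    have h6 : (1 / ((N : ℝ) + 1)) ^ a = ((N : ℝ) + 1) ^ (1 - a) * (1 / ((N : ℝ) + 1)) := by
      rw [one_div, Real.inv_rpow hN.le, Real.rpow_sub hN, Real.rpow_one]
      field_simp
    rw [h6]
    push_cast
    calc ∑ x ∈ Finset.range N, (1 / ((x : ℝ) + 1)) ^ a + ((N : ℝ) + 1) ^ (1 - a) * (1 / ((N : ℝ) + 1))
        ≤ (N : ℝ) ^ (1 - a) / (1 - a) + ((N : ℝ) + 1) ^ (1 - a) * (1 / ((N : ℝ) + 1)) := by linarith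
      _ ≤ (((N : ℝ) + 1) ^ (1 - a) * (1 + (1 - a) * (-(1 / ((N : ℝ) + 1))))) / (1 - a) +
            ((N : ℝ) + 1) ^ (1 - a) * (1 / ((N : ℝ) + 1)) := by
          have := div_le_div_of_nonneg_right h5 h1a.le
          linarith
      _ = ((N : ℝ) + 1) ^ (1 - a) / (1 - a) := by
          field_simp
          ring

/-- A sum over a finite set whose values are counted by a weak type condition. -/
theorem rank_sum {κ : Type} [DecidableEq κ] {V : ℝ≥0∞} (t : κ → ℝ≥0∞) {G : ℝ≥0∞ → ℝ≥0∞} (hG : Monotone G) :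
    ∀ (N : ℕ) (S : Finset κ), S.card = N →
      (∀ x ∈ S, ((S.filter (fun c => t x ≤ t c)).card : ℝ≥0∞) * t x ≤ V) →
      ∑ x ∈ S, G (t x) ≤ ∑ k ∈ Finset.range N, G (V / ((k : ℝ≥0∞) + 1)) := by
  intro N
  induction N with
  | zero =>
    intro S hS _
    rw [Finset.card_eq_zero] at hS
    rw [hS]
    simp
  | succ N ih =>
    intro S hS h
    have hne : S.Nonempty := by
      rw [← Finset.card_pos]
      omega
    obtain ⟨x, hx, hmin⟩ := Finset.exists_min_image S t hne
    have h1 : S.filter (fun c => t x ≤ t c) = S := Finset.filter_true_of_mem hmin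
    have h2 := h x hx
    rw [h1, hS] at h2
    have h3 : t x ≤ V / ((N : ℝ≥0∞) + 1) := by
      rw [ENNReal.le_div_iff_mul_le (Or.inl (by positivity)) (Or.inl (by finiteness)), mul_comm]
      push_cast at h2
      exact h2
    have h4 : (S.erase x).card = N := by
      rw [Finset.card_erase_of_mem hx, hS]
      rfl
    have h5 := ih (S.erase x) h4 (fun y hy => by
      have hyS := Finset.mem_of_mem_erase hy
      refine le_trans ?_ (h y hyS)
      refine mul_le_mul' ?_ le_rfl
      have : ((S.erase x).filter (fun c => t y ≤ t c)).card ≤ (S.filter (fun c => t y ≤ t c)).card :=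
        Finset.card_le_card (Finset.filter_subset_filter _ (Finset.erase_subset _ _))
      exact_mod_cast this)
    rw [← Finset.add_sum_erase _ _ hx, Finset.sum_range_succ, add_comm]
    exact add_le_add h5 (hG h3)

/-- The two-sided geometric sum. -/
theorem two_geom {g : ℝ} (hg : 1 < g) {Y : ℝ} (hY : 1 ≤ Y) (J : ℕ) :
    ∑ j ∈ Finset.range J, min (g ^ j / Y) (Y / g ^ j) ≤ 2 * g / (g - 1) := by
  obtain ⟨j₀, h1, h2⟩ := exists_nat_pow_near hY hg
  have hY0 : 0 < Y := by linarith
  have hg0 : 0 < g := by linarith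
  have hg1 : 0 < g - 1 := by linarith
  have hA : ∑ j ∈ (Finset.range J).filter (fun j => j < j₀ + 1), min (g ^ j / Y) (Y / g ^ j) ≤ g / (g - 1) := by
    calc ∑ j ∈ (Finset.range J).filter (fun j => j < j₀ + 1), min (g ^ j / Y) (Y / g ^ j)
        ≤ ∑ j ∈ (Finset.range J).filter (fun j => j < j₀ + 1), g ^ j / Y :=
          Finset.sum_le_sum fun j _ => min_le_left _ _
      _ ≤ ∑ j ∈ Finset.range (j₀ + 1), g ^ j / Y := by
          apply Finset.sum_le_sum_of_subset_of_nonneg
          · intro j hj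
            rw [Finset.mem_range]
            exact (Finset.mem_filter.1 hj).2
          · intro j _ _
            positivity
      _ = (g ^ (j₀ + 1) - 1) / (g - 1) / Y := by
          rw [← Finset.sum_div, geom_sum_eq (ne_of_gt hg)]
      _ ≤ g / (g - 1) := by
          rw [div_div, div_le_div_iff₀ (by positivity) hg1]
          have : g ^ (j₀ + 1) ≤ g * Y := by
            rw [pow_succ, mul_comm]
            exact mul_le_mul_of_nonneg_left h1 hg0.le
          nlinarith
  have hB : ∑ j ∈ (Finset.range J).filter (fun j => ¬ j < j₀ + 1), min (g ^ j / Y) (Y / g ^ j) ≤ g / (g - 1) := by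
    calc ∑ j ∈ (Finset.range J).filter (fun j => ¬ j < j₀ + 1), min (g ^ j / Y) (Y / g ^ j)
        ≤ ∑ j ∈ (Finset.range J).filter (fun j => ¬ j < j₀ + 1), Y * (g⁻¹) ^ j := by
          refine Finset.sum_le_sum fun j _ => (min_le_right _ _).trans (le_of_eq ?_)
          rw [inv_pow]
          rfl
      _ ≤ ∑ j ∈ Finset.Ico (j₀ + 1) J, Y * (g⁻¹) ^ j := by
          apply Finset.sum_le_sum_of_subset_of_nonneg
          · intro j hj
            rw [Finset.mem_Ico]
            have h3 := Finset.mem_filter.1 hj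
            have h4 := Finset.mem_range.1 h3.1
            omega
          · intro j _ _
            positivity
      _ = Y * ∑ j ∈ Finset.Ico (j₀ + 1) J, (g⁻¹) ^ j := by rw [Finset.mul_sum]
      _ ≤ Y * ((g⁻¹) ^ (j₀ + 1) / (1 - g⁻¹)) := by
          apply mul_le_mul_of_nonneg_left _ hY0.le
          exact geom_sum_Ico_le_of_lt_one (by positivity) (inv_lt_one_of_one_lt₀ hg)
      _ ≤ g / (g - 1) := by
          have h3 : 1 - g⁻¹ = (g - 1) / g := by field_simp
          rw [h3, inv_pow, div_div_eq_mul_div, ← mul_div_assoc]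
          apply div_le_div_of_nonneg_right _ hg1.le
          have h4 : Y * (g ^ (j₀ + 1))⁻¹ ≤ 1 := by
            rw [← div_eq_mul_inv, div_le_one (by positivity)]
            exact h2.le
          nlinarith
  rw [← Finset.sum_filter_add_sum_filter_not (Finset.range J) (fun j => j < j₀ + 1)]
  have : 2 * g / (g - 1) = g / (g - 1) + g / (g - 1) := by ring
  rw [this]
  exact add_le_add hA hB

end Pool.Agent.W772.Fol
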