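import Pool.Agent.W772.Fol3

set_option autoImplicit false

/-! Families organised in a tree: the estimates in one generation. -/

open MeasureTheory Set ENNReal

namespace Pool.Agent.W772.Fol

/-- The number of sets in a group. -/
def sz {ι κ : Type} [Fintype ι] [DecidableEq κ] (cls : ℕ → ι → κ) (l : ℕ) (c : κ) : ℕ :=
  (Finset.univ.filter (fun i => cls l i = c)).card

/-- A tree of groups. -/
structure Tr {α ι κ : Type} [MeasurableSpace α] [Fintype ι] [DecidableEq κ] (μ : Measure α)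
    (T : ι → Set α) (cls : ℕ → ι → κ) (D : ℕ) (P : ℕ → κ → Set α) (V : ℝ≥0∞) : Prop where
  hT : ∀ i, MeasurableSet (T i)
  hn : ∀ l < D, ∀ i i', cls (l + 1) i = cls (l + 1) i' → cls l i = cls l i'
  hinj : ∀ i i', cls D i = cls D i' → i = i'
  hP : ∀ l c, MeasurableSet (P l c)
  hTP : ∀ l < D, ∀ i, T i ⊆ P (l + 1) (cls (l + 1) i)
  hW : ∀ l < D, ∀ i, ∀ t : ℝ≥0∞,
    (((ch cls l (cls l i)).filter (fun c' => t ≤ μ (T i ∩ P (l + 1) c'))).card : ℝ≥0∞) * t ≤ V

variable {α ι κ : Type} [MeasurableSpace α] [Fintype ι] [DecidableEq κ] {μ : Measure α}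
  {T : ι → Set α} {cls : ℕ → ι → κ} {D : ℕ} {P : ℕ → κ → Set α} {V : ℝ≥0∞}

theorem Tr.supp (h : Tr μ T cls D P V) {l : ℕ} (hl : l < D) (c' : κ) (y : α) (hy : y ∉ P (l + 1) c') :
    fs T cls (l + 1) c' y = 0 := by
  unfold fs
  apply Finset.sum_eq_zero
  intro i hi
  have hic : cls (l + 1) i = c' := (Finset.mem_filter.1 hi).2
  refine indicator_of_notMem (fun h' => hy ?_) _
  rw [← hic]
  exact h.hTP l hl i h'

theorem Tr.split (h : Tr μ T cls D P V) {l : ℕ} (hl : l < D) (c : κ) (y : α) :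
    fs T cls l c y = ∑ c' ∈ ch cls l c, fs T cls (l + 1) c' y := by
  unfold fs
  exact (sum_ch cls (h.hn l hl) c _).symm

theorem Tr.sz_sum (h : Tr μ T cls D P V) {l : ℕ} (hl : l < D) (c : κ) :
    ∑ c' ∈ ch cls l c, sz cls (l + 1) c' = sz cls l c := by
  have h1 := sum_ch cls (h.hn l hl) c (fun _ => (1 : ℕ))
  simp only [Finset.sum_const, nsmul_eq_mul, mul_one] at h1
  exact h1

theorem sz_pos {l : ℕ} {c c' : κ} (hc : c' ∈ ch cls l c) : 1 ≤ sz cls (l + 1) c' := by
  obtain ⟨i, _, rfl⟩ := Finset.mem_image.1 hc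
  exact Finset.card_pos.2 ⟨i, Finset.mem_filter.2 ⟨Finset.mem_univ _, rfl⟩⟩

/-- The number of slabs of a subfamily at a point. -/
noncomputable def nn (P : ℕ → κ → Set α) (l : ℕ) (S : Finset κ) (y : α) : ℝ≥0∞ :=
  ∑ c' ∈ S, (P (l + 1) c').indicator (fun _ => 1) y

theorem Tr.nn_meas (h : Tr μ T cls D P V) (l : ℕ) (S : Finset κ) : Measurable (nn P l S) :=
  Finset.measurable_fun_sum _ fun _ _ => measurable_const.indicator (h.hP _ _)

/-- The multiplicity of the slabs along a set. -/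
theorem Tr.along (h : Tr μ T cls D P V) {l : ℕ} (hl : l < D) (i : ι) {S : Finset κ}
    (hS : S ⊆ ch cls l (cls l i)) {s : ℝ} (hs : 1 < s) :
    ∫⁻ y, (T i).indicator (fun _ => 1) y * nn P l S y ^ s ∂μ ≤
      V * ENNReal.ofReal ((s / (s - 1)) ^ s * (S.card : ℝ) ^ (s - 1)) := by
  have hs0 : 0 < s := by linarith
  have hs1 : 0 < s - 1 := by linarith
  have e1 : ∫⁻ y, (T i).indicator (fun _ => 1) y * nn P l S y ^ s ∂μ =
      ∫⁻ y, nn P l S y ^ s ∂(μ.restrict (T i)) := by
    rw [← lintegral_indicator (h.hT i)]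
    congr 1
    funext y
    by_cases hy : y ∈ T i
    · rw [indicator_of_mem hy, indicator_of_mem hy, one_mul]
    · rw [indicator_of_notMem hy, indicator_of_notMem hy, zero_mul]
  rw [e1]
  have h1 := mink (μ.restrict (T i)) S (g := fun c' => (P (l + 1) c').indicator (fun _ => (1 : ℝ≥0∞)))
    (fun c' => measurable_const.indicator (h.hP _ _)) hs.le
  have h2 : ∀ c', ∫⁻ y, (P (l + 1) c').indicator (fun _ => (1 : ℝ≥0∞)) y ^ s ∂(μ.restrict (T i)) =
      μ (T i ∩ P (l + 1) c') := by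
    intro c'
    have : ∀ y, (P (l + 1) c').indicator (fun _ => (1 : ℝ≥0∞)) y ^ s =
        (P (l + 1) c').indicator (fun _ => (1 : ℝ≥0∞)) y := by
      intro y
      by_cases hy : y ∈ P (l + 1) c'
      · rw [indicator_of_mem hy, ENNReal.one_rpow]
      · rw [indicator_of_notMem hy, ENNReal.zero_rpow_of_pos hs0]
    simp only [this]
    rw [lintegral_indicator_const (h.hP _ _), one_mul, Measure.restrict_apply (h.hP _ _), inter_comm]
  simp only [h2] at h1
  have h3 := rank_sum (V := V) (fun c' => μ (T i ∩ P (l + 1) c')) (G := fun x => x ^ (1 / s))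
    (ENNReal.monotone_rpow_of_nonneg (by positivity)) S.card S rfl (fun x _ => by
      refine le_trans ?_ (h.hW l hl i (μ (T i ∩ P (l + 1) x)))
      refine mul_le_mul' ?_ le_rfl
      exact_mod_cast Finset.card_le_card (Finset.filter_subset_filter _ hS))
  have h4 : ∑ k ∈ Finset.range S.card, (V / ((k : ℝ≥0∞) + 1)) ^ (1 / s) =
      V ^ (1 / s) * ENNReal.ofReal (∑ k ∈ Finset.range S.card, (1 / ((k : ℝ) + 1)) ^ (1 / s)) := by
    rw [ENNReal.ofReal_sum_of_nonneg (fun k _ => by positivity), Finset.mul_sum]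
    refine Finset.sum_congr rfl fun k _ => ?_
    rw [← ENNReal.ofReal_rpow_of_nonneg (by positivity) (by positivity),
      ← ENNReal.mul_rpow_of_nonneg _ _ (by positivity), ENNReal.ofReal_div_of_pos (by positivity),
      ENNReal.ofReal_one, ENNReal.ofReal_add (by positivity) (by positivity), ENNReal.ofReal_natCast,
      ENNReal.ofReal_one, mul_one_div]
  have ha0 : 0 < 1 / s := by positivity
  have ha1 : 1 / s < 1 := by rw [div_lt_one hs0]; exact hs
  have h5 := pow_sum ha0 ha1 S.card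
  have h6 : (∫⁻ y, nn P l S y ^ s ∂(μ.restrict (T i))) ^ (1 / s) ≤
      V ^ (1 / s) * ENNReal.ofReal ((S.card : ℝ) ^ (1 - 1 / s) / (1 - 1 / s)) := by
    refine h1.trans (h3.trans ?_)
    rw [h4]
    exact mul_le_mul' le_rfl (ENNReal.ofReal_le_ofReal h5)
  have h7 := ENNReal.rpow_le_rpow h6 hs0.le
  rw [← ENNReal.rpow_mul, one_div_mul_cancel hs0.ne', ENNReal.rpow_one,
    ENNReal.mul_rpow_of_nonneg _ _ hs0.le, ← ENNReal.rpow_mul, one_div_mul_cancel hs0.ne',
    ENNReal.rpow_one] at h7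
  refine h7.trans (le_of_eq ?_)
  congr 1
  have h8 : 0 < 1 - 1 / s := by linarith
  rw [ENNReal.ofReal_rpow_of_nonneg (by positivity) hs0.le]
  congr 1
  rw [Real.div_rpow (by positivity) h8.le, ← Real.rpow_mul (by positivity)]
  have h9 : (1 - 1 / s) * s = s - 1 := by field_simp
  have h10 : s / (s - 1) = (1 - 1 / s)⁻¹ := by field_simp
  rw [h9, h10, Real.inv_rpow h8.le]
  field_simp

/-- The product with the number of slabs. -/
theorem Tr.prodS (h : Tr μ T cls D P V) {l : ℕ} (hl : l < D) (c : κ) {S : Finset κ}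
    (hS : S ⊆ ch cls l c) {s : ℝ} (hs : 1 < s) :
    ∫⁻ y, (∑ c' ∈ S, fs T cls (l + 1) c' y) * nn P l S y ^ s ∂μ ≤
      V * ENNReal.ofReal ((s / (s - 1)) ^ s * (((∑ c' ∈ S, sz cls (l + 1) c' : ℕ) : ℝ) * (S.card : ℝ) ^ (s - 1))) := by
  have hs1 : 0 < s - 1 := by linarith
  have hs0 : 0 < s := by linarith
  have e1 : ∀ y, (∑ c' ∈ S, fs T cls (l + 1) c' y) * nn P l S y ^ s =
      ∑ c' ∈ S, ∑ i ∈ Finset.univ.filter (fun i => cls (l + 1) i = c'),
        (T i).indicator (fun _ => 1) y * nn P l S y ^ s := by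
    intro y
    unfold fs
    rw [Finset.sum_mul]
    refine Finset.sum_congr rfl fun c' _ => ?_
    rw [Finset.sum_mul]
  simp only [e1]
  have hm : ∀ i, Measurable (fun y => (T i).indicator (fun _ => (1 : ℝ≥0∞)) y * nn P l S y ^ s) := fun i =>
    (measurable_const.indicator (h.hT i)).mul ((h.nn_meas l S).pow_const s)
  rw [lintegral_finsetSum _ (fun c' _ => Finset.measurable_fun_sum _ fun i _ => hm i)]
  set W : ℝ := (s / (s - 1)) ^ s * (S.card : ℝ) ^ (s - 1) with hW
  have hW0 : 0 ≤ W := by positivity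
  calc ∑ c' ∈ S, ∫⁻ y, ∑ i ∈ Finset.univ.filter (fun i => cls (l + 1) i = c'),
          (T i).indicator (fun _ => 1) y * nn P l S y ^ s ∂μ
      ≤ ∑ c' ∈ S, (sz cls (l + 1) c' : ℝ≥0∞) * (V * ENNReal.ofReal W) := by
        refine Finset.sum_le_sum fun c' hc' => ?_
        rw [lintegral_finsetSum _ (fun i _ => hm i)]
        calc ∑ i ∈ Finset.univ.filter (fun i => cls (l + 1) i = c'),
              ∫⁻ y, (T i).indicator (fun _ => 1) y * nn P l S y ^ s ∂μ
            ≤ ∑ _i ∈ Finset.univ.filter (fun i => cls (l + 1) i = c'), (V * ENNReal.ofReal W) := by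
              refine Finset.sum_le_sum fun i hi => ?_
              have hic : cls (l + 1) i = c' := (Finset.mem_filter.1 hi).2
              have hcl : cls l i = c := by
                obtain ⟨i₀, hi₀, h0⟩ := Finset.mem_image.1 (hS hc')
                rw [← (Finset.mem_filter.1 hi₀).2]
                exact h.hn l hl i i₀ (hic.trans h0.symm)
              exact h.along hl i (hcl ▸ hS) hs
          _ = _ := by rw [Finset.sum_const, nsmul_eq_mul]; rfl
    _ = _ := by
        rw [← Finset.sum_mul, ← Nat.cast_sum, ← ENNReal.ofReal_natCast, mul_left_comm,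
          ← ENNReal.ofReal_mul (by positivity)]
        congr 2
        rw [hW]
        ring

end Pool.Agent.W772.Fol
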