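import Pool.Agent.W772.Fol4

set_option autoImplicit false

/-! Families organised in a tree: the full range without loss. -/

open MeasureTheory Set ENNReal

namespace Pool.Agent.W772.Fol

/-- The numerical part of the interpolation. -/
theorem real_step {x y Q E M N B c₁ c₂ : ℝ} (hx0 : 0 < x) (hx1 : x < 1) (hy0 : 0 < y) (hyE : y < E)
    (hQ : 0 < Q) (hxy : Q * (x + y) = 1) (hM : 1 ≤ M) (hB : 1 ≤ B) (hN : 0 ≤ N) (hNB : N * B ≤ M)
    (hc₁ : 0 ≤ c₁) (hc₂ : 0 ≤ c₂) :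
    (c₁ * (M * N ^ (1 / x - 1))) ^ (x * Q) * (c₂ * (M * (2 * B) ^ (1 / y - 1 / E))) ^ (y * Q) ≤
      (c₁ ^ (x * Q) * c₂ ^ (y * Q) * 2 ^ (Q * (1 - y / E))) *
        (M ^ (1 + Q * (1 - x)) * B ^ (Q * (x - y / E))) := by
  have hE : 0 < E := hy0.trans hyE
  have hM0 : 0 < M := by linarith
  have hB0 : 0 < B := by linarith
  have e1 : (1 / x - 1) * (x * Q) = Q * (1 - x) := by field_simp
  have e2 : (1 / y - 1 / E) * (y * Q) = Q * (1 - y / E) := by field_simp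
  have hyE' : y / E < 1 := by rw [div_lt_one hE]; exact hyE
  have h1x : 0 < 1 - x := by linarith
  have h1y : 0 < 1 - y / E := by linarith
  rw [Real.mul_rpow hc₁ (by positivity), Real.mul_rpow hM0.le (by positivity), ← Real.rpow_mul hN, e1,
    Real.mul_rpow hc₂ (by positivity), Real.mul_rpow hM0.le (by positivity), ← Real.rpow_mul (by positivity), e2,
    Real.mul_rpow (by norm_num) hB0.le]
  have h1 : N ^ (Q * (1 - x)) ≤ M ^ (Q * (1 - x)) / B ^ (Q * (1 - x)) := by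
    rw [le_div_iff₀ (by positivity), ← Real.mul_rpow hN hB0.le]
    exact Real.rpow_le_rpow (by positivity) hNB (by positivity)
  have h2 : M ^ (x * Q) * M ^ (y * Q) = M := by
    rw [← Real.rpow_add hM0]
    have : x * Q + y * Q = 1 := by linarith
    rw [this, Real.rpow_one]
  have h3 : M ^ (1 + Q * (1 - x)) = M * M ^ (Q * (1 - x)) := by
    rw [Real.rpow_add hM0, Real.rpow_one]
  have h4 : B ^ (Q * (x - y / E)) = B ^ (Q * (1 - y / E)) / B ^ (Q * (1 - x)) := by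
    rw [← Real.rpow_sub hB0]
    congr 1
    ring
  calc c₁ ^ (x * Q) * (M ^ (x * Q) * N ^ (Q * (1 - x))) *
        (c₂ ^ (y * Q) * (M ^ (y * Q) * (2 ^ (Q * (1 - y / E)) * B ^ (Q * (1 - y / E)))))
      = (c₁ ^ (x * Q) * c₂ ^ (y * Q) * 2 ^ (Q * (1 - y / E)) * (M ^ (x * Q) * M ^ (y * Q)) *
          B ^ (Q * (1 - y / E))) * N ^ (Q * (1 - x)) := by ring
    _ ≤ (c₁ ^ (x * Q) * c₂ ^ (y * Q) * 2 ^ (Q * (1 - y / E)) * (M ^ (x * Q) * M ^ (y * Q)) *
          B ^ (Q * (1 - y / E))) * (M ^ (Q * (1 - x)) / B ^ (Q * (1 - x))) :=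
        mul_le_mul_of_nonneg_left h1 (by positivity)
    _ = _ := by
        rw [h2, h3, h4]
        ring

section

variable {α ι κ : Type} [MeasurableSpace α] [Fintype ι] [DecidableEq κ] {μ : Measure α}
  {T : ι → Set α} {cls : ℕ → ι → κ} {D : ℕ} {P : ℕ → κ → Set α} {V : ℝ≥0∞}

/-- The constant of one step. -/
noncomputable def kc (x y Q E c : ℝ) : ℝ :=
  ((1 / x / (1 / x - 1)) ^ (1 / x)) ^ (x * Q) * c ^ (y * Q) * 2 ^ (Q * (1 - y / E))

theorem Tr.step (h : Tr μ T cls D P V) {l : ℕ} (hl : l < D) (c : κ) {S : Finset κ}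
    (hS : S ⊆ ch cls l c) (hSne : S.Nonempty) {j : ℕ}
    (hj : ∀ c' ∈ S, 2 ^ j ≤ sz cls (l + 1) c' ∧ sz cls (l + 1) c' ≤ 2 ^ (j + 1))
    {x y Q E : ℝ} (hx0 : 0 < x) (hx1 : x < 1) (hy0 : 0 < y) (hyE : y < E)
    (hQ : 0 < Q) (hxy : Q * (x + y) = 1) {Cp : ℝ} (hCp : 0 ≤ Cp)
    (ih : ∀ c', ∫⁻ z, fs T cls (l + 1) c' z ^ (1 + 1 / y) ∂μ ≤
      V * ENNReal.ofReal (Cp * (sz cls (l + 1) c' : ℝ) ^ (1 + 1 / y - 1 / E))) :
    ∫⁻ z, (∑ c' ∈ S, fs T cls (l + 1) c' z) ^ (1 + Q) ∂μ ≤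
      V * ENNReal.ofReal (kc x y Q E Cp *
        (((∑ c' ∈ S, sz cls (l + 1) c' : ℕ) : ℝ) ^ (1 + Q * (1 - x)) * ((2 : ℝ) ^ j) ^ (Q * (x - y / E)))) := by
  have hE : 0 < E := hy0.trans hyE
  set M : ℝ := ((∑ c' ∈ S, sz cls (l + 1) c' : ℕ) : ℝ) with hMd
  set B : ℝ := (2 : ℝ) ^ j with hBd
  have hB1 : 1 ≤ B := one_le_pow₀ (by norm_num)
  have hNB : (S.card : ℝ) * B ≤ M := by
    have h1 : S.card * 2 ^ j ≤ ∑ c' ∈ S, sz cls (l + 1) c' := by
      calc S.card * 2 ^ j = ∑ _c' ∈ S, 2 ^ j := by rw [Finset.sum_const, smul_eq_mul]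
        _ ≤ _ := Finset.sum_le_sum fun c' hc' => (hj c' hc').1
    rw [hMd, hBd]
    exact_mod_cast h1
  have hcard : 1 ≤ (S.card : ℝ) := by exact_mod_cast Finset.card_pos.2 hSne
  have hM1 : 1 ≤ M := by nlinarith
  have hxi : 1 < 1 / x := by rw [lt_div_iff₀ hx0]; linarith
  have hyi : 0 < 1 / y - 1 / E := by
    have := one_div_lt_one_div_of_lt hy0 hyE
    linarith
  set F : α → ℝ≥0∞ := fun z => ∑ c' ∈ S, fs T cls (l + 1) c' z with hF
  set p : ℝ := 1 + 1 / y with hp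
  have hp1 : 1 ≤ p := by
    have : 0 < 1 / y := by positivity
    linarith
  set G : α → ℝ≥0∞ := fun z => ∑ c' ∈ S, fs T cls (l + 1) c' z ^ p with hG
  have hFm : Measurable F := Finset.measurable_fun_sum _ fun c' _ => fs_meas h.hT cls _ _
  have hGm : Measurable G := Finset.measurable_fun_sum _ fun c' _ => (fs_meas h.hT cls _ _).pow_const p
  have hnm := h.nn_meas l S
  have hxQ : 0 < x * Q := by positivity
  have hyQ : 0 < y * Q := by positivity
  have hsum : x * Q + y * Q = 1 := by linarith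
  have hpi : p⁻¹ * (1 + Q - x * Q) = y * Q := by
    rw [hp]
    have h1 : 1 + Q - x * Q = Q * (1 + y) := by linarith
    rw [h1]
    field_simp
    ring
  have hpi' : (1 - p⁻¹) * (1 + Q - x * Q) = Q := by
    rw [sub_mul, hpi]
    linarith
  have hpt : ∀ z, F z ^ (1 + Q) ≤ (F z * nn P l S z ^ (1 / x)) ^ (x * Q) * G z ^ (y * Q) := by
    intro z
    have h1 : F z ≤ nn P l S z ^ (1 - p⁻¹) * G z ^ p⁻¹ := by
      have h := ENNReal.inner_le_weight_mul_Lp_of_nonneg S hp1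
        (fun c' => (P (l + 1) c').indicator (fun _ => (1 : ℝ≥0∞)) z) (fun c' => fs T cls (l + 1) c' z)
      have h2 : ∑ c' ∈ S, (P (l + 1) c').indicator (fun _ => (1 : ℝ≥0∞)) z * fs T cls (l + 1) c' z = F z := by
        refine Finset.sum_congr rfl fun c' _ => ?_
        by_cases hz : z ∈ P (l + 1) c'
        · rw [indicator_of_mem hz, one_mul]
        · rw [Tr.supp ‹_› hl c' z hz, mul_zero]
      rw [h2] at h
      refine h.trans (mul_le_mul' le_rfl (ENNReal.rpow_le_rpow ?_ (by positivity)))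
      refine Finset.sum_le_sum fun c' _ => ?_
      calc (P (l + 1) c').indicator (fun _ => (1 : ℝ≥0∞)) z * fs T cls (l + 1) c' z ^ p
          ≤ 1 * fs T cls (l + 1) c' z ^ p := by
            refine mul_le_mul' ?_ le_rfl
            exact indicator_le_self' (fun _ _ => zero_le) z
        _ = _ := one_mul _
    have hb : 0 ≤ 1 + Q - x * Q := by nlinarith
    have h3 : F z ^ (1 + Q) = F z ^ (x * Q) * F z ^ (1 + Q - x * Q) := by
      rw [← ENNReal.rpow_add_of_nonneg _ _ hxQ.le hb]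
      congr 1
      ring
    rw [h3, ENNReal.mul_rpow_of_nonneg _ _ hxQ.le, ← ENNReal.rpow_mul (nn P l S z), mul_assoc]
    refine mul_le_mul' le_rfl ?_
    calc F z ^ (1 + Q - x * Q) ≤ (nn P l S z ^ (1 - p⁻¹) * G z ^ p⁻¹) ^ (1 + Q - x * Q) :=
          ENNReal.rpow_le_rpow h1 hb
      _ = _ := by
          rw [ENNReal.mul_rpow_of_nonneg _ _ hb, ← ENNReal.rpow_mul, ← ENNReal.rpow_mul, hpi, hpi']
          congr 2
          field_simp
  have hFn := h.prodS hl c hS hxi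
  have hGi : ∫⁻ z, G z ∂μ ≤ V * ENNReal.ofReal (Cp * (M * (2 * B) ^ (1 / y - 1 / E))) := by
    rw [hG, lintegral_finsetSum _ (fun c' _ => (fs_meas h.hT cls _ _).pow_const p)]
    calc ∑ c' ∈ S, ∫⁻ z, fs T cls (l + 1) c' z ^ p ∂μ
        ≤ ∑ c' ∈ S, V * ENNReal.ofReal (Cp * (sz cls (l + 1) c' : ℝ) ^ (1 + 1 / y - 1 / E)) :=
          Finset.sum_le_sum fun c' _ => ih c'
      _ = V * ENNReal.ofReal (∑ c' ∈ S, Cp * (sz cls (l + 1) c' : ℝ) ^ (1 + 1 / y - 1 / E)) := by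
          rw [ENNReal.ofReal_sum_of_nonneg (fun _ _ => by positivity), Finset.mul_sum]
      _ ≤ _ := by
          refine mul_le_mul' le_rfl (ENNReal.ofReal_le_ofReal ?_)
          rw [← Finset.mul_sum]
          refine mul_le_mul_of_nonneg_left ?_ hCp
          rw [hMd, Nat.cast_sum, Finset.sum_mul]
          refine Finset.sum_le_sum fun c' hc' => ?_
          have h1 : (1 : ℝ) ≤ (sz cls (l + 1) c' : ℝ) := by
            exact_mod_cast sz_pos (hS hc')
          have h2 : (1 : ℝ) + 1 / y - 1 / E = 1 + (1 / y - 1 / E) := by ring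
          rw [h2, Real.rpow_add (by linarith), Real.rpow_one]
          refine mul_le_mul_of_nonneg_left ?_ (by linarith)
          refine Real.rpow_le_rpow (by linarith) ?_ hyi.le
          have h3 : (sz cls (l + 1) c' : ℝ) ≤ 2 ^ (j + 1) := by exact_mod_cast (hj c' hc').2
          rw [hBd]
          rw [pow_succ] at h3
          linarith
  calc ∫⁻ z, F z ^ (1 + Q) ∂μ
      ≤ ∫⁻ z, (F z * nn P l S z ^ (1 / x)) ^ (x * Q) * G z ^ (y * Q) ∂μ := lintegral_mono hpt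
    _ ≤ (∫⁻ z, F z * nn P l S z ^ (1 / x) ∂μ) ^ (x * Q) * (∫⁻ z, G z ∂μ) ^ (y * Q) :=
        ENNReal.lintegral_mul_norm_pow_le (hFm.mul (hnm.pow_const _)).aemeasurable hGm.aemeasurable hxQ.le
          hyQ.le hsum
    _ ≤ (V * ENNReal.ofReal ((1 / x / (1 / x - 1)) ^ (1 / x) * (M * (S.card : ℝ) ^ (1 / x - 1)))) ^ (x * Q) *
          (V * ENNReal.ofReal (Cp * (M * (2 * B) ^ (1 / y - 1 / E)))) ^ (y * Q) :=
        mul_le_mul' (ENNReal.rpow_le_rpow hFn hxQ.le) (ENNReal.rpow_le_rpow hGi hyQ.le)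
    _ = V * ENNReal.ofReal (((1 / x / (1 / x - 1)) ^ (1 / x) * (M * (S.card : ℝ) ^ (1 / x - 1))) ^ (x * Q) *
          (Cp * (M * (2 * B) ^ (1 / y - 1 / E))) ^ (y * Q)) := by
        have hxi' : 0 < 1 / x - 1 := by linarith
        rw [ENNReal.mul_rpow_of_nonneg _ _ hxQ.le, ENNReal.mul_rpow_of_nonneg _ _ hyQ.le,
          ENNReal.ofReal_rpow_of_nonneg (by positivity) hxQ.le,
          ENNReal.ofReal_rpow_of_nonneg (by positivity) hyQ.le, ENNReal.ofReal_mul (by positivity)]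
        have hV : V ^ (x * Q) * V ^ (y * Q) = V := by
          rw [← ENNReal.rpow_add_of_nonneg _ _ hxQ.le hyQ.le, hsum, ENNReal.rpow_one]
        rw [mul_mul_mul_comm, hV]
    _ ≤ _ := by
        refine mul_le_mul' le_rfl (ENNReal.ofReal_le_ofReal ?_)
        have hxi' : 0 < 1 / x - 1 := by linarith
        exact real_step hx0 hx1 hy0 hyE hQ hxy hM1 hB1 (by positivity) hNB (by positivity) hCp

end

end Pool.Agent.W772.Fol
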