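import Pool.Agent.W772.Fol5

set_option autoImplicit false

/-! Families organised in a tree: the full range without loss. -/

open MeasureTheory Set ENNReal

namespace Pool.Agent.W772.Fol

section

variable {α ι κ : Type} [MeasurableSpace α] [Fintype ι] [DecidableEq κ] {μ : Measure α}
  {T : ι → Set α} {cls : ℕ → ι → κ} {D : ℕ} {P : ℕ → κ → Set α} {V : ℝ≥0∞}

theorem Tr.base (h : Tr μ T cls D P V) {l : ℕ} (hl : l + 1 = D) (c : κ) {q : ℝ} (hq : 2 < q) :
    ∫⁻ z, fs T cls l c z ^ q ∂μ ≤
      V * ENNReal.ofReal (((q - 1) / (q - 1 - 1)) ^ (q - 1) * (sz cls l c : ℝ) ^ (q - 1)) := by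
  have hlD : l < D := by omega
  have hq1 : 1 < q - 1 := by linarith
  have hq2 : 0 < q - 1 - 1 := by linarith
  have h1 := h.prodS hlD c (Finset.Subset.refl _) hq1
  have h2 : ∀ z, fs T cls l c z ^ q ≤
      (∑ c' ∈ ch cls l c, fs T cls (l + 1) c' z) * nn P l (ch cls l c) z ^ (q - 1) := by
    intro z
    have h3 : fs T cls l c z ^ q = fs T cls l c z * fs T cls l c z ^ (q - 1) := by
      have : q = 1 + (q - 1) := by ring
      conv_lhs => rw [this]
      rw [ENNReal.rpow_add_of_nonneg _ _ zero_le_one (by linarith), ENNReal.rpow_one]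
    rw [h3]
    refine mul_le_mul' (le_of_eq (h.split hlD c z)) (ENNReal.rpow_le_rpow ?_ (by linarith))
    rw [h.split hlD c z]
    unfold nn
    refine Finset.sum_le_sum fun c' _ => ?_
    by_cases hz : z ∈ P (l + 1) c'
    · rw [indicator_of_mem hz]
      unfold fs
      by_cases hex : ∃ i, cls (l + 1) i = c'
      · obtain ⟨i, hi⟩ := hex
        have h4 : Finset.univ.filter (fun i => cls (l + 1) i = c') = {i} := by
          ext j
          simp only [Finset.mem_filter, Finset.mem_univ, true_and, Finset.mem_singleton]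
          constructor
          · intro h'
            apply h.hinj
            rw [← hl, h', hi]
          · rintro rfl
            exact hi
        rw [h4, Finset.sum_singleton]
        exact indicator_le_self' (fun _ _ => zero_le) z
      · have h4 : Finset.univ.filter (fun i => cls (l + 1) i = c') = ∅ := by
          ext j
          simp only [Finset.mem_filter, Finset.mem_univ, true_and, Finset.notMem_empty, iff_false]
          exact fun h => hex ⟨j, h⟩
        rw [h4, Finset.sum_empty]
        exact zero_le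
    · rw [h.supp hlD c' z hz]
      exact zero_le
  refine (lintegral_mono h2).trans (h1.trans ?_)
  refine mul_le_mul' le_rfl (ENNReal.ofReal_le_ofReal ?_)
  refine mul_le_mul_of_nonneg_left ?_ (by positivity)
  rw [h.sz_sum hlD c]
  set M : ℝ := (sz cls l c : ℝ) with hM
  have hcard : ((ch cls l c).card : ℝ) ≤ M := by
    have h5 : (ch cls l c).card ≤ sz cls l c := Finset.card_image_le
    rw [hM]
    exact_mod_cast h5
  have hM0 : 0 ≤ M := Nat.cast_nonneg _
  calc M * ((ch cls l c).card : ℝ) ^ (q - 1 - 1) ≤ M * M ^ (q - 1 - 1) :=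
        mul_le_mul_of_nonneg_left (Real.rpow_le_rpow (Nat.cast_nonneg _) hcard hq2.le) hM0
    _ ≤ M ^ (q - 1) := by
        rcases hM0.eq_or_lt with h0 | h0
        · rw [← h0, zero_mul]
          positivity
        · have e : q - 1 = 1 + (q - 1 - 1) := by ring
          conv_rhs => rw [e]
          rw [Real.rpow_add h0, Real.rpow_one]

end

/-- The full range without loss. -/
theorem noloss : ∀ (e : ℕ) (q : ℝ), 1 + 1 / ((e : ℝ) + 1) < q → ∃ C : ℝ, 0 ≤ C ∧
    ∀ (α ι κ : Type) [MeasurableSpace α] [Fintype ι] [DecidableEq κ] (μ : Measure α) (T : ι → Set α)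
      (cls : ℕ → ι → κ) (D : ℕ) (P : ℕ → κ → Set α) (V : ℝ≥0∞), Tr μ T cls D P V →
      ∀ l, l + (e + 1) = D → ∀ c, ∫⁻ z, fs T cls l c z ^ q ∂μ ≤
        V * ENNReal.ofReal (C * (sz cls l c : ℝ) ^ (q - 1 / ((e : ℝ) + 1))) := by
  classical
  intro e
  induction e with
  | zero =>
    intro q hq
    have hq2 : 2 < q := by
      norm_num at hq
      linarith
    have hq3 : 0 < q - 1 - 1 := by linarith
    refine ⟨((q - 1) / (q - 1 - 1)) ^ (q - 1), ?_, ?_⟩
    · have : 0 < q - 1 := by linarith
      positivity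
    · intro α ι κ _ _ _ μ T cls D P V h l hl c
      have e1 : q - 1 / (((0 : ℕ) : ℝ) + 1) = q - 1 := by norm_num
      rw [e1]
      exact h.base (by omega) c hq2
  | succ e ih =>
    intro q hq
    have hcast : (((e + 1 : ℕ) : ℝ) + 1) = ((e : ℝ) + 1) + 1 := by push_cast; ring
    rw [hcast] at hq ⊢
    set E : ℝ := (e : ℝ) + 1 with hE
    have hE0 : 0 < E := by positivity
    have hE1 : 1 ≤ E := by
      have : (0 : ℝ) ≤ e := Nat.cast_nonneg e
      linarith
    set Q : ℝ := q - 1 with hQd
    have hE2 : 0 < 1 / (E + 1) := by positivity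
    have hQ : 1 / (E + 1) < Q := by linarith
    have hQ0 : 0 < Q := by linarith
    have hq1 : q = 1 + Q := by rw [hQd]; ring
    have hq0 : 0 < q := by linarith
    set x₀ : ℝ := 1 / (Q * (E + 1)) with hx₀
    have hx₀0 : 0 < x₀ := by positivity
    have hx₀1 : x₀ < 1 := by
      rw [hx₀, div_lt_one (by positivity)]
      rwa [div_lt_iff₀ (by positivity)] at hQ
    have hQx₀ : Q * x₀ * (E + 1) = 1 := by
      rw [hx₀]
      field_simp
    set η : ℝ := min x₀ (1 - x₀) / 2 with hη
    have hη0 : 0 < η := by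
      have : 0 < min x₀ (1 - x₀) := lt_min hx₀0 (by linarith)
      positivity
    have hη1 : η ≤ x₀ / 2 := by
      have := min_le_left x₀ (1 - x₀)
      linarith
    have hη2 : η ≤ (1 - x₀) / 2 := by
      have := min_le_right x₀ (1 - x₀)
      linarith
    have hEx : x₀ ≤ E * x₀ := by nlinarith
    have hEx' : 1 - x₀ ≤ E * (1 - x₀) := by nlinarith
    -- the two choices of exponents
    have hyp : 0 < E * x₀ - η ∧ E * x₀ - η < E := by
      constructor
      · linarith
      · nlinarith
    have hym : 0 < E * x₀ + η ∧ E * x₀ + η < E := by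
      constructor
      · linarith
      · nlinarith
    obtain ⟨Cp, hCp, ihp⟩ := ih (1 + 1 / (E * x₀ - η)) (by
      have := one_div_lt_one_div_of_lt hyp.1 hyp.2
      linarith)
    obtain ⟨Cm, hCm, ihm⟩ := ih (1 + 1 / (E * x₀ + η)) (by
      have := one_div_lt_one_div_of_lt hym.1 hym.2
      linarith)
    set Kp : ℝ := kc (x₀ + η) (E * x₀ - η) Q E Cp with hKp
    set Km : ℝ := kc (x₀ - η) (E * x₀ + η) Q E Cm with hKm
    set K : ℝ := max (max Kp Km) 0 with hK
    have hK0 : 0 ≤ K := le_max_right _ _
    have hKp' : Kp ≤ K := (le_max_left _ _).trans (le_max_left _ _)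
    have hKm' : Km ≤ K := (le_max_right _ _).trans (le_max_left _ _)
    set γ : ℝ := Q * η * (1 + 1 / E) with hγ
    have hγ0 : 0 < γ := by positivity
    set g : ℝ := 2 ^ (γ / q) with hg
    have hg1 : 1 < g := Real.one_lt_rpow (by norm_num) (by positivity)
    set R : ℝ := 2 * g / (g - 1) with hR
    have hR0 : 0 ≤ R := by
      have : 0 < g - 1 := by linarith
      positivity
    set r : ℝ := q - 1 / (E + 1) with hr
    refine ⟨K * R ^ q, by positivity, ?_⟩
    intro α ι κ _ _ _ μ T cls D P V h l hl c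
    have hlD : l < D := by omega
    rcases Nat.eq_zero_or_pos (sz cls l c) with hM0 | hMpos
    · have h1 : ∀ z, fs T cls l c z = 0 := by
        intro z
        unfold fs
        have : Finset.univ.filter (fun i => cls l i = c) = ∅ := Finset.card_eq_zero.1 hM0
        rw [this, Finset.sum_empty]
      simp only [h1]
      rw [ENNReal.zero_rpow_of_pos hq0, lintegral_zero]
      exact zero_le
    set M : ℝ := (sz cls l c : ℝ) with hM
    have hM1 : 1 ≤ M := by rw [hM]; exact_mod_cast hMpos
    have hM0 : 0 < M := by linarith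
    set J : ℕ := Nat.log 2 (sz cls l c) + 1 with hJ
    set S : ℕ → Finset κ := fun j => (ch cls l c).filter (fun c' => Nat.log 2 (sz cls (l + 1) c') = j) with hS
    have hSsub : ∀ j, S j ⊆ ch cls l c := fun j => Finset.filter_subset _ _
    have hszle : ∀ c' ∈ ch cls l c, sz cls (l + 1) c' ≤ sz cls l c := by
      intro c' hc'
      rw [← h.sz_sum hlD c]
      exact Finset.single_le_sum (f := fun c' => sz cls (l + 1) c') (fun _ _ => Nat.zero_le _) hc'
    have hFsum : ∀ z, fs T cls l c z = ∑ j ∈ Finset.range J, ∑ c' ∈ S j, fs T cls (l + 1) c' z := by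
      intro z
      rw [h.split hlD c z]
      symm
      apply Finset.sum_fiberwise_of_maps_to
      intro c' hc'
      rw [Finset.mem_range, hJ]
      have := Nat.log_mono_right (b := 2) (hszle c' hc')
      omega
    -- the estimate for one dyadic size
    set u : ℕ → ℝ := fun j => ((2 : ℝ) ^ j) ^ γ / M ^ (Q * η) with hu
    have hu0 : ∀ j, 0 < u j := fun j => by positivity
    have hone : ∀ j, ∫⁻ z, (∑ c' ∈ S j, fs T cls (l + 1) c' z) ^ q ∂μ ≤
        V * ENNReal.ofReal (K * M ^ r * min (u j) (1 / u j)) := by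
      intro j
      rcases (S j).eq_empty_or_nonempty with he | hne
      · rw [he]
        simp only [Finset.sum_empty]
        rw [ENNReal.zero_rpow_of_pos hq0, lintegral_zero]
        exact zero_le
      have hj : ∀ c' ∈ S j, 2 ^ j ≤ sz cls (l + 1) c' ∧ sz cls (l + 1) c' ≤ 2 ^ (j + 1) := by
        intro c' hc'
        have h1 := Finset.mem_filter.1 hc'
        have h2 := sz_pos h1.1
        constructor
        · rw [← h1.2]
          exact Nat.pow_log_le_self 2 (by omega)
        · rw [← h1.2]
          exact (Nat.lt_pow_succ_log_self (by norm_num) _).le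
      have hMj : (((∑ c' ∈ S j, sz cls (l + 1) c' : ℕ) : ℝ)) ≤ M := by
        have h1 : ∑ c' ∈ S j, sz cls (l + 1) c' ≤ sz cls l c := by
          rw [← h.sz_sum hlD c]
          exact Finset.sum_le_sum_of_subset (hSsub j)
        rw [hM]
        exact_mod_cast h1
      have hp := h.step hlD c (hSsub j) hne hj (x := x₀ + η) (y := E * x₀ - η) (Q := Q) (E := E)
        (by linarith) (by linarith) hyp.1 hyp.2 hQ0 (by rw [← hQx₀]; ring) hCp
        (fun c' => ihp α ι κ μ T cls D P V h (l + 1) (by omega) c')
      have hm := h.step hlD c (hSsub j) hne hj (x := x₀ - η) (y := E * x₀ + η) (Q := Q) (E := E)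
        (by linarith) (by linarith) hym.1 hym.2 hQ0 (by rw [← hQx₀]; ring) hCm
        (fun c' => ihm α ι κ μ T cls D P V h (l + 1) (by omega) c')
      rw [← hq1] at hp hm
      set Mj : ℝ := ((∑ c' ∈ S j, sz cls (l + 1) c' : ℕ) : ℝ) with hMjd
      have hMj0 : 0 ≤ Mj := Nat.cast_nonneg _
      have hcr : q - 1 / (E + 1) = 1 + Q - Q * x₀ := by
        have : 1 / (E + 1) = Q * x₀ := by
          rw [div_eq_iff (by positivity)]
          exact hQx₀.symm
        rw [this, hq1]
      rw [mul_min_of_nonneg _ _ (by positivity), ENNReal.ofReal_min, mul_min]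
      refine le_min (hp.trans ?_) (hm.trans ?_)
      · refine mul_le_mul' le_rfl (ENNReal.ofReal_le_ofReal ?_)
        have e1 : Q * (x₀ + η - (E * x₀ - η) / E) = γ := by
          rw [hγ]
          field_simp
          ring
        have e2 : M ^ (1 + Q * (1 - (x₀ + η))) = M ^ r / M ^ (Q * η) := by
          rw [← Real.rpow_sub hM0, hr, hcr]
          congr 1
          ring
        have h3 : 0 ≤ 1 + Q * (1 - (x₀ + η)) := by nlinarith
        calc Kp * (Mj ^ (1 + Q * (1 - (x₀ + η))) * ((2 : ℝ) ^ j) ^ (Q * (x₀ + η - (E * x₀ - η) / E)))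
            ≤ K * (M ^ (1 + Q * (1 - (x₀ + η))) * ((2 : ℝ) ^ j) ^ (Q * (x₀ + η - (E * x₀ - η) / E))) := by
              refine mul_le_mul hKp' ?_ (by positivity) hK0
              exact mul_le_mul_of_nonneg_right (Real.rpow_le_rpow hMj0 hMj h3) (by positivity)
          _ = K * M ^ r * u j := by
              rw [e1, e2, hu]
              simp only
              ring
      · refine mul_le_mul' le_rfl (ENNReal.ofReal_le_ofReal ?_)
        have e1 : Q * (x₀ - η - (E * x₀ + η) / E) = -γ := by
          rw [hγ]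
          field_simp
          ring
        have e2 : M ^ (1 + Q * (1 - (x₀ - η))) = M ^ r * M ^ (Q * η) := by
          rw [← Real.rpow_add hM0, hr, hcr]
          congr 1
          ring
        have h3 : 0 ≤ 1 + Q * (1 - (x₀ - η)) := by nlinarith
        calc Km * (Mj ^ (1 + Q * (1 - (x₀ - η))) * ((2 : ℝ) ^ j) ^ (Q * (x₀ - η - (E * x₀ + η) / E)))
            ≤ K * (M ^ (1 + Q * (1 - (x₀ - η))) * ((2 : ℝ) ^ j) ^ (Q * (x₀ - η - (E * x₀ + η) / E))) := by
              refine mul_le_mul hKm' ?_ (by positivity) hK0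
              exact mul_le_mul_of_nonneg_right (Real.rpow_le_rpow hMj0 hMj h3) (by positivity)
          _ = K * M ^ r * (1 / u j) := by
              rw [e1, e2, hu, Real.rpow_neg (by positivity)]
              simp only
              rw [one_div_div]
              ring
    -- summation
    have hroot : ∀ j, (∫⁻ z, (∑ c' ∈ S j, fs T cls (l + 1) c' z) ^ q ∂μ) ^ (1 / q) ≤
        (V * ENNReal.ofReal (K * M ^ r)) ^ (1 / q) *
          ENNReal.ofReal (min (g ^ j / M ^ (Q * η / q)) (M ^ (Q * η / q) / g ^ j)) := by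
      intro j
      have h1 := ENNReal.rpow_le_rpow (hone j) (z := 1 / q) (by positivity)
      refine h1.trans (le_of_eq ?_)
      have h2 : 0 ≤ min (u j) (1 / u j) := (lt_min (hu0 j) (by have := hu0 j; positivity)).le
      rw [ENNReal.ofReal_mul (by positivity), ← mul_assoc, ENNReal.mul_rpow_of_nonneg _ _ (by positivity),
        ENNReal.ofReal_rpow_of_nonneg h2 (by positivity)]
      congr 2
      have hmono : Monotone (fun t : ℝ => (max t 0) ^ (1 / q)) := by
        intro a b hab
        exact Real.rpow_le_rpow (le_max_right _ _) (max_le_max hab le_rfl) (by positivity)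
      have h3 := hmono.map_min (a := u j) (b := 1 / u j)
      rw [max_eq_left h2, max_eq_left (hu0 j).le, max_eq_left (by have := hu0 j; positivity)] at h3
      rw [h3]
      have h4 : u j ^ (1 / q) = g ^ j / M ^ (Q * η / q) := by
        rw [hu, hg]
        simp only
        rw [Real.div_rpow (by positivity) (by positivity), ← Real.rpow_mul (by positivity),
          ← Real.rpow_mul (by positivity), ← Real.rpow_natCast, ← Real.rpow_natCast,
          ← Real.rpow_mul (by norm_num), ← Real.rpow_mul (by norm_num)]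
        congr 2
        · ring
        · ring
      have h5 : (1 / u j) ^ (1 / q) = M ^ (Q * η / q) / g ^ j := by
        rw [Real.div_rpow zero_le_one (hu0 j).le, Real.one_rpow, h4, one_div_div]
      rw [h4, h5]
    have hY : 1 ≤ M ^ (Q * η / q) := Real.one_le_rpow hM1 (by positivity)
    have hgeo := two_geom hg1 hY J
    have hmin := mink μ (Finset.range J) (g := fun j z => ∑ c' ∈ S j, fs T cls (l + 1) c' z)
      (fun j => Finset.measurable_fun_sum _ fun c' _ => fs_meas h.hT cls _ _) (s := q) (by linarith)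
    have hfin : (∫⁻ z, fs T cls l c z ^ q ∂μ) ^ (1 / q) ≤
        (V * ENNReal.ofReal (K * M ^ r)) ^ (1 / q) * ENNReal.ofReal R := by
      calc (∫⁻ z, fs T cls l c z ^ q ∂μ) ^ (1 / q)
          = (∫⁻ z, (∑ j ∈ Finset.range J, ∑ c' ∈ S j, fs T cls (l + 1) c' z) ^ q ∂μ) ^ (1 / q) := by
            simp only [← hFsum]
        _ ≤ ∑ j ∈ Finset.range J, (∫⁻ z, (∑ c' ∈ S j, fs T cls (l + 1) c' z) ^ q ∂μ) ^ (1 / q) := hmin
        _ ≤ ∑ j ∈ Finset.range J, (V * ENNReal.ofReal (K * M ^ r)) ^ (1 / q) *
              ENNReal.ofReal (min (g ^ j / M ^ (Q * η / q)) (M ^ (Q * η / q) / g ^ j)) :=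
            Finset.sum_le_sum fun j _ => hroot j
        _ = (V * ENNReal.ofReal (K * M ^ r)) ^ (1 / q) *
              ENNReal.ofReal (∑ j ∈ Finset.range J, min (g ^ j / M ^ (Q * η / q)) (M ^ (Q * η / q) / g ^ j)) := by
            rw [ENNReal.ofReal_sum_of_nonneg (fun j _ => le_min (by positivity) (by positivity)), Finset.mul_sum]
        _ ≤ _ := mul_le_mul' le_rfl (ENNReal.ofReal_le_ofReal hgeo)
    have h7 := ENNReal.rpow_le_rpow hfin hq0.le
    rw [← ENNReal.rpow_mul, one_div_mul_cancel hq0.ne', ENNReal.rpow_one,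
      ENNReal.mul_rpow_of_nonneg _ _ hq0.le, ← ENNReal.rpow_mul, one_div_mul_cancel hq0.ne',
      ENNReal.rpow_one, ENNReal.ofReal_rpow_of_nonneg hR0 hq0.le, mul_assoc,
      ← ENNReal.ofReal_mul (by positivity)] at h7
    refine h7.trans (le_of_eq ?_)
    congr 2
    ring

end Pool.Agent.W772.Fol
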