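import Pool.Agent.W772.Fol6
import Pool.Agent.W772.Fol2
import Mathlib.NumberTheory.Harmonic.Bounds

set_option autoImplicit false

/-! Families of tubes organised in a tree of slabs. -/

open MeasureTheory Set ENNReal

namespace Pool.Agent.W772.Fol

section

variable {α ι κ : Type} [MeasurableSpace α] [Fintype ι] [DecidableEq κ] {μ : Measure α}
  {T : ι → Set α} {cls : ℕ → ι → κ} {D : ℕ} {P : ℕ → κ → Set α} {V : ℝ≥0∞}

/-- The endpoint with a logarithm. -/
theorem Tr.endpoint (h : Tr μ T cls D P V) {e l : ℕ} (hl : l + (e + 1) = D) (c : κ) :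
    ∫⁻ y, fs T cls l c y ^ (1 + 1 / ((e : ℝ) + 1)) ∂μ ≤
      V * ENNReal.ofReal (1 + Real.log (Fintype.card ι)) * (sz cls l c : ℝ≥0∞) := by
  refine tree μ h.hT cls D h.hn h.hinj h.hP h.hTP ?_ e l hl c
  intro l hl i
  have h1 := rank_sum (V := V) (fun c' => μ (T i ∩ P (l + 1) c')) (G := fun x => x) monotone_id
    (ch cls l (cls l i)).card (ch cls l (cls l i)) rfl (fun x _ => h.hW l hl i _)
  refine h1.trans ?_
  have h2 : ∑ k ∈ Finset.range (ch cls l (cls l i)).card, V / ((k : ℝ≥0∞) + 1) =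
      V * ENNReal.ofReal (∑ k ∈ Finset.range (ch cls l (cls l i)).card, 1 / ((k : ℝ) + 1)) := by
    rw [ENNReal.ofReal_sum_of_nonneg (fun k _ => by positivity), Finset.mul_sum]
    refine Finset.sum_congr rfl fun k _ => ?_
    rw [ENNReal.ofReal_div_of_pos (by positivity), ENNReal.ofReal_one,
      ENNReal.ofReal_add (by positivity) (by positivity), ENNReal.ofReal_natCast, ENNReal.ofReal_one, mul_one_div]
  rw [h2]
  refine mul_le_mul' le_rfl (ENNReal.ofReal_le_ofReal ?_)
  have h3 : (ch cls l (cls l i)).card ≤ Fintype.card ι := Finset.card_image_le.trans (Finset.card_le_univ _)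
  have h4 : ∑ k ∈ Finset.range (ch cls l (cls l i)).card, 1 / ((k : ℝ) + 1) ≤
      ∑ k ∈ Finset.range (Fintype.card ι), 1 / ((k : ℝ) + 1) :=
    Finset.sum_le_sum_of_subset_of_nonneg (Finset.range_mono h3) (fun _ _ _ => by positivity)
  refine h4.trans ?_
  have h5 := harmonic_le_one_add_log (Fintype.card ι)
  refine le_trans (le_of_eq ?_) h5
  unfold harmonic
  push_cast
  refine Finset.sum_congr rfl fun k _ => ?_
  rw [one_div]

end

/-- The volume of a tube. -/
theorem vol_tube {m : ℕ} {δ : ℝ} (hδ : 0 < δ) (hδ1 : δ < 1) {e : Eu m} (a : Eu m) (he : ‖e‖ = 1) :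
    volume (tube δ e a) ≤ ENNReal.ofReal ((2 * δ) ^ m * 4) := by
  have h1 : tube δ e a ⊆ tube δ e a ∩ slab (1 / 2) e (inner ℝ a e) := by
    intro y hy
    refine ⟨hy, ?_⟩
    show |(inner ℝ y e : ℝ) - inner ℝ a e| ≤ 1 / 2
    rw [← inner_sub_left]
    exact hy.1
  refine (measure_mono h1).trans ((vol_inter hδ (by norm_num) he he _).trans ?_)
  apply ENNReal.ofReal_le_ofReal
  apply mul_le_mul_of_nonneg_left _ (by positivity)
  have h2 : (inner ℝ e e : ℝ) = 1 := by rw [real_inner_self_eq_norm_sq, he]; norm_num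
  rw [h2, abs_one, max_eq_left hδ1.le]
  linarith

/-- The volume of the intersection of two tubes. -/
theorem vol_two {m : ℕ} {δ : ℝ} (hδ : 0 < δ) (hδ1 : δ < 1) {e e' : Eu m} (a a' : Eu m) (he : ‖e‖ = 1)
    (he' : ‖e'‖ = 1) :
    volume (tube δ e a ∩ tube δ e' a') ≤
      ENNReal.ofReal ((2 * δ) ^ m * (4 * δ / max ‖e' - (inner ℝ e' e : ℝ) • e‖ δ)) := by
  set w : Eu m := e - (inner ℝ e e' : ℝ) • e' with hw
  have hee : (inner ℝ e e : ℝ) = 1 := by rw [real_inner_self_eq_norm_sq, he]; norm_num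
  have hee' : (inner ℝ e' e' : ℝ) = 1 := by rw [real_inner_self_eq_norm_sq, he']; norm_num
  have hcomm : (inner ℝ e' e : ℝ) = inner ℝ e e' := real_inner_comm _ _
  have hw1 : ‖w‖ ^ 2 = 1 - (inner ℝ e e' : ℝ) ^ 2 := by
    rw [← real_inner_self_eq_norm_sq, hw, inner_sub_left, inner_sub_right, inner_sub_right,
      inner_smul_left, inner_smul_right, inner_smul_left, inner_smul_right, hee, hee', hcomm]
    simp only [conj_trivial]
    ring
  have hw2 : ‖e' - (inner ℝ e' e : ℝ) • e‖ ^ 2 = 1 - (inner ℝ e e' : ℝ) ^ 2 := by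
    rw [← real_inner_self_eq_norm_sq, inner_sub_left, inner_sub_right, inner_sub_right,
      inner_smul_left, inner_smul_right, inner_smul_left, inner_smul_right, hee, hee', hcomm]
    simp only [conj_trivial]
    ring
  have hww : ‖e' - (inner ℝ e' e : ℝ) • e‖ = ‖w‖ := by
    rw [← abs_of_nonneg (norm_nonneg (e' - (inner ℝ e' e : ℝ) • e)), ← abs_of_nonneg (norm_nonneg w),
      ← sq_eq_sq_iff_abs_eq_abs, hw1, hw2]
  rw [hww]
  by_cases h0 : w = 0
  · rw [h0, norm_zero, max_eq_right hδ.le]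
    refine (measure_mono inter_subset_left).trans ((vol_tube hδ hδ1 a he).trans (le_of_eq ?_))
    congr 2
    field_simp
  · have hw0 : 0 < ‖w‖ := norm_pos_iff.2 h0
    set ν : Eu m := (‖w‖⁻¹ : ℝ) • w with hν
    have hν1 : ‖ν‖ = 1 := by
      rw [hν, norm_smul, norm_inv, norm_norm, inv_mul_cancel₀ hw0.ne']
    have hwe' : (inner ℝ w e' : ℝ) = 0 := by
      rw [hw, inner_sub_left, inner_smul_left, hee']
      simp
    have hνe' : (inner ℝ e' ν : ℝ) = 0 := by
      rw [hν, inner_smul_right, real_inner_comm, hwe', mul_zero]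
    have hewν : |(inner ℝ e ν : ℝ)| = ‖w‖ := by
      have h1 : (inner ℝ e w : ℝ) = ‖w‖ ^ 2 := by
        have : e = w + (inner ℝ e e' : ℝ) • e' := by rw [hw]; abel
        conv_lhs => rw [this]
        rw [inner_add_left, inner_smul_left, real_inner_comm w e', hwe', mul_zero, add_zero,
          real_inner_self_eq_norm_sq]
      rw [hν, inner_smul_right, h1]
      rw [abs_of_nonneg (by positivity)]
      field_simp
    have hsub : tube δ e' a' ⊆ slab δ ν (inner ℝ a' ν) := by
      intro y hy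
      show |(inner ℝ y ν : ℝ) - inner ℝ a' ν| ≤ δ
      rw [← inner_sub_left]
      have h1 : (inner ℝ (y - a') ν : ℝ) = inner ℝ ((y - a') - (inner ℝ (y - a') e' : ℝ) • e') ν := by
        rw [inner_sub_left (y - a') ((inner ℝ (y - a') e' : ℝ) • e') ν, inner_smul_left, hνe', mul_zero, sub_zero]
      rw [h1]
      refine (abs_real_inner_le_norm _ _).trans ?_
      rw [hν1, mul_one]
      exact hy.2
    refine (measure_mono (inter_subset_inter_right _ hsub)).trans
      ((vol_inter hδ hδ.le he hν1 _).trans (le_of_eq ?_))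
    rw [hewν]
    congr 2
    ring

/-- From a counting condition to a weak type condition. -/
theorem weak_of_count {κ : Type} [DecidableEq κ] {δ W A : ℝ} (hδ : 0 < δ) (hW : 0 ≤ W) (hA : 0 ≤ A)
    (S : Finset κ) (β : κ → ℝ) (v : κ → ℝ≥0∞)
    (hv : ∀ c ∈ S, v c ≤ ENNReal.ofReal (W * (δ / max (β c) δ)))
    (hc : ∀ r, δ ≤ r → ((S.filter (fun c => β c ≤ r)).card : ℝ) ≤ A * (r / δ)) (t : ℝ≥0∞) :
    ((S.filter (fun c => t ≤ v c)).card : ℝ≥0∞) * t ≤ ENNReal.ofReal (A * W) := by
  rcases (S.filter (fun c => t ≤ v c)).eq_empty_or_nonempty with he | ⟨c₀, hc₀⟩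
  · rw [he, Finset.card_empty, Nat.cast_zero, zero_mul]
    exact zero_le
  have hc₀' := Finset.mem_filter.1 hc₀
  have htop : t ≠ ⊤ := fun h => by
    have := hc₀'.2.trans (hv c₀ hc₀'.1)
    rw [h, top_le_iff] at this
    exact ENNReal.ofReal_ne_top this
  rcases eq_or_ne t 0 with h0 | h0
  · rw [h0, mul_zero]
    exact zero_le
  have ht : 0 < t.toReal := ENNReal.toReal_pos h0 htop
  have hkey : ∀ c ∈ S.filter (fun c => t ≤ v c), max (β c) δ ≤ W * δ / t.toReal := by
    intro c hcc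
    have h1 := Finset.mem_filter.1 hcc
    have h2 := h1.2.trans (hv c h1.1)
    have hm : 0 < max (β c) δ := lt_max_of_lt_right hδ
    have h3 : t.toReal ≤ W * (δ / max (β c) δ) :=
      ENNReal.toReal_le_of_le_ofReal (by positivity) h2
    rw [le_div_iff₀ ht]
    rw [← mul_div_assoc, le_div_iff₀ hm] at h3
    linarith
  have hr : δ ≤ W * δ / t.toReal := (le_max_right _ _).trans (hkey c₀ hc₀)
  have h4 := hc _ hr
  have h5 : ((S.filter (fun c => t ≤ v c)).card : ℝ) ≤ A * (W * δ / t.toReal / δ) := by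
    refine le_trans ?_ h4
    have : (S.filter (fun c => t ≤ v c)).card ≤ (S.filter (fun c => β c ≤ W * δ / t.toReal)).card := by
      apply Finset.card_le_card
      intro c hcc
      exact Finset.mem_filter.2 ⟨(Finset.mem_filter.1 hcc).1, (le_max_left _ _).trans (hkey c hcc)⟩
    exact_mod_cast this
  have h7 : ((S.filter (fun c => t ≤ v c)).card : ℝ≥0∞) * t =
      ENNReal.ofReal (((S.filter (fun c => t ≤ v c)).card : ℝ) * t.toReal) := by
    rw [ENNReal.ofReal_mul (by positivity), ENNReal.ofReal_natCast, ENNReal.ofReal_toReal htop]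
  rw [h7]
  apply ENNReal.ofReal_le_ofReal
  have h6 : W * δ / t.toReal / δ = W / t.toReal := by field_simp
  rw [h6, ← mul_div_assoc, le_div_iff₀ ht] at h5
  exact h5

end Pool.Agent.W772.Fol
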