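import Pool.Agent.W772.Fol7

set_option autoImplicit false

/-! Families of tubes organised in a tree of slabs: the estimate. -/

open MeasureTheory Set ENNReal

namespace Pool.Agent.W772.Fol

/-- A family of `δ`-tubes of `ℝ^(m+1)` with directions `e i` and centres `a i` is foliated by slabs.

`g l i` (`l < m`) is the label of the group of generation `l` that contains the tube `i`. -/
structure Foliated {m : ℕ} {ι : Type} (K A δ : ℝ) (e a : ι → Eu m) (g : ℕ → ι → ℕ)
    (ν : ℕ → ℕ → Eu m) (s : ℕ → ℕ → ℝ) : Prop where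
  /-- generation `0` is one group -/
  root : ∀ i i', g 0 i = g 0 i'
  /-- the groups of generation `l + 1` refine those of generation `l` -/
  nested : ∀ l, l + 1 < m → ∀ i i', g (l + 1) i = g (l + 1) i' → g l i = g l i'
  /-- the group `c` of generation `l + 1` has a unit normal vector `ν (l + 1) c` ... -/
  unit : ∀ l, l + 1 < m → ∀ i, ‖ν (l + 1) (g (l + 1) i)‖ = 1
  /-- ... and its tubes lie in one slab orthogonal to it -/
  direction : ∀ l, l + 1 < m → ∀ i, |inner ℝ (e i) (ν (l + 1) (g (l + 1) i))| ≤ K * δ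
  position : ∀ l, l + 1 < m → ∀ i,
    |inner ℝ (a i) (ν (l + 1) (g (l + 1) i)) - s (l + 1) (g (l + 1) i)| ≤ K * δ
  /-- inside a group few subgroups are nearly parallel to a given tube of the group -/
  transversal : ∀ l, l + 1 < m → ∀ i, ∀ r : ℝ, δ ≤ r →
    ({c : ℕ | (∃ i', g l i' = g l i ∧ g (l + 1) i' = c) ∧ |inner ℝ (e i) (ν (l + 1) c)| ≤ r}.ncard : ℝ) ≤
      A * (r / δ)
  /-- inside a group of the last generation few tubes are nearly parallel to a given one -/
  separated : ∀ i, ∀ r : ℝ, δ ≤ r →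
    ({i' : ι | g (m - 1) i' = g (m - 1) i ∧ ‖e i' - (inner ℝ (e i') (e i) : ℝ) • e i‖ ≤ r}.ncard : ℝ) ≤
      A * (r / δ)

/-- The labels. -/
def lab {ι : Type} (m : ℕ) (g : ℕ → ι → ℕ) (l : ℕ) (i : ι) : ℕ ⊕ ι :=
  if l < m then Sum.inl (g l i) else Sum.inr i

/-- The sets attached to the labels. -/
def labP {m : ℕ} {ι : Type} (K δ : ℝ) (e a : ι → Eu m) (ν : ℕ → ℕ → Eu m) (s : ℕ → ℕ → ℝ) (l : ℕ) :
    ℕ ⊕ ι → Set (Eu m)
  | Sum.inl c => slab ((1 + 2 * K) * δ) (ν l c) (s l c)
  | Sum.inr i => tube δ (e i) (a i)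

theorem tube_sub_slab {m : ℕ} {K δ : ℝ} (hK : 0 ≤ K) (hδ : 0 < δ) {e a ν : Eu m} {s : ℝ} (hν : ‖ν‖ = 1)
    (h1 : |(inner ℝ e ν : ℝ)| ≤ K * δ) (h2 : |(inner ℝ a ν : ℝ) - s| ≤ K * δ) :
    tube δ e a ⊆ slab ((1 + 2 * K) * δ) ν s := by
  intro y hy
  show |(inner ℝ y ν : ℝ) - s| ≤ (1 + 2 * K) * δ
  set τ : ℝ := inner ℝ (y - a) e with hτ
  set w : Eu m := (y - a) - τ • e with hw
  have hτ1 : |τ| ≤ 1 / 2 := hy.1
  have hw1 : ‖w‖ ≤ δ := hy.2
  have e1 : (inner ℝ y ν : ℝ) - s = (inner ℝ a ν - s) + τ * inner ℝ e ν + inner ℝ w ν := by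
    have h3 : y = a + τ • e + w := by rw [hw]; abel
    conv_lhs => rw [h3]
    rw [inner_add_left, inner_add_left, inner_smul_left]
    simp only [conj_trivial]
    ring
  have h3 : |(inner ℝ w ν : ℝ)| ≤ δ := by
    refine (abs_real_inner_le_norm w ν).trans ?_
    rw [hν, mul_one]
    exact hw1
  have h4 : |τ * (inner ℝ e ν : ℝ)| ≤ K * δ := by
    rw [abs_mul]
    have h0 : 0 ≤ |(inner ℝ e ν : ℝ)| := abs_nonneg _
    nlinarith [mul_nonneg hK hδ.le, abs_nonneg τ]
  rw [e1]
  refine (abs_add_le _ _).trans ?_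
  have h5 := abs_add_le ((inner ℝ a ν : ℝ) - s) (τ * inner ℝ e ν)
  linarith

theorem Foliated.tr {m : ℕ} {ι : Type} [Fintype ι] [DecidableEq ι] {K A δ : ℝ} (hK : 0 ≤ K)
    (hA : 0 ≤ A) (hδ : 0 < δ) (hδ1 : δ < 1) {e a : ι → Eu m} {g : ℕ → ι → ℕ} {ν : ℕ → ℕ → Eu m}
    {s : ℕ → ℕ → ℝ} (he : ∀ i, ‖e i‖ = 1) (h : Foliated K A δ e a g ν s) :
    Tr volume (fun i => tube δ (e i) (a i)) (lab m g) m (labP K δ e a ν s)
      (ENNReal.ofReal (A * ((2 * δ) ^ m * (4 * (1 + K))))) where
  hT := fun i => (tube_closed _ _ _).measurableSet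
  hn := by
    intro l hl i i' hii
    unfold lab at hii ⊢
    rw [if_pos hl, if_pos hl]
    by_cases h1 : l + 1 < m
    · rw [if_pos h1, if_pos h1] at hii
      rw [h.nested l h1 i i' (Sum.inl.inj hii)]
    · rw [if_neg h1, if_neg h1] at hii
      rw [Sum.inr.inj hii]
  hinj := by
    intro i i' hii
    unfold lab at hii
    rw [if_neg (lt_irrefl m), if_neg (lt_irrefl m)] at hii
    exact Sum.inr.inj hii
  hP := by
    intro l c
    cases c with
    | inl c => exact (slab_closed _ _ _).measurableSet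
    | inr i => exact (tube_closed _ _ _).measurableSet
  hTP := by
    intro l hl i
    unfold lab
    by_cases h1 : l + 1 < m
    · rw [if_pos h1]
      exact tube_sub_slab hK hδ (h.unit l h1 i) (h.direction l h1 i) (h.position l h1 i)
    · rw [if_neg h1]
      exact Subset.refl _
  hW := by
    intro l hl i t
    set W : ℝ := (2 * δ) ^ m * (4 * (1 + K)) with hW
    have hW0 : 0 ≤ W := by positivity
    by_cases h1 : l + 1 < m
    · -- subgroups
      set S : Finset ℕ := (Finset.univ.filter (fun i' => g l i' = g l i)).image (g (l + 1)) with hS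
      have hch : ch (lab m g) l (lab m g l i) = S.image (Sum.inl : ℕ → ℕ ⊕ ι) := by
        unfold ch lab
        rw [if_pos hl]
        simp only [if_pos hl, if_pos h1]
        rw [hS, Finset.image_image]
        ext c
        simp only [Finset.mem_image, Finset.mem_filter, Finset.mem_univ, true_and, Sum.inl.injEq,
          Function.comp_apply]
      have hcard : ((ch (lab m g) l (lab m g l i)).filter (fun c' =>
          t ≤ volume (tube δ (e i) (a i) ∩ labP K δ e a ν s (l + 1) c'))).card =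
          (S.filter (fun c => t ≤ volume (tube δ (e i) (a i) ∩
            slab ((1 + 2 * K) * δ) (ν (l + 1) c) (s (l + 1) c)))).card := by
        rw [hch, Finset.filter_image, Finset.card_image_of_injective _ Sum.inl_injective]
        rfl
      rw [hcard]
      refine weak_of_count hδ hW0 hA S (fun c => |inner ℝ (e i) (ν (l + 1) c)|)
        (fun c => volume (tube δ (e i) (a i) ∩ slab ((1 + 2 * K) * δ) (ν (l + 1) c) (s (l + 1) c))) ?_ ?_ t
      · intro c hc
        obtain ⟨i', hi', rfl⟩ := Finset.mem_image.1 hc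
        refine (vol_inter hδ (by positivity) (he i) (h.unit l h1 i') _).trans (le_of_eq ?_)
        congr 1
        rw [hW]
        have hmx : 0 < max |inner ℝ (e i) (ν (l + 1) (g (l + 1) i'))| δ := lt_max_of_lt_right hδ
        field_simp
        ring
      · intro r hr
        refine le_trans (le_of_eq ?_) (h.transversal l h1 i r hr)
        rw [← Set.ncard_coe_finset]
        congr 2
        ext c
        simp only [hS, Finset.coe_filter, Finset.mem_image, Finset.mem_filter, Finset.mem_univ, true_and,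
          mem_ofPred_eq]
    · -- single tubes
      have hlm : l = m - 1 := by omega
      subst hlm
      set S : Finset ι := Finset.univ.filter (fun i' => g (m - 1) i' = g (m - 1) i) with hS
      have hch : ch (lab m g) (m - 1) (lab m g (m - 1) i) = S.image (Sum.inr : ι → ℕ ⊕ ι) := by
        unfold ch lab
        rw [if_pos hl]
        simp only [if_pos hl, if_neg h1]
        rw [hS]
        ext c
        simp only [Finset.mem_image, Finset.mem_filter, Finset.mem_univ, true_and, Sum.inl.injEq]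
      have hcard : ((ch (lab m g) (m - 1) (lab m g (m - 1) i)).filter (fun c' =>
          t ≤ volume (tube δ (e i) (a i) ∩ labP K δ e a ν s (m - 1 + 1) c'))).card =
          (S.filter (fun i' => t ≤ volume (tube δ (e i) (a i) ∩ tube δ (e i') (a i')))).card := by
        rw [hch, Finset.filter_image, Finset.card_image_of_injective _ Sum.inr_injective]
        rfl
      rw [hcard]
      refine weak_of_count hδ hW0 hA S (fun i' => ‖e i' - (inner ℝ (e i') (e i) : ℝ) • e i‖)
        (fun i' => volume (tube δ (e i) (a i) ∩ tube δ (e i') (a i'))) ?_ ?_ t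
      · intro i' _
        refine (vol_two hδ hδ1 (a i) (a i') (he i) (he i')).trans (ENNReal.ofReal_le_ofReal ?_)
        have hmx : 0 < max ‖e i' - (inner ℝ (e i') (e i) : ℝ) • e i‖ δ := lt_max_of_lt_right hδ
        rw [hW, mul_assoc, mul_div_assoc]
        refine mul_le_mul_of_nonneg_left ?_ (by positivity)
        refine mul_le_mul_of_nonneg_right ?_ (by positivity)
        linarith
      · intro r hr
        refine le_trans (le_of_eq ?_) (h.separated i r hr)
        rw [← Set.ncard_coe_finset]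
        congr 2
        ext i'
        simp only [hS, Finset.coe_filter, Finset.mem_filter, Finset.mem_univ, true_and, mem_ofPred_eq]

theorem fs_root {m : ℕ} (hm : 1 ≤ m) {ι : Type} [Fintype ι] [DecidableEq ι] {δ : ℝ}
    {e a : ι → Eu m} {g : ℕ → ι → ℕ} (hr : ∀ i i', g 0 i = g 0 i') (i₀ : ι) :
    (∀ y, fs (fun i => tube δ (e i) (a i)) (lab m g) 0 (lab m g 0 i₀) y =
      ∑ i, (tube δ (e i) (a i)).indicator (fun _ => 1) y) ∧ sz (lab m g) 0 (lab m g 0 i₀) = Fintype.card ι := by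
  have h1 : Finset.univ.filter (fun i => lab m g 0 i = lab m g 0 i₀) = Finset.univ := by
    apply Finset.filter_true_of_mem
    intro i _
    unfold lab
    rw [if_pos (by omega), if_pos (by omega), hr i i₀]
  constructor
  · intro y
    unfold fs
    rw [h1]
  · unfold sz
    rw [h1, Finset.card_univ]

/-- The full range. -/
theorem main (m : ℕ) (hm : 1 ≤ m) (q : ℝ) (hq : ((m : ℝ) + 1) / m < q) :
    ∃ C : ℝ, ∀ K A δ : ℝ, 0 ≤ K → 0 ≤ A → 0 < δ → δ < 1 → ∀ (ι : Type) [Fintype ι] (e a : ι → Eu m)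
      (g : ℕ → ι → ℕ) (ν : ℕ → ℕ → Eu m) (s : ℕ → ℕ → ℝ), (∀ i, ‖e i‖ = 1) → Foliated K A δ e a g ν s →
      (∫⁻ y, (∑ i, (tube δ (e i) (a i)).indicator (fun _ => 1) y) ^ q) ^ (1 / q) ≤
        ENNReal.ofReal (C * (A * (1 + K)) ^ (1 / q) * δ ^ ((m : ℝ) / q) *
          (Fintype.card ι : ℝ) ^ (1 - 1 / (q * m))) := by
  classical
  have hm0 : (0 : ℝ) < m := by exact_mod_cast hm
  obtain ⟨d, rfl⟩ : ∃ d, m = d + 1 := ⟨m - 1, by omega⟩
  have hq1 : 1 + 1 / ((d : ℝ) + 1) < q := by
    have : ((((d + 1 : ℕ) : ℝ)) + 1) / ((d + 1 : ℕ) : ℝ) = 1 + 1 / ((d : ℝ) + 1) := by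
      push_cast
      field_simp
    rw [this] at hq
    exact hq
  have hq0 : 0 < q := by
    have : 0 < 1 / ((d : ℝ) + 1) := by positivity
    linarith
  obtain ⟨C, hC, hmain⟩ := noloss d q hq1
  refine ⟨(2 ^ (d + 1) * 4 * C) ^ (1 / q), ?_⟩
  intro K A δ hK hA hδ hδ1 ι _ e a g ν s he h
  rcases isEmpty_or_nonempty ι with hι | ⟨⟨i₀⟩⟩
  · simp only [Finset.univ_eq_empty, Finset.sum_empty]
    rw [ENNReal.zero_rpow_of_pos hq0, lintegral_zero, ENNReal.zero_rpow_of_pos (by positivity)]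
    exact zero_le
  have htr := h.tr hK hA hδ hδ1 he
  have h1 := hmain (Eu (d + 1)) ι (ℕ ⊕ ι) volume _ _ _ _ _ htr 0 (by omega) (lab (d + 1) g 0 i₀)
  obtain ⟨h2, h3⟩ := fs_root (δ := δ) (e := e) (a := a) hm h.root i₀
  simp only [h2, h3] at h1
  have h4 := ENNReal.rpow_le_rpow h1 (z := 1 / q) (by positivity)
  refine h4.trans ?_
  rw [← ENNReal.ofReal_mul (by positivity), ENNReal.ofReal_rpow_of_nonneg (by positivity) (by positivity)]
  apply ENNReal.ofReal_le_ofReal
  apply le_of_eq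
  have h5 : A * ((2 * δ) ^ (d + 1) * (4 * (1 + K))) * (C * (Fintype.card ι : ℝ) ^ (q - 1 / ((d : ℝ) + 1))) =
      (2 ^ (d + 1) * 4 * C) * (A * (1 + K)) * δ ^ (d + 1) * (Fintype.card ι : ℝ) ^ (q - 1 / ((d : ℝ) + 1)) := by
    rw [mul_pow]
    ring
  rw [h5, Real.mul_rpow (by positivity) (by positivity), Real.mul_rpow (by positivity) (by positivity),
    Real.mul_rpow (by positivity) (by positivity)]
  congr 1
  · congr 1
    rw [← Real.rpow_natCast, ← Real.rpow_mul hδ.le]
    congr 1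
    ring
  · rw [← Real.rpow_mul (by positivity)]
    congr 1
    push_cast
    field_simp

/-- The endpoint. -/
theorem main_endpoint (m : ℕ) (hm : 1 ≤ m) (K A δ : ℝ) (hK : 0 ≤ K) (hA : 0 ≤ A) (hδ : 0 < δ) (hδ1 : δ < 1)
    (ι : Type) [Fintype ι] (e a : ι → Eu m)
    (g : ℕ → ι → ℕ) (ν : ℕ → ℕ → Eu m) (s : ℕ → ℕ → ℝ) (he : ∀ i, ‖e i‖ = 1) (h : Foliated K A δ e a g ν s) :
      ∫⁻ y, (∑ i, (tube δ (e i) (a i)).indicator (fun _ => 1) y) ^ (((m : ℝ) + 1) / m) ≤
        ENNReal.ofReal (2 ^ (m + 2) * (A * (1 + K)) * (1 + Real.log (Fintype.card ι)) * δ ^ m *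
          (Fintype.card ι : ℝ)) := by
  classical
  obtain ⟨d, rfl⟩ : ∃ d, m = d + 1 := ⟨m - 1, by omega⟩
  have hexp : ((((d + 1 : ℕ) : ℝ)) + 1) / ((d + 1 : ℕ) : ℝ) = 1 + 1 / ((d : ℝ) + 1) := by
    push_cast
    field_simp
  rw [hexp]
  have hq0 : 0 < 1 + 1 / ((d : ℝ) + 1) := by positivity
  rcases isEmpty_or_nonempty ι with hι | ⟨⟨i₀⟩⟩
  · simp only [Finset.univ_eq_empty, Finset.sum_empty]
    rw [ENNReal.zero_rpow_of_pos hq0, lintegral_zero]
    exact zero_le
  have htr := h.tr hK hA hδ hδ1 he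
  have h1 := htr.endpoint (e := d) (l := 0) (by omega) (lab (d + 1) g 0 i₀)
  obtain ⟨h2, h3⟩ := fs_root (δ := δ) (e := e) (a := a) hm h.root i₀
  simp only [h2, h3] at h1
  refine h1.trans (le_of_eq ?_)
  have hlog : 0 ≤ Real.log (Fintype.card ι) := Real.log_natCast_nonneg _
  rw [← ENNReal.ofReal_natCast, ← ENNReal.ofReal_mul (by positivity), ← ENNReal.ofReal_mul (by positivity)]
  congr 1
  rw [mul_pow, pow_succ 2 (d + 2), pow_succ 2 (d + 1)]
  ring

end Pool.Agent.W772.Fol
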