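import Pool.Agent.W772.Fol8

set_option autoImplicit false

/-! Unions of families of tubes organised in trees of slabs. -/

open MeasureTheory Set ENNReal

namespace Pool.Agent.W772.Fol

/-- The `L^q` norm of the sum of the indicators of the tubes. -/
noncomputable def normSum {m : ℕ} {ι : Type} [Fintype ι] (q δ : ℝ) (e a : ι → Eu m) : ℝ≥0∞ :=
  (∫⁻ y, (∑ i, (tube δ (e i) (a i)).indicator (fun _ => 1) y) ^ q) ^ (1 / q)

/-- Hölder for a finite sum of powers. -/
theorem sum_pow_le {N : ℕ} (x : Fin N → ℝ) (hx : ∀ c, 0 ≤ x c) {t : ℝ} (h0 : 0 < t) (h1 : t ≤ 1) :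
    ∑ c, x c ^ t ≤ (N : ℝ) ^ (1 - t) * (∑ c, x c) ^ t := by
  rcases Nat.eq_zero_or_pos N with hN | hN
  · subst hN
    simp only [Finset.univ_eq_empty, Finset.sum_empty]
    positivity
  have hN0 : (0 : ℝ) < N := by exact_mod_cast hN
  have hconc := (Real.concaveOn_rpow h0.le h1).le_map_sum (t := Finset.univ) (w := fun _ : Fin N => (N : ℝ)⁻¹)
    (p := x) (fun _ _ => by positivity) (by simp; field_simp) (fun c _ => hx c)
  simp only [smul_eq_mul] at hconc
  rw [← Finset.mul_sum, ← Finset.mul_sum, Real.mul_rpow (by positivity) (Finset.sum_nonneg fun c _ => hx c)] at hconc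
  have h2 := mul_le_mul_of_nonneg_left hconc hN0.le
  rw [← mul_assoc, mul_inv_cancel₀ hN0.ne', one_mul, ← mul_assoc] at h2
  refine h2.trans (le_of_eq ?_)
  congr 1
  rw [Real.inv_rpow hN0.le, Real.rpow_sub hN0, Real.rpow_one]
  rfl

/-- Unions. -/
theorem union_bound {m : ℕ} {ι : Type} [Fintype ι] {q δ R t : ℝ} (hq : 1 ≤ q) (hR : 0 ≤ R) (h0 : 0 < t) (h1 : t ≤ 1)
    (e a : ι → Eu m) (N : ℕ) (k : ι → Fin N)
    (h : ∀ c, normSum q δ (fun i : {i // k i = c} => e i) (fun i => a i) ≤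
      ENNReal.ofReal (R * (Fintype.card {i // k i = c} : ℝ) ^ t)) :
    normSum q δ e a ≤ ENNReal.ofReal ((N : ℝ) ^ (1 - t) * (R * (Fintype.card ι : ℝ) ^ t)) := by
  classical
  have e1 : ∀ y, ∑ i, (tube δ (e i) (a i)).indicator (fun _ => (1 : ℝ≥0∞)) y =
      ∑ c, ∑ i : {i // k i = c}, (tube δ (e i) (a i)).indicator (fun _ => (1 : ℝ≥0∞)) y := by
    intro y
    rw [← Finset.sum_fiberwise (s := Finset.univ) (g := k)]
    refine Finset.sum_congr rfl fun c _ => ?_
    rw [Finset.sum_subtype (Finset.univ.filter (fun i => k i = c)) (p := fun i => k i = c) (by simp)]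
  have hmin := mink (volume : Measure (Eu m)) (Finset.univ : Finset (Fin N))
    (g := fun c y => ∑ i : {i // k i = c}, (tube δ (e i) (a i)).indicator (fun _ => (1 : ℝ≥0∞)) y)
    (fun c => Finset.measurable_fun_sum _ fun i _ =>
      measurable_const.indicator (tube_closed _ _ _).measurableSet) hq
  calc normSum q δ e a = (∫⁻ y, (∑ c, ∑ i : {i // k i = c},
        (tube δ (e i) (a i)).indicator (fun _ => (1 : ℝ≥0∞)) y) ^ q) ^ (1 / q) := by
        unfold normSum
        simp only [e1]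
    _ ≤ ∑ c, normSum q δ (fun i : {i // k i = c} => e i) (fun i => a i) := hmin
    _ ≤ ∑ c, ENNReal.ofReal (R * (Fintype.card {i // k i = c} : ℝ) ^ t) := Finset.sum_le_sum fun c _ => h c
    _ = ENNReal.ofReal (∑ c, R * (Fintype.card {i // k i = c} : ℝ) ^ t) := by
        rw [ENNReal.ofReal_sum_of_nonneg (fun c _ => by positivity)]
    _ ≤ _ := by
        apply ENNReal.ofReal_le_ofReal
        rw [← Finset.mul_sum]
        have h2 := sum_pow_le (fun c => (Fintype.card {i // k i = c} : ℝ)) (fun c => by positivity) h0 h1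
        have h3 : ∑ c, (Fintype.card {i // k i = c} : ℝ) = Fintype.card ι := by
          rw [← Nat.cast_sum]
          congr 1
          rw [← Fintype.card_sigma]
          exact Fintype.card_congr (Equiv.sigmaFiberEquiv k)
        rw [h3] at h2
        calc R * ∑ c, (Fintype.card {i // k i = c} : ℝ) ^ t
            ≤ R * ((N : ℝ) ^ (1 - t) * (Fintype.card ι : ℝ) ^ t) := mul_le_mul_of_nonneg_left h2 hR
          _ = _ := by ring

/-- The family is a union of `N` foliated families. -/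
def UnionFoliated {m : ℕ} {ι : Type} (N : ℕ) (K A δ : ℝ) (e a : ι → Eu m) : Prop :=
  ∃ k : ι → Fin N, ∀ c, ∃ (g : ℕ → {i // k i = c} → ℕ) (ν : ℕ → ℕ → Eu m) (s : ℕ → ℕ → ℝ),
    Foliated K A δ (fun i : {i // k i = c} => e i) (fun i => a i) g ν s

theorem final (m : ℕ) (hm : 1 ≤ m) (q : ℝ) (hq : ((m : ℝ) + 1) / m < q) :
    ∃ C : ℝ, ∀ (N : ℕ) (K A δ : ℝ), 0 ≤ K → 0 ≤ A → 0 < δ → δ < 1 → ∀ (ι : Type) [Fintype ι]
      (e a : ι → Eu m), (∀ i, ‖e i‖ = 1) → UnionFoliated N K A δ e a →
      normSum q δ e a ≤ ENNReal.ofReal (C * (A * (1 + K)) ^ (1 / q) * (N : ℝ) ^ (1 / (q * m)) *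
        δ ^ ((m : ℝ) / q) * (Fintype.card ι : ℝ) ^ (1 - 1 / (q * m))) := by
  obtain ⟨C, hC⟩ := main m hm q hq
  have hm0 : (0 : ℝ) < m := by exact_mod_cast hm
  have hqm : 1 < q * m := by
    rw [div_lt_iff₀ hm0] at hq
    linarith
  have hq1 : 1 ≤ q := by
    have : 1 ≤ ((m : ℝ) + 1) / m := by
      rw [le_div_iff₀ hm0]
      linarith
    linarith
  have hq0 : 0 < q := by linarith
  refine ⟨max C 0, ?_⟩
  intro N K A δ hK hA hδ hδ1 ι _ e a he hU
  classical
  obtain ⟨k, hk⟩ := hU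
  have hR : 0 ≤ max C 0 * (A * (1 + K)) ^ (1 / q) * δ ^ ((m : ℝ) / q) := by
    have : 0 ≤ max C 0 := le_max_right _ _
    positivity
  have h := union_bound (t := 1 - 1 / (q * m)) hq1 hR
    (by
      have : 1 / (q * m) < 1 := by rw [div_lt_one (by linarith)]; exact hqm
      linarith)
    (by
      have : 0 < 1 / (q * m) := by positivity
      linarith) e a N k (fun c => by
      obtain ⟨g, ν, s, hF⟩ := hk c
      refine (hC K A δ hK hA hδ hδ1 _ _ _ g ν s (fun i => he i) hF).trans (ENNReal.ofReal_le_ofReal ?_)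
      refine mul_le_mul_of_nonneg_right ?_ (by positivity)
      refine mul_le_mul_of_nonneg_right ?_ (by positivity)
      exact mul_le_mul_of_nonneg_right (le_max_left _ _) (by positivity))
  refine h.trans (le_of_eq ?_)
  congr 1
  have e1 : 1 - (1 - 1 / (q * m)) = 1 / (q * m) := by ring
  rw [e1]
  ring

theorem final_endpoint (m : ℕ) (hm : 1 ≤ m) (q : ℝ) (hq : q = ((m : ℝ) + 1) / m) :
    ∃ C : ℝ, ∀ (N : ℕ) (K A δ : ℝ), 0 ≤ K → 0 ≤ A → 0 < δ → δ < 1 → ∀ (ι : Type) [Fintype ι]
      (e a : ι → Eu m), (∀ i, ‖e i‖ = 1) → UnionFoliated N K A δ e a →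
      normSum q δ e a ≤ ENNReal.ofReal (C * (A * (1 + K)) ^ (1 / q) * (N : ℝ) ^ (1 / (q * m)) *
        δ ^ ((m : ℝ) / q) * (Fintype.card ι : ℝ) ^ (1 - 1 / (q * m)) *
        (1 + Real.log (Fintype.card ι)) ^ (1 / q)) := by
  have hm0 : (0 : ℝ) < m := by exact_mod_cast hm
  have hqm : q * m = m + 1 := by rw [hq]; field_simp
  have hq1 : 1 ≤ q := by
    rw [hq, le_div_iff₀ hm0]
    linarith
  have hq0 : 0 < q := by linarith
  have ht : 1 - 1 / (q * m) = 1 / q := by
    rw [hqm, hq]
    field_simp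
    ring
  refine ⟨(2 ^ (m + 2)) ^ (1 / q), ?_⟩
  intro N K A δ hK hA hδ hδ1 ι _ e a he hU
  classical
  obtain ⟨k, hk⟩ := hU
  have hlog : 0 ≤ Real.log (Fintype.card ι) := Real.log_natCast_nonneg _
  set R : ℝ := (2 ^ (m + 2)) ^ (1 / q) * (A * (1 + K)) ^ (1 / q) * δ ^ ((m : ℝ) / q) *
    (1 + Real.log (Fintype.card ι)) ^ (1 / q) with hR
  have hR0 : 0 ≤ R := by positivity
  have h := union_bound (t := 1 - 1 / (q * m)) hq1 hR0
    (by rw [ht]; positivity)
    (by
      have : 0 < 1 / (q * m) := by positivity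
      linarith) e a N k (fun c => by
      obtain ⟨g, ν, s, hF⟩ := hk c
      have h1 := main_endpoint m hm K A δ hK hA hδ hδ1 _ _ _ g ν s (fun i => he i) hF
      rw [← hq] at h1
      have h2 := ENNReal.rpow_le_rpow h1 (z := 1 / q) (by positivity)
      refine h2.trans ?_
      have hlogc : 0 ≤ Real.log (Fintype.card {i // k i = c}) := Real.log_natCast_nonneg _
      rw [ENNReal.ofReal_rpow_of_nonneg (by positivity) (by positivity)]
      apply ENNReal.ofReal_le_ofReal
      rw [ht, Real.mul_rpow (by positivity) (by positivity), Real.mul_rpow (by positivity) (by positivity),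
        Real.mul_rpow (by positivity) (by positivity), Real.mul_rpow (by positivity) (by positivity)]
      refine mul_le_mul_of_nonneg_right ?_ (by positivity)
      have h3 : (δ ^ m) ^ (1 / q) = δ ^ ((m : ℝ) / q) := by
        rw [← Real.rpow_natCast, ← Real.rpow_mul hδ.le]
        congr 1
        ring
      have h4 : (1 + Real.log (Fintype.card {i // k i = c})) ^ (1 / q) ≤
          (1 + Real.log (Fintype.card ι)) ^ (1 / q) := by
        refine Real.rpow_le_rpow (by positivity) ?_ (by positivity)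
        have h5 : Fintype.card {i // k i = c} ≤ Fintype.card ι := Fintype.card_subtype_le _
        rcases Nat.eq_zero_or_pos (Fintype.card {i // k i = c}) with h0 | h0
        · rw [h0, Nat.cast_zero, Real.log_zero]
          linarith
        · have := Real.log_le_log (by exact_mod_cast h0) (by exact_mod_cast h5 :
            (Fintype.card {i // k i = c} : ℝ) ≤ Fintype.card ι)
          linarith
      rw [h3, hR]
      calc (2 ^ (m + 2)) ^ (1 / q) * (A * (1 + K)) ^ (1 / q) *
            (1 + Real.log (Fintype.card {i // k i = c})) ^ (1 / q) * δ ^ ((m : ℝ) / q)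
          = ((2 ^ (m + 2)) ^ (1 / q) * (A * (1 + K)) ^ (1 / q) * δ ^ ((m : ℝ) / q)) *
            (1 + Real.log (Fintype.card {i // k i = c})) ^ (1 / q) := by ring
        _ ≤ _ := mul_le_mul_of_nonneg_left h4 (by positivity))
  refine h.trans (le_of_eq ?_)
  congr 1
  have e1 : 1 - (1 - 1 / (q * m)) = 1 / (q * m) := by ring
  rw [e1, hR]
  ring

end Pool.Agent.W772.Fol
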