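import Mathlib

set_option autoImplicit false

/-! A compressing function of one variable. -/

open MeasureTheory Set ENNReal

namespace Pool.Agent.W772.LP

/-- dyadic truncation -/
noncomputable def dy (j : ℕ) (u : ℝ) : ℝ := (⌊2 ^ j * u⌋ : ℝ) / 2 ^ j

theorem dy_le (j : ℕ) (u : ℝ) : dy j u ≤ u := by
  unfold dy
  rw [div_le_iff₀ (by positivity)]
  have := Int.floor_le (2 ^ j * u)
  linarith

theorem lt_dy (j : ℕ) (u : ℝ) : u - (1 / 2) ^ j < dy j u := by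
  unfold dy
  rw [lt_div_iff₀ (by positivity)]
  have := Int.lt_floor_add_one (2 ^ j * u)
  have h : (1 / 2 : ℝ) ^ j * 2 ^ j = 1 := by
    rw [← mul_pow]; norm_num
  nlinarith

/-- The coarser truncations are determined by the finer ones. -/
theorem floor_coarse {m j : ℕ} (hj : j ≤ m) {u v : ℝ} (h : ⌊2 ^ m * u⌋ = ⌊2 ^ m * v⌋) :
    ⌊2 ^ j * u⌋ = ⌊2 ^ j * v⌋ := by
  have key : ∀ u v : ℝ, ⌊2 ^ m * u⌋ = ⌊2 ^ m * v⌋ → ⌊2 ^ j * v⌋ ≤ ⌊2 ^ j * u⌋ := by
    intro u v h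
    by_contra hlt
    push Not at hlt
    have h1 : (2 : ℝ) ^ j * u < ⌊2 ^ j * v⌋ := by
      have h2 : ⌊(2 : ℝ) ^ j * u⌋ + 1 ≤ ⌊2 ^ j * v⌋ := hlt
      have h3 : ((⌊(2 : ℝ) ^ j * u⌋ + 1 : ℤ) : ℝ) ≤ (⌊(2 : ℝ) ^ j * v⌋ : ℝ) := by exact_mod_cast h2
      push_cast at h3
      linarith [Int.lt_floor_add_one ((2 : ℝ) ^ j * u)]
    have h2 : ((⌊(2 : ℝ) ^ j * v⌋ : ℝ)) ≤ 2 ^ j * v := Int.floor_le _
    have e : (2 : ℝ) ^ m = 2 ^ (m - j) * 2 ^ j := by rw [← pow_add]; congr 1; omega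
    have hp : (0 : ℝ) < 2 ^ (m - j) := by positivity
    have h3 : (2 : ℝ) ^ m * u < ((2 ^ (m - j) * ⌊(2 : ℝ) ^ j * v⌋ : ℤ) : ℝ) := by
      push_cast
      rw [e, mul_assoc]
      exact mul_lt_mul_of_pos_left h1 hp
    have h4 : ((2 ^ (m - j) * ⌊(2 : ℝ) ^ j * v⌋ : ℤ) : ℝ) ≤ (2 : ℝ) ^ m * v := by
      push_cast
      rw [e, mul_assoc]
      exact mul_le_mul_of_nonneg_left h2 hp.le
    have h5 := Int.floor_lt.2 h3
    have h6 := Int.le_floor.2 h4
    omega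
  exact le_antisymm (key v u h.symm) (key u v h)

/-- the function -/
noncomputable def g (A : ℝ) (k : ℕ) (u : ℝ) : ℝ := A / k * ∑ j ∈ Finset.range k, dy j u - A / 2 * u

/-- Closeness of the values at one height. -/
theorem close {A : ℝ} (hA : 0 < A) {k m : ℕ} (hk : 0 < k) (hm : m ≤ k) {τ : ℝ}
    (hτ : |A / k * (k - m) - (A / 2 + 2 * τ)| ≤ A / k) {u v : ℝ} (h : ⌊2 ^ m * u⌋ = ⌊2 ^ m * v⌋) :
    |(g A k u - 2 * τ * u) - (g A k v - 2 * τ * v)| ≤ 3 * A / k * (1 / 2) ^ m := by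
  have hk0 : (0 : ℝ) < k := by exact_mod_cast hk
  have huv : |u - v| ≤ (1 / 2) ^ m := by
    have h1 : |2 ^ m * u - 2 ^ m * v| < 1 := Int.abs_sub_lt_one_of_floor_eq_floor h
    rw [← mul_sub, abs_mul, abs_of_pos (by positivity : (0 : ℝ) < 2 ^ m)] at h1
    have e : (1 / 2 : ℝ) ^ m = 1 / 2 ^ m := by rw [div_pow, one_pow]
    rw [e, le_div_iff₀ (by positivity)]
    nlinarith
  have hsum : ∑ j ∈ Finset.range k, (dy j u - dy j v) =
      ∑ j ∈ Finset.Ico m k, (dy j u - dy j v) := by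
    rw [← Finset.sum_range_add_sum_Ico _ hm]
    have : ∑ j ∈ Finset.range m, (dy j u - dy j v) = 0 := by
      apply Finset.sum_eq_zero
      intro j hj
      unfold dy
      rw [floor_coarse (Finset.mem_range.1 hj).le h, sub_self]
    rw [this, zero_add]
  have hgeo : ∀ n : ℕ, ∑ j ∈ Finset.range n, (1 / 2 : ℝ) ^ (m + j) ≤ 2 * (1 / 2) ^ m := by
    intro n
    have e : ∀ n : ℕ, ∑ j ∈ Finset.range n, (1 / 2 : ℝ) ^ (m + j) = 2 * (1 / 2) ^ m * (1 - (1 / 2) ^ n) := by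
      intro n
      induction n with
      | zero => simp
      | succ n ih =>
        rw [Finset.sum_range_succ, ih, pow_add, pow_succ (1 / 2 : ℝ) n]
        ring
    rw [e]
    have h1 : (0 : ℝ) < (1 / 2) ^ n := by positivity
    have h2 : (0 : ℝ) < (1 / 2) ^ m := by positivity
    nlinarith [mul_pos h1 h2]
  have hdiff : |∑ j ∈ Finset.Ico m k, (dy j u - dy j v) - (k - m) * (u - v)| ≤ 2 * (1 / 2) ^ m := by
    have e : ((k : ℝ) - m) * (u - v) = ∑ _j ∈ Finset.Ico m k, (u - v) := by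
      rw [Finset.sum_const, Nat.card_Ico, nsmul_eq_mul, Nat.cast_sub hm]
    rw [e, ← Finset.sum_sub_distrib]
    refine (Finset.abs_sum_le_sum_abs _ _).trans ?_
    calc ∑ j ∈ Finset.Ico m k, |dy j u - dy j v - (u - v)| ≤ ∑ j ∈ Finset.Ico m k, (1 / 2 : ℝ) ^ j := by
          refine Finset.sum_le_sum fun j _ => ?_
          have h1 := dy_le j u
          have h2 := lt_dy j u
          have h3 := dy_le j v
          have h4 := lt_dy j v
          rw [abs_le]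
          constructor <;> linarith
      _ = ∑ j ∈ Finset.range (k - m), (1 / 2 : ℝ) ^ (m + j) := by
          rw [Finset.sum_Ico_eq_sum_range]
      _ ≤ _ := hgeo _
  have e1 : (g A k u - 2 * τ * u) - (g A k v - 2 * τ * v) =
      A / k * (∑ j ∈ Finset.Ico m k, (dy j u - dy j v) - (k - m) * (u - v)) +
        (A / k * (k - m) - (A / 2 + 2 * τ)) * (u - v) := by
    rw [← hsum, Finset.sum_sub_distrib]
    unfold g
    ring
  rw [e1]
  refine (abs_add_le _ _).trans ?_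
  rw [abs_mul, abs_mul, abs_of_pos (by positivity : 0 < A / k)]
  have h1 : A / k * |∑ j ∈ Finset.Ico m k, (dy j u - dy j v) - (k - m) * (u - v)| ≤ A / k * (2 * (1 / 2) ^ m) :=
    mul_le_mul_of_nonneg_left hdiff (by positivity)
  have h2 : |A / k * (k - m) - (A / 2 + 2 * τ)| * |u - v| ≤ A / k * (1 / 2) ^ m :=
    mul_le_mul hτ huv (abs_nonneg _) (by positivity)
  have e2 : 3 * A / k * (1 / 2) ^ m = A / k * (2 * (1 / 2) ^ m) + A / k * (1 / 2) ^ m := by ring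
  rw [e2]
  exact add_le_add h1 h2

/-- The set of points near the values at one height. -/
def Es (A : ℝ) (k : ℕ) (L r τ : ℝ) : Set ℝ := {x | ∃ u : ℝ, |u| ≤ 1 ∧ |x - L * (g A k u - 2 * τ * u)| ≤ r}

/-- The measure of the set of points near the values at one height. -/
theorem vol_Es {A : ℝ} (hA : 0 < A) {k : ℕ} (hk : 0 < k) {L r : ℝ} (hL : 0 < L) (hr : 0 ≤ r) {τ : ℝ}
    (hτ : |2 * τ| ≤ A / 2) :
    volume (Es A k L r τ) ≤ ENNReal.ofReal (18 * A * L / k + 6 * 2 ^ k * r) := by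
  classical
  have hk0 : (0 : ℝ) < k := by exact_mod_cast hk
  -- the choice of the scale
  obtain ⟨m, hm, hmτ⟩ : ∃ m : ℕ, m ≤ k ∧ |A / k * (k - m) - (A / 2 + 2 * τ)| ≤ A / k := by
    set y : ℝ := k * (A / 2 + 2 * τ) / A with hy
    obtain ⟨h1, h2⟩ := abs_le.1 hτ
    have hy0 : 0 ≤ y := by
      apply div_nonneg _ hA.le
      apply mul_nonneg hk0.le
      linarith
    have hyk : y ≤ k := by
      rw [hy, div_le_iff₀ hA]
      apply mul_le_mul_of_nonneg_left _ hk0.le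
      linarith
    have h3 : ⌊y⌋₊ ≤ k := by
      have : (⌊y⌋₊ : ℝ) ≤ y := Nat.floor_le hy0
      have h4 : (⌊y⌋₊ : ℝ) ≤ (k : ℝ) := this.trans hyk
      exact_mod_cast h4
    refine ⟨k - ⌊y⌋₊, Nat.sub_le _ _, ?_⟩
    have h4 : (⌊y⌋₊ : ℝ) ≤ y := Nat.floor_le hy0
    have h5 : y < ⌊y⌋₊ + 1 := Nat.lt_floor_add_one y
    have e : A / k * (k - ((k - ⌊y⌋₊ : ℕ) : ℝ)) - (A / 2 + 2 * τ) = A / k * (⌊y⌋₊ - y) := by
      rw [Nat.cast_sub h3]
      rw [hy]
      field_simp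
      ring
    rw [e, abs_mul, abs_of_pos (by positivity : 0 < A / k)]
    have h6 : |(⌊y⌋₊ : ℝ) - y| ≤ 1 := by
      rw [abs_le]; constructor <;> linarith
    calc A / k * |(⌊y⌋₊ : ℝ) - y| ≤ A / k * 1 := mul_le_mul_of_nonneg_left h6 (by positivity)
      _ = A / k := mul_one _
  -- the covering
  set s : ℝ := L * (3 * A / k * (1 / 2) ^ m) + r with hs
  have hs0 : 0 ≤ s := by positivity
  let pt : ℤ → ℝ := fun z => if h : ∃ u : ℝ, |u| ≤ 1 ∧ ⌊2 ^ m * u⌋ = z then h.choose else 0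
  have hcov : Es A k L r τ ⊆ ⋃ z ∈ Finset.Icc (-(2 ^ m : ℤ)) (2 ^ m),
      Icc (L * (g A k (pt z) - 2 * τ * pt z) - s) (L * (g A k (pt z) - 2 * τ * pt z) + s) := by
    rintro x ⟨u, hu, hx⟩
    rw [mem_iUnion₂]
    refine ⟨⌊2 ^ m * u⌋, ?_, ?_⟩
    · obtain ⟨h1, h2⟩ := abs_le.1 hu
      have hp : (0 : ℝ) < 2 ^ m := by positivity
      rw [Finset.mem_Icc]
      constructor
      · apply Int.le_floor.2
        push_cast
        nlinarith
      · have h3 : (⌊2 ^ m * u⌋ : ℝ) ≤ 2 ^ m * u := Int.floor_le _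
        have h4 : (⌊2 ^ m * u⌋ : ℝ) ≤ ((2 ^ m : ℤ) : ℝ) := by
          push_cast
          nlinarith
        exact_mod_cast h4
    · have hex : ∃ w : ℝ, |w| ≤ 1 ∧ ⌊2 ^ m * w⌋ = ⌊2 ^ m * u⌋ := ⟨u, hu, rfl⟩
      have hpt : pt ⌊2 ^ m * u⌋ = hex.choose := dif_pos hex
      have h1 := close hA hk hm hmτ hex.choose_spec.2.symm
      rw [← hpt] at h1
      set w : ℝ := pt ⌊2 ^ m * u⌋ with hw
      have h2 : |L * (g A k u - 2 * τ * u) - L * (g A k w - 2 * τ * w)| ≤ L * (3 * A / k * (1 / 2) ^ m) := by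
        rw [← mul_sub, abs_mul, abs_of_pos hL]
        exact mul_le_mul_of_nonneg_left h1 hL.le
      have h3 := abs_le.1 h2
      have h4 := abs_le.1 hx
      rw [mem_Icc, hs]
      constructor <;> linarith
  refine (measure_mono hcov).trans ?_
  refine (measure_biUnion_finset_le _ _).trans ?_
  have hv : ∀ z : ℤ, volume (Icc (L * (g A k (pt z) - 2 * τ * pt z) - s)
      (L * (g A k (pt z) - 2 * τ * pt z) + s)) = ENNReal.ofReal (2 * s) := by
    intro z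
    rw [Real.volume_Icc]
    congr 1
    ring
  rw [Finset.sum_congr rfl (fun z _ => hv z), Finset.sum_const, Int.card_Icc, nsmul_eq_mul,
    ← ENNReal.ofReal_natCast, ← ENNReal.ofReal_mul (Nat.cast_nonneg _)]
  apply ENNReal.ofReal_le_ofReal
  have hc : (((2 ^ m + 1 - -(2 ^ m : ℤ)).toNat : ℕ) : ℝ) ≤ 3 * 2 ^ m := by
    have h1 : (1 : ℤ) ≤ 2 ^ m := one_le_pow₀ (by norm_num)
    have e : (((2 ^ m + 1 - -(2 ^ m : ℤ)).toNat : ℤ) : ℝ) = ((2 ^ m + 1 - -(2 ^ m : ℤ) : ℤ) : ℝ) := by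
      rw [Int.toNat_of_nonneg (by omega)]
    rw [Int.cast_natCast] at e
    rw [e]
    push_cast
    have h2 : (1 : ℝ) ≤ 2 ^ m := one_le_pow₀ (by norm_num)
    linarith
  calc (((2 ^ m + 1 - -(2 ^ m : ℤ)).toNat : ℕ) : ℝ) * (2 * s) ≤ (3 * 2 ^ m) * (2 * s) :=
        mul_le_mul_of_nonneg_right hc (by positivity)
    _ = 18 * A * L / k * (2 ^ m * (1 / 2) ^ m) + 6 * 2 ^ m * r := by
        rw [hs]
        ring
    _ ≤ 18 * A * L / k + 6 * 2 ^ k * r := by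
        have e : (2 : ℝ) ^ m * (1 / 2) ^ m = 1 := by
          rw [← mul_pow]; norm_num
        rw [e, mul_one]
        have h3 : (2 : ℝ) ^ m ≤ 2 ^ k := pow_le_pow_right₀ (by norm_num) hm
        have h4 : 6 * (2 : ℝ) ^ m * r ≤ 6 * 2 ^ k * r := by
          apply mul_le_mul_of_nonneg_right _ hr
          linarith
        linarith

end Pool.Agent.W772.LP
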