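import Pool.Agent.W772.Tri2
import Pool.Agent.H810R3.Tub.Compare
import Pool.Agent.H810R3.Tub.Per2

set_option autoImplicit false
set_option linter.unusedSectionVars false

/-! Triangular families of boxes: reduction to slices. -/

open MeasureTheory Set ENNReal

namespace Pool.Agent.W772

open Pool.Agent.H810R3.Tub

/-- The sum of the reciprocals of the differences of velocities. -/
theorem vel_sum {ρ : ℝ} (hρ : 0 < ρ) (M : ℕ) (k : Fin (2 * M + 1)) :
    ∑ l ∈ Finset.univ.erase k, 1 / |2 * ρ * ((k : ℝ) - M) - 2 * ρ * ((l : ℝ) - M)| ≤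
      2 / ρ * (1 + Real.log (2 * M + 1)) := by
  classical
  have h1 : ∀ l ∈ Finset.univ.erase k, 1 / |2 * ρ * ((k : ℝ) - M) - 2 * ρ * ((l : ℝ) - M)| ≤
      1 / ρ * (1 / (1 + |(((k : ℕ) : ℤ) - ((l : ℕ) : ℤ) : ℤ)|)) := by
    intro l hl
    have hne : (k : ℕ) ≠ (l : ℕ) := fun h => Finset.ne_of_mem_erase hl (Fin.ext h.symm)
    have hz : (((k : ℕ) : ℤ) - ((l : ℕ) : ℤ)) ≠ 0 := by omega
    have hz1 : (1 : ℤ) ≤ |(((k : ℕ) : ℤ) - ((l : ℕ) : ℤ) : ℤ)| := Int.one_le_abs hz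
    have hz2 : (1 : ℝ) ≤ |(((((k : ℕ) : ℤ) - ((l : ℕ) : ℤ) : ℤ)) : ℝ)| := by exact_mod_cast hz1
    have e : 2 * ρ * ((k : ℝ) - M) - 2 * ρ * ((l : ℝ) - M) =
        2 * ρ * ((((k : ℕ) : ℤ) - ((l : ℕ) : ℤ) : ℤ) : ℝ) := by push_cast; ring
    rw [e, abs_mul, abs_of_pos (by positivity : 0 < 2 * ρ)]
    set z : ℝ := |(((((k : ℕ) : ℤ) - ((l : ℕ) : ℤ) : ℤ)) : ℝ)| with hzd
    push_cast at hzd ⊢
    rw [← hzd, ← one_div_mul_one_div_rev, one_div_mul_one_div_rev, one_div_mul_one_div_rev]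
    apply one_div_le_one_div_of_le (by positivity)
    nlinarith
  refine (Finset.sum_le_sum h1).trans ?_
  rw [← Finset.mul_sum]
  have h2 : ∑ l ∈ Finset.univ.erase k, (1 : ℝ) / (1 + |(((k : ℕ) : ℤ) - ((l : ℕ) : ℤ) : ℤ)|) ≤
      ∑ z ∈ Finset.Icc (-((2 * M : ℕ) : ℤ)) (2 * M : ℕ), (1 : ℝ) / (1 + |(z : ℝ)|) := by
    have hinj : Set.InjOn (fun l : Fin (2 * M + 1) => (((k : ℕ) : ℤ) - ((l : ℕ) : ℤ)))
        (Finset.univ.erase k : Finset (Fin (2 * M + 1))) := by
      intro a _ b _ h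
      have : ((k : ℕ) : ℤ) - ((a : ℕ) : ℤ) = ((k : ℕ) : ℤ) - ((b : ℕ) : ℤ) := h
      apply Fin.ext
      omega
    rw [show ∑ l ∈ Finset.univ.erase k, (1 : ℝ) / (1 + |(((k : ℕ) : ℤ) - ((l : ℕ) : ℤ) : ℤ)|) =
      ∑ z ∈ (Finset.univ.erase k).image (fun l : Fin (2 * M + 1) => (((k : ℕ) : ℤ) - ((l : ℕ) : ℤ))),
        (1 : ℝ) / (1 + |(z : ℝ)|) by
        rw [Finset.sum_image hinj]
        refine Finset.sum_congr rfl fun l _ => ?_
        push_cast
        rfl]
    apply Finset.sum_le_sum_of_subset_of_nonneg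
    · intro z hz
      obtain ⟨l, _, rfl⟩ := Finset.mem_image.1 hz
      rw [Finset.mem_Icc]
      have h3 := k.isLt
      have h4 := l.isLt
      constructor <;> push_cast <;> omega
    · intro z _ _
      positivity
  have h3 := sum_inv (2 * M)
  push_cast at h3
  have h4 := h2.trans (by push_cast; exact h3)
  calc 1 / ρ * _ ≤ 1 / ρ * (2 * (1 + Real.log (2 * M + 1))) := mul_le_mul_of_nonneg_left h4 (by positivity)
    _ = _ := by ring

open Classical in
/-- The position of a member of the family with a given property. -/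
noncomputable def pick {d : ℕ} {ι : Type} (β : ι → Vec d) (j : Fin d) (P : ι → Prop) : ℝ :=
  if h : ∃ i, P i then β h.choose j else 0

theorem abs_coord {d : ℕ} (x : Vec d) (j : Fin d) : |x j| ≤ ‖x‖ := by
  have := PiLp.norm_apply_le x j
  rwa [Real.norm_eq_abs] at this

/-- The reduction of a triangular family of boxes to slices. -/
theorem tri_red (d : ℕ) (hd : 1 ≤ d) (U : Vec d ≃ₗᵢ[ℝ] Vec d) (σ : ℝ) (hσ : 0 < σ) (hσ1 : σ ≤ 1) (K S N : ℝ) (hK : 0 ≤ K)
    (hS : 0 ≤ S) (hN : 1 ≤ N) (ι : Type) [Fintype ι]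
    (ω β : ι → Vec d) (s : ι → ℝ) (f : ι → Fin d → Space d)
    (hω : ∀ i, ‖ω i‖ ≤ 1) (hsep : ∀ i j, i ≠ j → σ / N ≤ ‖ω i - ω j‖)
    (hf : ∀ i, Orthonormal ℝ (Fin.cons (nor (ω i)) (f i) : Fin (d + 1) → Space d))
    (hs : ∀ i, |s i| ≤ S * N ^ 2)
    (htri : ∀ i i' j, (∀ l, l ≤ j → |U (ω i) l - U (ω i') l| ≤ σ / N) → |U (β i) j - U (β i') j| ≤ K * N) :
    ∃ (M : ℕ) (κ : ι → Fin d → Fin (2 * M + 1)) (B : (Fin d → Fin (2 * M + 1)) → Fin d → ℝ),
      (2 * M + 1 : ℝ) ≤ 10 * d * N / σ ∧ Function.Injective κ ∧ Tri B ∧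
      ∀ i (x : Fin d → ℝ) (t : ℝ), (WithLp.toLp 2 (U.symm (WithLp.toLp 2 x), t) : Space d) ∈
        box N (nor (ω i)) (f i) (WithLp.toLp 2 (β i + s i • (-(2 : ℝ) • ω i), s i)) →
        t ∈ Icc (-((1 + d) * (1 + K + S) * N ^ 2)) ((1 + d) * (1 + K + S) * N ^ 2) ∧
        x ∈ hit ((2 * d + 2) * (1 + K + S) * N)
          (fun k : Fin (2 * M + 1) => 2 * (σ / (2 * d * N)) * ((k : ℝ) - M)) (B (κ i)) (κ i) t := by
  classical
  have hd0 : (0 : ℝ) < d := by exact_mod_cast hd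
  have hd1 : (1 : ℝ) ≤ d := by exact_mod_cast hd
  have hN0 : 0 < N := by linarith
  set ρ : ℝ := σ / (2 * d * N) with hρ
  have hρ0 : 0 < ρ := by positivity
  have hρN : ρ ≤ σ / N := by
    rw [hρ]
    apply div_le_div_of_nonneg_left hσ.le hN0
    nlinarith [mul_nonneg (sub_nonneg.2 hd1) hN0.le]
  have hdρ : d * ρ < σ / N := by
    rw [hρ, ← mul_div_assoc, div_lt_div_iff₀ (by positivity) hN0]
    nlinarith [mul_pos (mul_pos hd0 hσ) hN0]
  set M : ℕ := ⌈1 / ρ⌉₊ with hM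
  have hMρ : 1 / ρ ≤ M := Nat.le_ceil _
  have hM2 : (M : ℝ) < 1 / ρ + 1 := Nat.ceil_lt_add_one (by positivity)
  have hρ1 : ρ ≤ 1 := by
    refine hρN.trans ?_
    rw [div_le_one hN0]
    exact hσ1.trans hN
  have hρinv : 1 ≤ 1 / ρ := by
    rw [le_div_iff₀ hρ0]; linarith
  have hMM : (2 * M + 1 : ℝ) ≤ 10 * d * N / σ := by
    have : 10 * d * N / σ = 5 * (1 / ρ) := by
      rw [hρ]
      field_simp
      ring
    rw [this]
    linarith
  -- the cells
  have hcell : ∀ i j, -(M : ℤ) ≤ cell ρ (U (ω i)) j ∧ cell ρ (U (ω i)) j ≤ M := by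
    intro i j
    have h1 : |U (ω i) j| ≤ 1 := (abs_coord (U (ω i)) j).trans (by rw [U.norm_map]; exact hω i)
    have h2 := abs_le.1 h1
    constructor
    · apply Int.le_floor.2
      push_cast
      have : -(1 / ρ) ≤ U (ω i) j / ρ := by
        rw [← neg_div]
        exact div_le_div_of_nonneg_right h2.1 hρ0.le
      linarith
    · have h4 : (⌊U (ω i) j / ρ⌋ : ℝ) ≤ U (ω i) j / ρ := Int.floor_le _
      have h5 : U (ω i) j / ρ ≤ 1 / ρ := div_le_div_of_nonneg_right h2.2 hρ0.le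
      have h6 : (⌊U (ω i) j / ρ⌋ : ℝ) ≤ M := by linarith
      exact_mod_cast h6
  set κ : ι → Fin d → Fin (2 * M + 1) := fun i j =>
    ⟨(cell ρ (U (ω i)) j + M).toNat, by have := hcell i j; omega⟩ with hκ
  have hκv : ∀ i j, ((κ i j : ℕ) : ℝ) - M = (cell ρ (U (ω i)) j : ℝ) := by
    intro i j
    have h1 : (((κ i j : ℕ) : ℤ)) = cell ρ (U (ω i)) j + M := by
      show (((cell ρ (U (ω i)) j + M).toNat : ℕ) : ℤ) = _
      exact Int.toNat_of_nonneg (by have := hcell i j; omega)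
    have h2 : (((κ i j : ℕ) : ℤ) : ℝ) = (cell ρ (U (ω i)) j + M : ℤ) := by rw [h1]
    push_cast at h2
    linarith
  have hκi : Function.Injective κ := by
    intro i i' h
    by_contra hne
    have h1 : cell ρ (U (ω i)) = cell ρ (U (ω i')) := by
      funext j
      have h2 : (cell ρ (U (ω i)) j : ℝ) = cell ρ (U (ω i')) j := by
        rw [← hκv, ← hκv, h]
      exact_mod_cast h2
    have h3 := cell_close hρ0 h1
    rw [← map_sub, U.norm_map] at h3
    have h4 := hsep i i' hne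
    linarith
  have hnear : ∀ i j, |U (ω i) j - ρ * (((κ i j : ℕ) : ℝ) - M)| ≤ ρ := by
    intro i j
    rw [hκv]
    have h1 : (cell ρ (U (ω i)) j : ℝ) ≤ U (ω i) j / ρ := Int.floor_le _
    have h2 : U (ω i) j / ρ < cell ρ (U (ω i)) j + 1 := Int.lt_floor_add_one _
    rw [le_div_iff₀ hρ0] at h1
    rw [div_lt_iff₀ hρ0] at h2
    rw [abs_le]
    constructor <;> nlinarith
  have hsame : ∀ i i' j, κ i j = κ i' j → |U (ω i) j - U (ω i') j| ≤ σ / N := by
    intro i i' j h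
    have h1 : (⌊U (ω i) j / ρ⌋ : ℤ) = ⌊U (ω i') j / ρ⌋ := by
      have h2 : (cell ρ (U (ω i)) j : ℝ) = cell ρ (U (ω i')) j := by
        rw [← hκv, ← hκv, h]
      exact_mod_cast h2
    have h3 : |U (ω i) j / ρ - U (ω i') j / ρ| < 1 := Int.abs_sub_lt_one_of_floor_eq_floor h1
    rw [← _root_.sub_div, abs_div, abs_of_pos hρ0, div_lt_one hρ0] at h3
    linarith
  -- the positions
  set B : (Fin d → Fin (2 * M + 1)) → Fin d → ℝ := fun k j =>
    pick (fun i => U (β i)) j (fun i => ∀ l, l ≤ j → κ i l = k l) with hB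
  have hBtri : Tri B := by
    intro k k' j h
    show pick (fun i => U (β i)) j (fun i => ∀ l, l ≤ j → κ i l = k l) =
      pick (fun i => U (β i)) j (fun i => ∀ l, l ≤ j → κ i l = k' l)
    congr 1
    funext i
    refine propext ⟨fun h1 l hl => (h1 l hl).trans (h l hl), fun h1 l hl => (h1 l hl).trans (h l hl).symm⟩
  have hBnear : ∀ i j, |U (β i) j - B (κ i) j| ≤ K * N := by
    intro i j
    have hex : ∃ i', ∀ l, l ≤ j → κ i' l = κ i l := ⟨i, fun _ _ => rfl⟩
    have e : B (κ i) j = U (β hex.choose) j := by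
      show pick (fun i => U (β i)) j (fun i' => ∀ l, l ≤ j → κ i' l = κ i l) = _
      unfold pick
      rw [dif_pos hex]
    rw [e]
    apply htri
    intro l hl
    exact hsame _ _ _ (hex.choose_spec l hl).symm
  -- the parameters
  set W : ℝ := 1 + K + S with hW
  have hW1 : 1 ≤ W := by rw [hW]; linarith
  set T : ℝ := (1 + d) * W * N ^ 2 with hT
  set R : ℝ := (2 * d + 2) * W * N with hR
  have hT0 : 0 < T := by positivity
  have hR0 : 0 < R := by positivity
  set v : Fin (2 * M + 1) → ℝ := fun k => 2 * ρ * ((k : ℝ) - M) with hv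
  set a : ι → Space d := fun i => WithLp.toLp 2 (β i + s i • (-(2 : ℝ) • ω i), s i) with ha
  refine ⟨M, κ, B, hMM, hκi, hBtri, ?_⟩
  -- membership
  have hmem : ∀ i (x : Fin d → ℝ) (t : ℝ), (WithLp.toLp 2 (U.symm (WithLp.toLp 2 x), t) : Space d) ∈
      box N (nor (ω i)) (f i) (a i) → t ∈ Icc (-T) T ∧ x ∈ hit R v (B (κ i)) (κ i) t := by
    intro i x t hy
    obtain ⟨h1, h2⟩ := box_coord hN (hω i) (hf i) hy
    have e1 : ((WithLp.toLp 2 (U.symm (WithLp.toLp 2 x), t) : Space d) - a i).snd = t - s i := rfl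
    have e2 : ((WithLp.toLp 2 (U.symm (WithLp.toLp 2 x), t) : Space d) - a i).fst =
        U.symm (WithLp.toLp 2 x) - (β i + s i • (-(2 : ℝ) • ω i)) := rfl
    rw [e1] at h1 h2
    rw [e2] at h1
    have ht : |t| ≤ T := by
      have h3 : |t| ≤ |t - s i| + |s i| := by
        have := abs_add_le (t - s i) (s i)
        rwa [sub_add_cancel] at this
      have h4 := hs i
      have h5 : (1 + (d : ℝ)) * N ^ 2 / 2 + S * N ^ 2 ≤ T := by
        rw [hT, hW]
        have hN2 : 0 < N ^ 2 := by positivity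
        nlinarith [mul_nonneg hK hN2.le, mul_nonneg hS hN2.le, mul_nonneg hd0.le (mul_nonneg hK hN2.le),
          mul_nonneg hd0.le (mul_nonneg hS hN2.le), mul_nonneg hd0.le hN2.le]
      linarith
    refine ⟨abs_le.1 ht, ?_⟩
    intro j
    rw [← U.norm_map] at h1
    have h3 := (abs_coord _ j).trans h1
    have e3 : (U (U.symm (WithLp.toLp 2 x) - (β i + s i • (-(2 : ℝ) • ω i)) + (2 * (t - s i)) • ω i) : Vec d) j =
        x j - U (β i) j + 2 * t * U (ω i) j := by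
      simp only [map_add, map_sub, map_smul, LinearIsometryEquiv.apply_symm_apply,
        PiLp.add_apply, PiLp.sub_apply, PiLp.smul_apply, smul_eq_mul]
      ring
    rw [e3] at h3
    have h4 := hBnear i j
    have h5 := hnear i j
    have h6 : |2 * t * (U (ω i) j - ρ * (((κ i j : ℕ) : ℝ) - M))| ≤ 2 * T * ρ := by
      rw [abs_mul, abs_mul, abs_of_pos (by norm_num : (0 : ℝ) < 2)]
      have := mul_le_mul (mul_le_mul_of_nonneg_left ht (by norm_num : (0 : ℝ) ≤ 2)) h5 (abs_nonneg _) (by positivity)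
      exact this
    have e4 : x j + t * v (κ i j) - B (κ i) j = (x j - U (β i) j + 2 * t * U (ω i) j) -
        2 * t * (U (ω i) j - ρ * (((κ i j : ℕ) : ℝ) - M)) + (U (β i) j - B (κ i) j) := by
      show x j + t * (2 * ρ * (((κ i j : ℕ) : ℝ) - M)) - B (κ i) j = _
      ring
    rw [e4]
    have h7 : 2 * T * ρ ≤ 2 * W * N := by
      have e5 : 2 * T * ρ = W * N * σ * ((1 + d) / d) := by
        rw [hT, hρ]
        field_simp
      rw [e5]
      have h8 : (1 + (d : ℝ)) / d ≤ 2 := by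
        rw [div_le_iff₀ hd0]; linarith
      have h9 : W * N * σ ≤ W * N := by
        have : 0 < W * N := by positivity
        nlinarith
      calc W * N * σ * ((1 + d) / d) ≤ W * N * 2 := mul_le_mul h9 h8 (by positivity) (by positivity)
        _ = _ := by ring
    have h8 := abs_add_le ((x j - U (β i) j + 2 * t * U (ω i) j) -
        2 * t * (U (ω i) j - ρ * (((κ i j : ℕ) : ℝ) - M))) (U (β i) j - B (κ i) j)
    have h9 := abs_sub (x j - U (β i) j + 2 * t * U (ω i) j) (2 * t * (U (ω i) j - ρ * (((κ i j : ℕ) : ℝ) - M)))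
    have h10 : 2 * d * N + 2 * W * N + K * N ≤ R := by
      rw [hR, hW]
      have g1 := mul_nonneg hd0.le (mul_nonneg hK hN0.le)
      have g2 := mul_nonneg hd0.le (mul_nonneg hS hN0.le)
      have g3 := mul_nonneg (sub_nonneg.2 hd1) (mul_nonneg hK hN0.le)
      have g4 : (2 * (d : ℝ) + 2) * (1 + K + S) * N - (2 * d * N + 2 * (1 + K + S) * N + K * N) =
        (d : ℝ) * (K * N) + 2 * ((d : ℝ) * (S * N)) + ((d : ℝ) - 1) * (K * N) := by ring
      linarith
    linarith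
  exact hmem

end Pool.Agent.W772
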