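import Pool.Agent.W772.LP1
import Pool.Agent.W772.Tri3

set_option autoImplicit false

/-! The union of a compressed family of boxes. -/

open MeasureTheory Set ENNReal

namespace Pool.Agent.W772.LP

open Pool.Agent.H810R3.Tub

/-- The number of dyadic scales used for the parameter `N`. -/
noncomputable def kN (N : ℝ) : ℕ := Nat.log 4 ⌊N⌋₊ + 1

theorem kN_pos (N : ℝ) : 0 < kN N := Nat.succ_pos _

theorem kN_pow {N : ℝ} (hN : 1 ≤ N) : (4 : ℝ) ^ kN N ≤ 4 * N := by
  have h1 : ⌊N⌋₊ ≠ 0 := by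
    have : 1 ≤ ⌊N⌋₊ := Nat.le_floor (by exact_mod_cast hN)
    omega
  have h2 : 4 ^ Nat.log 4 ⌊N⌋₊ ≤ ⌊N⌋₊ := Nat.pow_log_le_self 4 h1
  have h3 : ((4 ^ Nat.log 4 ⌊N⌋₊ : ℕ) : ℝ) ≤ (⌊N⌋₊ : ℝ) := by exact_mod_cast h2
  push_cast at h3
  have h4 : (⌊N⌋₊ : ℝ) ≤ N := Nat.floor_le (by linarith)
  unfold kN
  rw [pow_succ]
  linarith

theorem kN_two {N : ℝ} (hN : 1 ≤ N) : (2 : ℝ) ^ kN N ≤ 4 * N / kN N := by
  have hk : (0 : ℝ) < kN N := by exact_mod_cast kN_pos N
  rw [le_div_iff₀ hk]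
  have h1 : ((kN N : ℕ) : ℝ) ≤ 2 ^ kN N := by
    have : kN N < 2 ^ kN N := Nat.lt_two_pow_self
    exact_mod_cast this.le
  calc (2 : ℝ) ^ kN N * kN N ≤ 2 ^ kN N * 2 ^ kN N := mul_le_mul_of_nonneg_left h1 (by positivity)
    _ = 4 ^ kN N := by rw [← mul_pow]; norm_num
    _ ≤ _ := kN_pow hN

theorem kN_log {N : ℝ} (hN : 1 < N) : 1 / (kN N : ℝ) ≤ 2 / Real.log N := by
  have hk : (0 : ℝ) < kN N := by exact_mod_cast kN_pos N
  have hlog : 0 < Real.log N := Real.log_pos hN
  rw [div_le_div_iff₀ hk hlog, one_mul]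
  have h1 : ⌊N⌋₊ < 4 ^ (Nat.log 4 ⌊N⌋₊ + 1) := Nat.lt_pow_succ_log_self (by norm_num) _
  have h2 : N < 4 ^ kN N := by
    have h3 : ((⌊N⌋₊ : ℕ) : ℝ) + 1 ≤ ((4 ^ kN N : ℕ) : ℝ) := by exact_mod_cast h1
    push_cast at h3
    linarith [Nat.lt_floor_add_one N]
  have h3 : Real.log N ≤ kN N * Real.log 4 := by
    rw [← Real.log_pow]
    exact Real.log_le_log (by linarith) h2.le
  have h4 : Real.log 4 ≤ 2 := by
    have h5 : Real.log 4 = 2 * Real.log 2 := by
      rw [show (4 : ℝ) = 2 ^ 2 by norm_num, Real.log_pow]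
      push_cast
      ring
    have := Real.log_two_lt_d9
    linarith
  have := mul_le_mul_of_nonneg_left h4 hk.le
  linarith

/-- The positions of the compressed family. -/
noncomputable def pos {d : ℕ} (N : ℝ) (ω : Vec d) : Space d :=
  WithLp.toLp 2 (WithLp.toLp 2 (fun j => N ^ 2 * g (2 * (1 + d)) (kN N) (ω j)), 0)

/-- The volume of the union of the compressed family. -/
theorem union_vol (d : ℕ) (hd : 1 ≤ d) {N : ℝ} (hN : 1 < N) {ι : Type} [Fintype ι]
    (ω : ι → Vec d) (f : ι → Fin d → Space d) (hω : ∀ i, ‖ω i‖ ≤ 1)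
    (hf : ∀ i, Orthonormal ℝ (Fin.cons (nor (ω i)) (f i) : Fin (d + 1) → Space d)) :
    volume (⋃ i, box N (nor (ω i)) (f i) (pos N (ω i))) ≤
      ENNReal.ofReal ((1 + d) * (200 * (1 + d)) ^ d * N ^ (2 * (d + 1)) * (1 / Real.log N) ^ d) := by
  classical
  have hN0 : 0 < N := by linarith
  have hd0 : (0 : ℝ) < d := by exact_mod_cast hd
  have hlog : 0 < Real.log N := Real.log_pos hN
  have hkpos := kN_pos N
  have hk : (0 : ℝ) < kN N := by exact_mod_cast hkpos
  set A : ℝ := 2 * (1 + d) with hA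
  have hA0 : 0 < A := by positivity
  set S : Set (Space d) := ⋃ i, box N (nor (ω i)) (f i) (pos N (ω i)) with hS
  have hSm : MeasurableSet S := MeasurableSet.iUnion fun i => (box_closed _ _ _ _).measurableSet
  set T : ℝ := (1 + d) * N ^ 2 / 2 with hT
  have hT0 : 0 < T := by positivity
  -- membership
  have hmem : ∀ (x : Fin d → ℝ) (t : ℝ), (WithLp.toLp 2 (WithLp.toLp 2 x, t) : Space d) ∈ S →
      t ∈ Icc (-T) T ∧ x ∈ Set.pi univ (fun _ : Fin d => Es A (kN N) (N ^ 2) (2 * d * N) (t / N ^ 2)) := by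
    intro x t hx
    obtain ⟨i, hi⟩ := mem_iUnion.1 hx
    obtain ⟨h1, h2⟩ := box_coord hN.le (hω i) (hf i) hi
    have e1 : ((WithLp.toLp 2 (WithLp.toLp 2 x, t) : Space d) - pos N (ω i)).snd = t := by
      show t - 0 = t
      ring
    have e2 : ((WithLp.toLp 2 (WithLp.toLp 2 x, t) : Space d) - pos N (ω i)).fst =
        WithLp.toLp 2 x - WithLp.toLp 2 (fun j => N ^ 2 * g (2 * (1 + d)) (kN N) (ω i j)) := rfl
    rw [e1] at h1 h2
    rw [e2] at h1
    refine ⟨abs_le.1 h2, ?_⟩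
    intro j _
    refine ⟨ω i j, (abs_coord (ω i) j).trans (hω i), ?_⟩
    have h3 := (abs_coord _ j).trans h1
    have e3 : (WithLp.toLp 2 x - WithLp.toLp 2 (fun j => N ^ 2 * g (2 * (1 + d)) (kN N) (ω i j)) +
        (2 * t) • ω i : Vec d) j = x j - N ^ 2 * (g A (kN N) (ω i j) - 2 * (t / N ^ 2) * ω i j) := by
      simp only [PiLp.add_apply, PiLp.sub_apply, PiLp.smul_apply, smul_eq_mul]
      rw [hA]
      field_simp
      ring
    rw [e3] at h3
    exact h3
  -- slicing
  have hmp := WithLp.volume_preserving_toLp (Vec d) ℝ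
  have hmp2 := PiLp.volume_preserving_toLp (Fin d)
  have hg : Measurable (fun y : Space d => S.indicator (fun _ => (1 : ℝ≥0∞)) y) := measurable_const.indicator hSm
  have hS1 : volume S = ∫⁻ t : ℝ, ∫⁻ x : Fin d → ℝ,
      S.indicator (fun _ => (1 : ℝ≥0∞)) (WithLp.toLp 2 (WithLp.toLp 2 x, t)) := by
    rw [← one_mul (volume S), ← lintegral_indicator_const hSm, ← hmp.lintegral_comp hg]
    have hg2 : Measurable (fun p : Vec d × ℝ => S.indicator (fun _ => (1 : ℝ≥0∞)) (WithLp.toLp 2 p)) :=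
      hg.comp hmp.measurable
    rw [Measure.volume_eq_prod, lintegral_prod_symm _ hg2.aemeasurable]
    refine lintegral_congr fun t => ?_
    have hg3 : Measurable (fun x : Vec d => S.indicator (fun _ => (1 : ℝ≥0∞)) (WithLp.toLp 2 (x, t))) :=
      hg2.comp (measurable_id.prodMk measurable_const)
    rw [← hmp2.lintegral_comp hg3]
  rw [hS1]
  set E : ℝ := N ^ 2 * (200 * (1 + d)) * (1 / Real.log N) with hE
  have hE0 : 0 ≤ E := by positivity
  have hslice : ∀ t : ℝ, ∫⁻ x : Fin d → ℝ, S.indicator (fun _ => (1 : ℝ≥0∞)) (WithLp.toLp 2 (WithLp.toLp 2 x, t)) ≤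
      (Icc (-T) T).indicator (fun _ => ENNReal.ofReal E ^ d) t := by
    intro t
    by_cases ht : t ∈ Icc (-T) T
    · rw [indicator_of_mem ht]
      have hms : MeasurableSet {x : Fin d → ℝ | (WithLp.toLp 2 (WithLp.toLp 2 x, t) : Space d) ∈ S} := by
        have h1 : Measurable (fun x : Fin d → ℝ => (WithLp.toLp 2 (WithLp.toLp 2 x, t) : Space d)) :=
          hmp.measurable.comp (hmp2.measurable.prodMk measurable_const)
        exact h1 hSm
      have e : ∫⁻ x : Fin d → ℝ, S.indicator (fun _ => (1 : ℝ≥0∞)) (WithLp.toLp 2 (WithLp.toLp 2 x, t)) =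
          volume {x : Fin d → ℝ | (WithLp.toLp 2 (WithLp.toLp 2 x, t) : Space d) ∈ S} := by
        rw [← one_mul (volume _), ← lintegral_indicator_const hms]
        rfl
      rw [e]
      refine (measure_mono (fun x hx => (hmem x t hx).2)).trans ?_
      rw [volume_pi_pi]
      have hτ : |2 * (t / N ^ 2)| ≤ A / 2 := by
        have h1 : |t| ≤ T := abs_le.2 ht
        rw [abs_mul, abs_div, abs_of_pos (by norm_num : (0 : ℝ) < 2), abs_of_pos (by positivity : (0 : ℝ) < N ^ 2),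
          ← mul_div_assoc, div_le_iff₀ (by positivity)]
        rw [hT] at h1
        rw [hA]
        linarith
      have h1 := vol_Es hA0 hkpos (by positivity : (0 : ℝ) < N ^ 2) (by positivity : (0 : ℝ) ≤ 2 * d * N) hτ
      have h2 : 18 * A * N ^ 2 / kN N + 6 * 2 ^ kN N * (2 * d * N) ≤ E := by
        have h3 := kN_two hN.le
        have h4 := kN_log hN
        calc 18 * A * N ^ 2 / kN N + 6 * 2 ^ kN N * (2 * d * N)
            ≤ 18 * A * N ^ 2 / kN N + 6 * (4 * N / kN N) * (2 * d * N) := by gcongr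
          _ = N ^ 2 * (18 * A + 48 * d) * (1 / kN N) := by field_simp; ring
          _ ≤ N ^ 2 * (100 * (1 + d)) * (2 / Real.log N) := by
              have h5 : 18 * A + 48 * d ≤ 100 * (1 + (d : ℝ)) := by rw [hA]; linarith
              gcongr
          _ = E := by rw [hE]; field_simp; ring
      calc ∏ _j : Fin d, volume (Es A (kN N) (N ^ 2) (2 * d * N) (t / N ^ 2))
          ≤ ∏ _j : Fin d, ENNReal.ofReal E := by
            refine Finset.prod_le_prod' fun j _ => ?_
            exact h1.trans (ENNReal.ofReal_le_ofReal h2)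
        _ = _ := by simp
    · rw [indicator_of_notMem ht]
      apply le_of_eq
      rw [lintegral_eq_zero_iff']
      · refine Filter.Eventually.of_forall fun x => ?_
        exact indicator_of_notMem (fun h => ht (hmem x t h).1) _
      · have h1 : Measurable (fun x : Fin d → ℝ => (WithLp.toLp 2 (WithLp.toLp 2 x, t) : Space d)) :=
          hmp.measurable.comp (hmp2.measurable.prodMk measurable_const)
        exact (hg.comp h1).aemeasurable
  refine (lintegral_mono hslice).trans ?_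
  rw [lintegral_indicator_const measurableSet_Icc, Real.volume_Icc, ← ENNReal.ofReal_pow hE0,
    ← ENNReal.ofReal_mul (by positivity)]
  apply ENNReal.ofReal_le_ofReal
  apply le_of_eq
  rw [hE, hT, mul_pow, mul_pow, ← pow_mul]
  ring

end Pool.Agent.W772.LP
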