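import Pool.Agent.W772.LP2

set_option autoImplicit false

/-! The centred family: the bound without logarithms for small exponents. -/

open MeasureTheory Set ENNReal

namespace Pool.Agent.W772.LP

open Pool.Agent.H810R3.Tub

theorem time_pos {T L a : ℝ} (hT : 0 < T) (hL : 0 < L) (_ha0 : 0 < a) (ha1 : a < 1) :
    ∫⁻ t in Ioc 0 T, ENNReal.ofReal ((L / t) ^ a) = ENNReal.ofReal (L ^ a * T ^ (1 - a) / (1 - a)) := by
  have h1 : ∫⁻ t in Ioc 0 T, ENNReal.ofReal ((L / t) ^ a) = ∫⁻ t in Ioc 0 T, ENNReal.ofReal (L ^ a * t ^ (-a)) := by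
    refine setLIntegral_congr_fun measurableSet_Ioc fun t ht => ?_
    have ht0 : 0 < t := ht.1
    rw [Real.div_rpow hL.le ht0.le, Real.rpow_neg ht0.le, div_eq_mul_inv]
  have hi : IntervalIntegrable (fun t : ℝ => L ^ a * t ^ (-a)) volume 0 T :=
    (intervalIntegral.intervalIntegrable_rpow' (by linarith)).const_mul _
  have hint : IntegrableOn (fun t : ℝ => L ^ a * t ^ (-a)) (Ioc 0 T) :=
    (intervalIntegrable_iff_integrableOn_Ioc_of_le hT.le).1 hi
  rw [h1, ← ofReal_integral_eq_lintegral_ofReal hint]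
  · congr 1
    rw [← intervalIntegral.integral_of_le hT.le, intervalIntegral.integral_const_mul,
      integral_rpow (Or.inl (by linarith)), Real.zero_rpow (by linarith)]
    have e : -a + 1 = 1 - a := by ring
    rw [e]
    ring
  · refine (ae_restrict_iff' measurableSet_Ioc).2 (Filter.Eventually.of_forall fun t ht => ?_)
    have ht0 : 0 < t := ht.1
    show 0 ≤ L ^ a * t ^ (-a)
    positivity

theorem time_int {T L a : ℝ} (hT : 0 < T) (hL : 0 < L) (ha0 : 0 < a) (ha1 : a < 1) :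
    ∫⁻ t in Icc (-T) T, ENNReal.ofReal ((L / |t|) ^ a) ≤ ENNReal.ofReal (2 * (L ^ a * T ^ (1 - a) / (1 - a))) := by
  have h0 : 0 ≤ L ^ a * T ^ (1 - a) / (1 - a) := by
    apply div_nonneg (by positivity)
    linarith
  have hpos : ∫⁻ t in Ioc 0 T, ENNReal.ofReal ((L / |t|) ^ a) = ENNReal.ofReal (L ^ a * T ^ (1 - a) / (1 - a)) := by
    rw [← time_pos hT hL ha0 ha1]
    refine setLIntegral_congr_fun measurableSet_Ioc fun t ht => ?_
    rw [abs_of_pos ht.1]
  have hneg : ∫⁻ t in Ico (-T) 0, ENNReal.ofReal ((L / |t|) ^ a) = ENNReal.ofReal (L ^ a * T ^ (1 - a) / (1 - a)) := by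
    rw [← hpos]
    have hmp : MeasurePreserving (fun t : ℝ => -t) volume volume := Measure.measurePreserving_neg volume
    have h1 := hmp.setLIntegral_comp_preimage (s := Ioc 0 T) measurableSet_Ioc
      (f := fun t => ENNReal.ofReal ((L / |t|) ^ a)) (by fun_prop)
    rw [← h1]
    have e : (fun t : ℝ => -t) ⁻¹' Ioc 0 T = Ico (-T) 0 := by
      ext t
      simp only [mem_preimage, mem_Ioc, mem_Ico]
      constructor
      · rintro ⟨h1, h2⟩; constructor <;> linarith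
      · rintro ⟨h1, h2⟩; constructor <;> linarith
    rw [e]
    refine lintegral_congr fun t => ?_
    rw [abs_neg]
  have hsub : Icc (-T) T ⊆ (Ico (-T) 0 ∪ Ioc 0 T) ∪ {0} := by
    intro t ht
    rcases lt_trichotomy t 0 with h | h | h
    · left; left; exact ⟨ht.1, h⟩
    · right; exact h
    · left; right; exact ⟨h, ht.2⟩
  calc ∫⁻ t in Icc (-T) T, ENNReal.ofReal ((L / |t|) ^ a)
      ≤ ∫⁻ t in (Ico (-T) 0 ∪ Ioc 0 T) ∪ {0}, ENNReal.ofReal ((L / |t|) ^ a) := lintegral_mono_set hsub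
    _ ≤ (∫⁻ t in (Ico (-T) 0 ∪ Ioc 0 T), ENNReal.ofReal ((L / |t|) ^ a)) +
        ∫⁻ t in {(0 : ℝ)}, ENNReal.ofReal ((L / |t|) ^ a) := lintegral_union_le _ _ _
    _ = ∫⁻ t in (Ico (-T) 0 ∪ Ioc 0 T), ENNReal.ofReal ((L / |t|) ^ a) := by
        have : ∫⁻ t in {(0 : ℝ)}, ENNReal.ofReal ((L / |t|) ^ a) = 0 :=
          setLIntegral_measure_zero _ _ (by simp)
        rw [this, add_zero]
    _ ≤ (∫⁻ t in Ico (-T) 0, ENNReal.ofReal ((L / |t|) ^ a)) + ∫⁻ t in Ioc 0 T, ENNReal.ofReal ((L / |t|) ^ a) :=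
        lintegral_union_le _ _ _
    _ = _ := by
        rw [hneg, hpos, ← ENNReal.ofReal_add h0 h0]
        congr 1
        ring

/-- The number of centred boxes through a point. -/
theorem count {d : ℕ} (hd : 1 ≤ d) {σ N : ℝ} (hσ : 0 < σ) (hN : 1 ≤ N) {ι : Type} [Fintype ι]
    (ω : ι → Vec d) (f : ι → Fin d → Space d)
    (hω : ∀ i, ‖ω i‖ ≤ 1) (hsep : ∀ i j, i ≠ j → σ / N ≤ ‖ω i - ω j‖)
    (hf : ∀ i, Orthonormal ℝ (Fin.cons (nor (ω i)) (f i) : Fin (d + 1) → Space d))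
    (x : Vec d) {t : ℝ} (ht : t ≠ 0) :
    Fb N ω f (fun _ => 0) (WithLp.toLp 2 (x, t)) ≤
      ENNReal.ofReal (((8 * d ^ 2 / σ + 3 * (1 + d)) * N ^ 2 / |t|) ^ d) := by
  classical
  have hN0 : 0 < N := by linarith
  have hd0 : (0 : ℝ) < d := by exact_mod_cast hd
  have ht0 : 0 < |t| := abs_pos.2 ht
  set c : ℝ := 8 * d ^ 2 / σ + 3 * (1 + d) with hc
  have hc0 : 0 < c := by positivity
  set ρ : ℝ := σ / (2 * d * N) with hρ
  have hρ0 : 0 < ρ := by positivity
  have hdρ : d * ρ < σ / N := by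
    rw [hρ, ← mul_div_assoc, div_lt_div_iff₀ (by positivity) hN0]
    nlinarith [mul_pos (mul_pos hd0 hσ) hN0]
  set y : Space d := WithLp.toLp 2 (x, t) with hy
  set I : Finset ι := Finset.univ.filter (fun i => y ∈ box N (nor (ω i)) (f i) 0) with hI
  have hF : Fb N ω f (fun _ => 0) y = (I.card : ℝ≥0∞) := by
    unfold Fb
    rw [Finset.card_filter, Nat.cast_sum]
    refine Finset.sum_congr rfl fun i _ => ?_
    by_cases h : y ∈ box N (nor (ω i)) (f i) 0
    · rw [indicator_of_mem h, if_pos h, Nat.cast_one]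
    · rw [indicator_of_notMem h, if_neg h, Nat.cast_zero]
  rw [hF, ← ENNReal.ofReal_natCast]
  apply ENNReal.ofReal_le_ofReal
  rcases Finset.eq_empty_or_nonempty I with hIe | ⟨i₀, hi₀⟩
  · rw [hIe, Finset.card_empty, Nat.cast_zero]
    positivity
  have hcoord : ∀ i ∈ I, ‖x + (2 * t) • ω i‖ ≤ 2 * d * N ∧ |t| ≤ (1 + d) * N ^ 2 / 2 := by
    intro i hi
    have h := (Finset.mem_filter.1 hi).2
    obtain ⟨h1, h2⟩ := box_coord hN (hω i) (hf i) h
    rw [sub_zero] at h1 h2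
    exact ⟨h1, h2⟩
  have htN : |t| ≤ (1 + d) * N ^ 2 / 2 := (hcoord i₀ hi₀).2
  have hclose : ∀ i ∈ I, ‖ω i - ω i₀‖ ≤ 2 * d * N / |t| := by
    intro i hi
    have h1 := (hcoord i hi).1
    have h2 := (hcoord i₀ hi₀).1
    have h3 : ‖(2 * t) • (ω i - ω i₀)‖ ≤ 4 * d * N := by
      have e : (2 * t) • (ω i - ω i₀) = (x + (2 * t) • ω i) - (x + (2 * t) • ω i₀) := by
        rw [smul_sub]; abel
      rw [e]
      refine (norm_sub_le _ _).trans ?_
      linarith
    rw [norm_smul, Real.norm_eq_abs, abs_mul, abs_of_pos (by norm_num : (0 : ℝ) < 2)] at h3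
    rw [le_div_iff₀ ht0]
    linarith
  set n : ℕ := ⌊2 * d * N / |t| / ρ + 1⌋₊ with hn
  have hn0 : 0 ≤ 2 * d * N / |t| / ρ + 1 := by positivity
  have hnle : (n : ℝ) ≤ 2 * d * N / |t| / ρ + 1 := Nat.floor_le hn0
  have hcells : ∀ i ∈ I, ∀ k, cell ρ (ω i) k - cell ρ (ω i₀) k ∈ Finset.Icc (-(n : ℤ)) n := by
    intro i hi k
    have h1 := cell_sub hρ0 (ω i) (ω i₀) k
    have h2 : |ω i k - ω i₀ k| ≤ 2 * d * N / |t| := by
      have := abs_coord (ω i - ω i₀) k
      rw [PiLp.sub_apply] at this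
      exact this.trans (hclose i hi)
    have h3 : |((cell ρ (ω i) k - cell ρ (ω i₀) k : ℤ) : ℝ)| ≤ 2 * d * N / |t| / ρ + 1 := by
      refine h1.trans ?_
      have := div_le_div_of_nonneg_right h2 hρ0.le
      linarith
    have h4 : (((cell ρ (ω i) k - cell ρ (ω i₀) k).natAbs : ℕ) : ℝ) ≤ 2 * d * N / |t| / ρ + 1 := by
      rw [Nat.cast_natAbs, Int.cast_abs]
      exact h3
    have h5 : (cell ρ (ω i) k - cell ρ (ω i₀) k).natAbs ≤ n := Nat.le_floor h4
    rw [Finset.mem_Icc]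
    omega
  have hinj : Set.InjOn (fun i : ι => fun k => cell ρ (ω i) k - cell ρ (ω i₀) k) (I : Set ι) := by
    intro i _ j _ h
    by_contra hne
    have h1 : cell ρ (ω i) = cell ρ (ω j) := by
      funext k
      have := congr_fun h k
      simp only at this
      omega
    have h3 := cell_close hρ0 h1
    have h4 := hsep i j hne
    linarith
  have hcard : I.card ≤ (2 * n + 1) ^ d := by
    rw [← Finset.card_image_of_injOn hinj]
    have hsub : I.image (fun i : ι => fun k => cell ρ (ω i) k - cell ρ (ω i₀) k) ⊆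
        Fintype.piFinset (fun _ : Fin d => Finset.Icc (-(n : ℤ)) n) := by
      intro z hz
      obtain ⟨i, hi, rfl⟩ := Finset.mem_image.1 hz
      rw [Fintype.mem_piFinset]
      exact fun k => hcells i hi k
    refine (Finset.card_le_card hsub).trans (le_of_eq ?_)
    rw [Fintype.card_piFinset]
    simp only [Finset.prod_const, Finset.card_univ, Fintype.card_fin, Int.card_Icc]
    congr 1
    omega
  have hcR : (I.card : ℝ) ≤ (2 * (n : ℝ) + 1) ^ d := by exact_mod_cast hcard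
  refine hcR.trans ?_
  apply pow_le_pow_left₀ (by positivity)
  have e : 2 * d * N / |t| / ρ = 4 * d ^ 2 / σ * N ^ 2 / |t| := by
    rw [hρ]
    field_simp
    ring
  rw [e] at hnle
  have h6 : 3 ≤ 3 * (1 + d) * N ^ 2 / |t| := by
    rw [le_div_iff₀ ht0]
    nlinarith
  have e2 : c * N ^ 2 / |t| = 2 * (4 * d ^ 2 / σ * N ^ 2 / |t|) + 3 * (1 + d) * N ^ 2 / |t| := by
    rw [hc]; ring
  rw [e2]
  linarith

end Pool.Agent.W772.LP
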