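import Pool.Agent.W772.LP3

set_option autoImplicit false

/-! The centred family: the integral bound, and the lower bound for the compressed family. -/

open MeasureTheory Set ENNReal Metric

namespace Pool.Agent.W772.LP

open Pool.Agent.H810R3.Tub

theorem card_le {d : ℕ} (hd : 1 ≤ d) {σ N : ℝ} (hσ : 0 < σ) (hσ1 : σ ≤ 1) (hN : 1 ≤ N) {ι : Type} [Fintype ι]
    (ω : ι → Vec d) (hω : ∀ i, ‖ω i‖ ≤ 1) (hsep : ∀ i j, i ≠ j → σ / N ≤ ‖ω i - ω j‖) :
    (Fintype.card ι : ℝ) ≤ (10 * d * N / σ) ^ d := by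
  classical
  have hN0 : 0 < N := by linarith
  have hd0 : (0 : ℝ) < d := by exact_mod_cast hd
  have hd1 : (1 : ℝ) ≤ d := by exact_mod_cast hd
  set ρ : ℝ := σ / (2 * d * N) with hρ
  have hρ0 : 0 < ρ := by positivity
  have hρ1 : ρ ≤ 1 := by
    rw [hρ, div_le_one (by positivity)]
    nlinarith [mul_nonneg (sub_nonneg.2 hd1) hN0.le]
  have hdρ : d * ρ < σ / N := by
    rw [hρ, ← mul_div_assoc, div_lt_div_iff₀ (by positivity) hN0]
    nlinarith [mul_pos (mul_pos hd0 hσ) hN0]
  have hinj : Function.Injective (fun i => cell ρ (ω i)) := by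
    intro i j h
    by_contra hne
    have h3 := cell_close hρ0 h
    have h4 := hsep i j hne
    linarith
  have h := cell_card hρ0 hρ1 ω hω
  rw [Finset.card_image_of_injective _ hinj, Finset.card_univ] at h
  refine h.trans (le_of_eq ?_)
  congr 1
  rw [hρ]
  field_simp
  ring

/-- The centred family: no logarithm for `p < 1 + 1/d`. -/
theorem cent (d : ℕ) (hd : 1 ≤ d) (σ : ℝ) (hσ : 0 < σ) (hσ1 : σ ≤ 1) (p : ℝ) (hp1 : 1 < p)
    (hp2 : p < 1 + 1 / d) :
    ∃ C : ℝ, 0 < C ∧ ∀ (N : ℝ), 1 ≤ N → ∀ (ι : Type) [Fintype ι] (ω : ι → Vec d) (f : ι → Fin d → Space d),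
      (∀ i, ‖ω i‖ ≤ 1) → (∀ i j, i ≠ j → σ / N ≤ ‖ω i - ω j‖) →
      (∀ i, Orthonormal ℝ (Fin.cons (nor (ω i)) (f i) : Fin (d + 1) → Space d)) →
      ∫⁻ y, Fb N ω f (fun _ => 0) y ^ p ≤ ENNReal.ofReal (C * N ^ (2 * (d + 1))) := by
  classical
  have hd0 : (0 : ℝ) < d := by exact_mod_cast hd
  set c : ℝ := 8 * d ^ 2 / σ + 3 * (1 + d) with hc
  have hc0 : 0 < c := by positivity
  set a : ℝ := d * (p - 1) with ha
  have ha0 : 0 < a := mul_pos hd0 (by linarith)
  have ha1 : a < 1 := by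
    have h1 : p - 1 < 1 / d := by linarith
    calc a < d * (1 / d) := mul_lt_mul_of_pos_left h1 hd0
      _ = 1 := by field_simp
  have h1a : 0 < 1 - a := by linarith
  have hom : 0 < om d := om_pos
  refine ⟨2 * (c ^ a * ((1 + d) / 2) ^ (1 - a) / (1 - a)) * ((10 * d / σ) ^ d * ((2 * d) ^ d * om d)),
    by positivity, ?_⟩
  intro N hN ι _ ω f hω hsep hf
  have hN0 : 0 < N := by linarith
  set T : ℝ := (1 + d) * N ^ 2 / 2 with hT
  have hT0 : 0 < T := by positivity
  have hmp := WithLp.volume_preserving_toLp (Vec d) ℝ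
  have hg : Measurable (fun y : Space d => Fb N ω f (fun _ => 0) y ^ p) := (Fb_measurable N ω f _).pow_const _
  have hS : ∫⁻ y : Space d, Fb N ω f (fun _ => 0) y ^ p =
      ∫⁻ t : ℝ, ∫⁻ x : Vec d, Fb N ω f (fun _ => 0) (WithLp.toLp 2 (x, t)) ^ p := by
    rw [← hmp.lintegral_comp hg]
    have hg2 : Measurable (fun p' : Vec d × ℝ => Fb N ω f (fun _ => 0) (WithLp.toLp 2 p') ^ p) :=
      hg.comp hmp.measurable
    rw [Measure.volume_eq_prod, lintegral_prod_symm _ hg2.aemeasurable]
  rw [hS]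
  -- the mass of a slice
  set Z : ℝ := (10 * d * N / σ) ^ d * ((2 * d * N) ^ d * om d) with hZ
  have hZ0 : 0 < Z := by positivity
  have hmass : ∀ t : ℝ, ∫⁻ x : Vec d, Fb N ω f (fun _ => 0) (WithLp.toLp 2 (x, t)) ≤ ENNReal.ofReal Z := by
    intro t
    have hsm : ∀ i, MeasurableSet {x : Vec d | (WithLp.toLp 2 (x, t) : Space d) ∈ box N (nor (ω i)) (f i) 0} := by
      intro i
      have h1 : Measurable (fun x : Vec d => (WithLp.toLp 2 (x, t) : Space d)) :=
        hmp.measurable.comp (measurable_id.prodMk measurable_const)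
      exact h1 (box_closed _ _ _ _).measurableSet
    have hF : ∀ x : Vec d, Fb N ω f (fun _ => 0) (WithLp.toLp 2 (x, t)) =
        ∑ i, {x : Vec d | (WithLp.toLp 2 (x, t) : Space d) ∈ box N (nor (ω i)) (f i) 0}.indicator
          (fun _ => (1 : ℝ≥0∞)) x := fun x => rfl
    simp only [hF]
    rw [lintegral_finsetSum _ (fun i _ => measurable_const.indicator (hsm i))]
    calc ∑ i, ∫⁻ x, {x : Vec d | (WithLp.toLp 2 (x, t) : Space d) ∈ box N (nor (ω i)) (f i) 0}.indicator
            (fun _ => (1 : ℝ≥0∞)) x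
        ≤ ∑ _i : ι, ENNReal.ofReal ((2 * d * N) ^ d * om d) := by
          refine Finset.sum_le_sum fun i _ => ?_
          rw [lintegral_indicator_const (hsm i), one_mul]
          rw [← vol_closedBall (by positivity : 0 < 2 * (d : ℝ) * N),
            ← Measure.addHaar_closedBall_center volume (-((2 * t) • ω i))]
          refine measure_mono fun x hx => ?_
          obtain ⟨h1, _⟩ := box_coord hN (hω i) (hf i) hx
          rw [sub_zero] at h1
          rw [mem_closedBall, dist_eq_norm, sub_neg_eq_add]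
          exact h1
      _ = ENNReal.ofReal (Fintype.card ι * ((2 * d * N) ^ d * om d)) := by
          rw [Finset.sum_const, Finset.card_univ, nsmul_eq_mul, ENNReal.ofReal_mul (Nat.cast_nonneg _),
            ENNReal.ofReal_natCast]
      _ ≤ ENNReal.ofReal Z := by
          apply ENNReal.ofReal_le_ofReal
          rw [hZ]
          exact mul_le_mul_of_nonneg_right (card_le hd hσ hσ1 hN ω hω hsep) (by positivity)
  have hslice : ∀ t : ℝ, t ≠ 0 → ∫⁻ x : Vec d, Fb N ω f (fun _ => 0) (WithLp.toLp 2 (x, t)) ^ p ≤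
      (Icc (-T) T).indicator (fun t => ENNReal.ofReal ((c * N ^ 2 / |t|) ^ a) * ENNReal.ofReal Z) t := by
    intro t ht0
    by_cases ht : t ∈ Icc (-T) T
    · rw [indicator_of_mem ht]
      have hX : 0 ≤ c * N ^ 2 / |t| := by positivity
      calc ∫⁻ x : Vec d, Fb N ω f (fun _ => 0) (WithLp.toLp 2 (x, t)) ^ p
          ≤ ∫⁻ x : Vec d, ENNReal.ofReal ((c * N ^ 2 / |t|) ^ a) * Fb N ω f (fun _ => 0) (WithLp.toLp 2 (x, t)) := by
            refine lintegral_mono fun x => ?_
            have e : Fb N ω f (fun _ => 0) (WithLp.toLp 2 (x, t)) ^ p =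
                Fb N ω f (fun _ => 0) (WithLp.toLp 2 (x, t)) ^ (p - 1) *
                  Fb N ω f (fun _ => 0) (WithLp.toLp 2 (x, t)) := by
              conv_rhs => rw [← ENNReal.rpow_one (Fb N ω f (fun _ => 0) (WithLp.toLp 2 (x, t))),
                ← ENNReal.rpow_mul, one_mul, ← ENNReal.rpow_add_of_nonneg _ _ (by linarith) zero_le_one,
                sub_add_cancel]
            rw [e]
            refine mul_le_mul' ?_ le_rfl
            refine (ENNReal.rpow_le_rpow (count hd hσ hN ω f hω hsep hf x ht0) (by linarith)).trans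
              (le_of_eq ?_)
            rw [ENNReal.ofReal_rpow_of_nonneg (by positivity) (by linarith), ← Real.rpow_natCast,
              ← Real.rpow_mul hX]
        _ = ENNReal.ofReal ((c * N ^ 2 / |t|) ^ a) * ∫⁻ x : Vec d, Fb N ω f (fun _ => 0) (WithLp.toLp 2 (x, t)) :=
            lintegral_const_mul' _ _ ENNReal.ofReal_ne_top
        _ ≤ _ := mul_le_mul' le_rfl (hmass t)
    · rw [indicator_of_notMem ht]
      apply le_of_eq
      have : ∀ x : Vec d, Fb N ω f (fun _ => 0) (WithLp.toLp 2 (x, t)) ^ p = 0 := by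
        intro x
        have h0 : Fb N ω f (fun _ => 0) (WithLp.toLp 2 (x, t)) = 0 := by
          unfold Fb
          apply Finset.sum_eq_zero
          intro i _
          refine indicator_of_notMem (fun h => ht ?_) _
          obtain ⟨_, h2⟩ := box_coord hN (hω i) (hf i) h
          rw [sub_zero] at h2
          exact abs_le.1 h2
        rw [h0, ENNReal.zero_rpow_of_pos (by linarith)]
      simp only [this, lintegral_zero]
  calc ∫⁻ t : ℝ, ∫⁻ x : Vec d, Fb N ω f (fun _ => 0) (WithLp.toLp 2 (x, t)) ^ p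
      ≤ ∫⁻ t : ℝ, (Icc (-T) T).indicator (fun t => ENNReal.ofReal ((c * N ^ 2 / |t|) ^ a) * ENNReal.ofReal Z) t := by
        refine lintegral_mono_ae ?_
        have h0 : ∀ᵐ t : ℝ, t ≠ 0 := by
          rw [ae_iff]
          simp
        filter_upwards [h0] with t ht
        exact hslice t ht
    _ = (∫⁻ t in Icc (-T) T, ENNReal.ofReal ((c * N ^ 2 / |t|) ^ a)) * ENNReal.ofReal Z := by
        rw [lintegral_indicator measurableSet_Icc, lintegral_mul_const' _ _ ENNReal.ofReal_ne_top]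
    _ ≤ ENNReal.ofReal (2 * ((c * N ^ 2) ^ a * T ^ (1 - a) / (1 - a))) * ENNReal.ofReal Z :=
        mul_le_mul' (time_int hT0 (by positivity) ha0 ha1) le_rfl
    _ = _ := by
        rw [← ENNReal.ofReal_mul (by positivity)]
        congr 1
        have e1 : (c * N ^ 2) ^ a * T ^ (1 - a) = c ^ a * ((1 + d) / 2) ^ (1 - a) * N ^ 2 := by
          have e2 : T = (1 + d) / 2 * N ^ 2 := by rw [hT]; ring
          rw [e2, Real.mul_rpow hc0.le (by positivity), Real.mul_rpow (by positivity) (by positivity)]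
          have e3 : (N ^ 2) ^ a * (N ^ 2) ^ (1 - a) = N ^ 2 := by
            rw [← Real.rpow_add (by positivity)]
            simp
          calc c ^ a * (N ^ 2) ^ a * (((1 + d) / 2) ^ (1 - a) * (N ^ 2) ^ (1 - a))
              = c ^ a * ((1 + d) / 2) ^ (1 - a) * ((N ^ 2) ^ a * (N ^ 2) ^ (1 - a)) := by ring
            _ = _ := by rw [e3]
        rw [e1, hZ, mul_pow (2 * (d : ℝ)), show 10 * (d : ℝ) * N / σ = (10 * d / σ) * N by ring, mul_pow (10 * (d : ℝ) / σ)]
        ring

end Pool.Agent.W772.LP
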