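import Pool.Agent.W772.LP4

set_option autoImplicit false

/-! The compressed family: the two conclusions. -/

open MeasureTheory Set ENNReal Metric

namespace Pool.Agent.W772.LP

open Pool.Agent.H810R3.Tub

/-- The sum of the volumes of the boxes. -/
theorem vol_sum {d : ℕ} {ι : Type} [Fintype ι] {N : ℝ} (hN : 1 ≤ N) {ω : ι → Vec d} {f : ι → Fin d → Space d}
    (hf : ∀ i, Orthonormal ℝ (Fin.cons (nor (ω i)) (f i) : Fin (d + 1) → Space d)) (a : ι → Space d) :
    ∑ i, volume (box N (nor (ω i)) (f i) (a i)) = ENNReal.ofReal ((Fintype.card ι : ℝ) * N ^ (d + 2)) := by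
  rw [Finset.sum_congr rfl (fun i _ => vol_box hN (hf i) (a i)), Finset.sum_const, Finset.card_univ,
    nsmul_eq_mul, ENNReal.ofReal_mul (Nat.cast_nonneg _), ENNReal.ofReal_natCast]

/-- The lower bound for the power integral of the compressed family. -/
theorem comp_lower (d : ℕ) (hd : 1 ≤ d) (σ κ : ℝ) (hσ : 0 < σ) (hσ1 : σ ≤ 1) (hκ : 0 < κ) (p : ℝ)
    (hp1 : 1 < p) (hp2 : p < 1 + 1 / d) :
    ∃ c : ℝ, 0 < c ∧ ∀ (N : ℝ), 2 ≤ N → ∀ (ι : Type) [Fintype ι] (ω : ι → Vec d) (f : ι → Fin d → Space d),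
      (∀ i, ‖ω i‖ ≤ 1) → (∀ i j, i ≠ j → σ / N ≤ ‖ω i - ω j‖) → κ * N ^ d ≤ (Fintype.card ι : ℝ) →
      (∀ i, Orthonormal ℝ (Fin.cons (nor (ω i)) (f i) : Fin (d + 1) → Space d)) →
      ENNReal.ofReal (c * Real.log N ^ (d * (p - 1))) * ∫⁻ y, Fb N ω f (fun _ => 0) y ^ p ≤
        ∫⁻ y, Fb N ω f (fun i => pos N (ω i)) y ^ p := by
  classical
  have hd0 : (0 : ℝ) < d := by exact_mod_cast hd
  obtain ⟨Cp, hCp, hcent⟩ := cent d hd σ hσ hσ1 p hp1 hp2
  set C₁ : ℝ := (1 + d) * (200 * (1 + d)) ^ d with hC₁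
  have hC₁0 : 0 < C₁ := by positivity
  refine ⟨κ ^ p / C₁ ^ (p - 1) / Cp, by positivity, ?_⟩
  intro N hN ι _ ω f hω hsep hcard hf
  have hN1 : 1 < N := by linarith
  have hN0 : 0 < N := by linarith
  have hlog : 0 < Real.log N := Real.log_pos hN1
  set M : ℝ := N ^ (2 * (d + 1)) with hM
  have hM0 : 0 < M := by positivity
  set E : ℝ := C₁ * M * (1 / Real.log N) ^ d with hE
  have hE0 : 0 < E := by positivity
  set V : ℝ := (Fintype.card ι : ℝ) * N ^ (d + 2) with hV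
  have hVκ : κ * M ≤ V := by
    rw [hV, hM]
    calc κ * N ^ (2 * (d + 1)) = (κ * N ^ d) * N ^ (d + 2) := by ring
      _ ≤ _ := mul_le_mul_of_nonneg_right hcard (by positivity)
  have hV0 : 0 < V := lt_of_lt_of_le (by positivity) hVκ
  have hun := union_vol d hd hN1 ω f hω hf
  have hun' : volume (⋃ i, box N (nor (ω i)) (f i) (pos N (ω i))) ≤ ENNReal.ofReal E := hun
  set S : Set (Space d) := ⋃ i, box N (nor (ω i)) (f i) (pos N (ω i)) with hS
  have hSm : MeasurableSet S := MeasurableSet.iUnion fun i => (box_closed _ _ _ _).measurableSet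
  have hlow := lower (μ := (volume : Measure (Space d))) (Fb_measurable N ω f (fun i => pos N (ω i))) hSm (by
    intro y hy
    unfold Fb
    apply Finset.sum_eq_zero
    intro i _
    exact indicator_of_notMem (fun h => hy (mem_iUnion.2 ⟨i, h⟩)) _) hp1.le
  rw [Fb_int hN1.le hf] at hlow
  have hlow2 : ENNReal.ofReal (V ^ p) ≤ (∫⁻ y, Fb N ω f (fun i => pos N (ω i)) y ^ p) * ENNReal.ofReal (E ^ (p - 1)) := by
    rw [← ENNReal.ofReal_rpow_of_pos hV0]
    refine hlow.trans (mul_le_mul' le_rfl ?_)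
    rw [← ENNReal.ofReal_rpow_of_pos hE0]
    exact ENNReal.rpow_le_rpow hun' (by linarith)
  have hEp : 0 < E ^ (p - 1) := Real.rpow_pos_of_pos hE0 _
  have hlow3 : ENNReal.ofReal (V ^ p / E ^ (p - 1)) ≤ ∫⁻ y, Fb N ω f (fun i => pos N (ω i)) y ^ p := by
    rw [ENNReal.ofReal_div_of_pos hEp]
    exact ENNReal.div_le_of_le_mul hlow2
  refine le_trans ?_ hlow3
  refine (mul_le_mul' le_rfl (hcent N hN1.le ι ω f hω hsep hf)).trans ?_
  rw [← ENNReal.ofReal_mul (by positivity)]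
  apply ENNReal.ofReal_le_ofReal
  rw [le_div_iff₀ hEp]
  have e1 : E ^ (p - 1) = C₁ ^ (p - 1) * M ^ (p - 1) * (Real.log N ^ (d * (p - 1)))⁻¹ := by
    rw [hE, Real.mul_rpow (by positivity) (by positivity), Real.mul_rpow hC₁0.le hM0.le]
    congr 1
    rw [one_div, inv_pow, ← Real.rpow_natCast, Real.inv_rpow (by positivity), ← Real.rpow_mul hlog.le]
  have e2 : κ ^ p * M ^ p ≤ V ^ p := by
    rw [← Real.mul_rpow hκ.le hM0.le]
    exact Real.rpow_le_rpow (by positivity) hVκ (by linarith)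
  have e3 : M ^ (p - 1) * M = M ^ p := by
    conv_lhs => rw [← Real.rpow_one M, ← Real.rpow_mul hM0.le, one_mul, ← Real.rpow_add hM0, sub_add_cancel]
  have hlp : 0 < Real.log N ^ (d * (p - 1)) := Real.rpow_pos_of_pos hlog _
  refine le_trans (le_of_eq ?_) e2
  rw [e1, ← e3]
  field_simp
  exact hM.symm

end Pool.Agent.W772.LP
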