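import Pool.Agent.W772.Beu7
import Pool.Agent.W772.Beu8

set_option autoImplicit false

open MeasureTheory
open scoped FourierTransform

namespace Pool.Agent.Results.MP_3dd6d4_an.NormAllP

/-- For every real `p ≥ 2` the Beurling transform (the Fourier multiplier with symbol `conj ξ / ξ`,
the case `n = 1` of the powers) has norm at most `1.1 (p - 1)` on `L^p` of the plane. -/
theorem result (p : ℝ) (hp : 2 ≤ p) (f : SchwartzMap ℂ ℂ) :
    eLpNorm
      (fun z : ℂ => ∫ ξ : ℂ,
        Complex.exp (2 * (Real.pi : ℂ) * Complex.I * ((z.re * ξ.re + z.im * ξ.im : ℝ) : ℂ)) *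
          ((starRingEnd ℂ ξ / ξ) ^ 1 *
            ∫ w : ℂ, Complex.exp (-(2 * (Real.pi : ℂ) * Complex.I *
              ((w.re * ξ.re + w.im * ξ.im : ℝ) : ℂ))) * f w))
      (ENNReal.ofReal p) volume
    ≤ ENNReal.ofReal (11 / 10 * (p - 1)) *
      eLpNorm (fun z : ℂ => f z) (ENNReal.ofReal p) volume := by
  have hmain : ∀ f : ℂ → ℂ, ContDiff ℝ 1 f → HasCompactSupport f →
      ∫ z, ‖W779.Morrey.dz f z‖ ^ p ≤ (11 / 10 * (p - 1)) ^ p * ∫ z, ‖W779.Morrey.dzbar f z‖ ^ p := by
    intro f hf hc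
    have h := W772.Beu.beurling_p (q := p - 2) (by linarith) f hf hc
    have e1 : p - 2 + 2 = p := by ring
    have e2 : p - 2 + 1 = p - 1 := by ring
    rw [e1, e2] at h
    exact h
  have hC : 0 ≤ 11 / 10 * (p - 1) := by linarith
  have hp0 : p ≠ 0 := by linarith
  have h := W772.Beu.beurling_norm_p hp (Real.rpow_nonneg hC p) hmain f
  rw [← Real.rpow_mul hC, mul_one_div_cancel hp0, Real.rpow_one] at h
  refine le_trans (le_of_eq ?_) h
  congr 1
  funext z
  rw [Real.fourierInv_eq']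
  refine integral_congr_ae (Filter.Eventually.of_forall fun ξ => ?_)
  have hin : ∀ a b : ℂ, (inner ℝ a b : ℝ) = a.re * b.re + a.im * b.im := by
    intro a b
    rw [Complex.inner]
    simp
    ring
  simp only [smul_eq_mul, pow_one]
  rw [Real.fourier_eq']
  have e1 : ∫ w : ℂ, Complex.exp (-(2 * (Real.pi : ℂ) * Complex.I *
      ((w.re * ξ.re + w.im * ξ.im : ℝ) : ℂ))) * f w
      = ∫ v : ℂ, Complex.exp (((-2 * Real.pi * inner ℝ v ξ : ℝ) : ℂ) * Complex.I) • f v := by
    refine integral_congr_ae (Filter.Eventually.of_forall fun x => ?_)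
    simp only [smul_eq_mul]
    rw [hin]
    congr 2
    push_cast
    ring
  rw [e1, hin]
  congr 2
  push_cast
  ring

end Pool.Agent.Results.MP_3dd6d4_an.NormAllP
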