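import Mathlib

set_option autoImplicit false

/-! Planar families of strips: first and second moments. -/

open MeasureTheory Set ENNReal

namespace Pool.Agent.W772

variable {J : Type} [Fintype J]

open Classical in
/-- number of strips through a point of a planar family -/
noncomputable def fpl (R : ℝ) (v b : J → ℝ) (t z : ℝ) : ℝ≥0∞ :=
  ∑ l, if |z + t * v l - b l| ≤ R then 1 else 0

theorem strip_meas (R a b : ℝ) : MeasurableSet {p : ℝ × ℝ | |p.2 + p.1 * a - b| ≤ R} := by
  apply IsClosed.measurableSet
  exact isClosed_le (by fun_prop) continuous_const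

theorem ind_meas (R a b : ℝ) [∀ p : ℝ × ℝ, Decidable (|p.2 + p.1 * a - b| ≤ R)] :
    Measurable (fun p : ℝ × ℝ => if |p.2 + p.1 * a - b| ≤ R then (1 : ℝ≥0∞) else 0) :=
  Measurable.ite (strip_meas R a b) measurable_const measurable_const

theorem fpl_meas (R : ℝ) (v b : J → ℝ) : Measurable (fun p : ℝ × ℝ => fpl R v b p.1 p.2) := by
  classical
  unfold fpl
  apply Finset.measurable_fun_sum
  intro l _
  exact Measurable.ite (strip_meas R (v l) (b l)) measurable_const measurable_const

theorem fpl_meas' (R : ℝ) (v b : J → ℝ) (t : ℝ) : Measurable (fun z : ℝ => fpl R v b t z) :=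
  (fpl_meas R v b).comp (measurable_const.prodMk measurable_id)

theorem vol_strip {R : ℝ} (c : ℝ) : volume {z : ℝ | |z + c| ≤ R} = ENNReal.ofReal (2 * R) := by
  have : {z : ℝ | |z + c| ≤ R} = Icc (-c - R) (-c + R) := by
    ext z
    simp only [mem_ofPred_eq, mem_Icc, abs_le]
    constructor
    · rintro ⟨h1, h2⟩; constructor <;> linarith
    · rintro ⟨h1, h2⟩; constructor <;> linarith
  rw [this, Real.volume_Icc]
  congr 1
  ring

/-- first moment -/
theorem fpl_one (R : ℝ) (v b : J → ℝ) (t : ℝ) :
    ∫⁻ z, fpl R v b t z = Fintype.card J * ENNReal.ofReal (2 * R) := by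
  classical
  unfold fpl
  rw [lintegral_finsetSum _ (fun l _ => ?_)]
  · have : ∀ l : J, ∫⁻ z : ℝ, (if |z + t * v l - b l| ≤ R then (1 : ℝ≥0∞) else 0) =
        ENNReal.ofReal (2 * R) := by
      intro l
      have e : (fun z : ℝ => if |z + t * v l - b l| ≤ R then (1 : ℝ≥0∞) else 0) =
          {z : ℝ | |z + (t * v l - b l)| ≤ R}.indicator (fun _ => 1) := by
        funext z
        rw [indicator_apply]
        simp only [mem_ofPred_eq, add_sub_assoc]
      rw [e, lintegral_indicator_const, one_mul, vol_strip]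
      apply IsClosed.measurableSet
      exact isClosed_le (by fun_prop) continuous_const
    rw [Finset.sum_congr rfl (fun l _ => this l), Finset.sum_const, Finset.card_univ, nsmul_eq_mul]
  · have := (ind_meas R (v l) (b l)).comp (measurable_const.prodMk measurable_id : Measurable (fun z : ℝ => (t, z)))
    exact this

theorem vol_time {R a : ℝ} (ha : a ≠ 0) (c : ℝ) :
    volume {t : ℝ | |t * a - c| ≤ 2 * R} = ENNReal.ofReal (4 * R * (1 / |a|)) := by
  have ha0 : 0 < |a| := abs_pos.2 ha
  have : {t : ℝ | |t * a - c| ≤ 2 * R} = Icc (c / a - 2 * R / |a|) (c / a + 2 * R / |a|) := by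
    ext t
    simp only [mem_ofPred_eq, mem_Icc]
    have e : t * a - c = (t - c / a) * a := by field_simp
    rw [e, abs_mul, ← le_div_iff₀ ha0, abs_le]
    constructor
    · rintro ⟨h1, h2⟩; constructor <;> linarith
    · rintro ⟨h1, h2⟩; constructor <;> linarith
  rw [this, Real.volume_Icc]
  congr 1
  ring

theorem pair_z {R : ℝ} (_hR : 0 ≤ R) (c c' : ℝ) :
    volume ({z : ℝ | |z + c| ≤ R} ∩ {z : ℝ | |z + c'| ≤ R}) ≤
      {w : ℝ | |w| ≤ 2 * R}.indicator (fun _ => ENNReal.ofReal (2 * R)) (c - c') := by
  by_cases h : |c - c'| ≤ 2 * R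
  · rw [indicator_of_mem (show c - c' ∈ {w : ℝ | |w| ≤ 2 * R} from h)]
    exact (measure_mono inter_subset_left).trans (vol_strip c).le
  · rw [indicator_of_notMem (show c - c' ∉ {w : ℝ | |w| ≤ 2 * R} from h)]
    apply le_of_eq
    have : ({z : ℝ | |z + c| ≤ R} ∩ {z : ℝ | |z + c'| ≤ R}) = ∅ := by
      ext z
      simp only [mem_inter_iff, mem_ofPred_eq, mem_empty_iff_false, iff_false, not_and]
      intro h1 h2
      apply h
      have : c - c' = (z + c) - (z + c') := by ring
      rw [this]
      exact (abs_sub _ _).trans (by linarith)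
    rw [this, measure_empty]

/-- second moment -/
theorem fpl_two {R T H : ℝ} (hR : 0 ≤ R) (hT : 0 ≤ T) (hH : 0 ≤ H) (v b : J → ℝ)
    (hv : ∀ k l, k ≠ l → v k ≠ v l) [DecidableEq J]
    (hs : ∀ k, ∑ l ∈ Finset.univ.erase k, 1 / |v k - v l| ≤ H) :
    ∫⁻ t in Icc (-T) T, ∫⁻ z, fpl R v b t z ^ (2 : ℝ) ≤
      (Fintype.card J * ENNReal.ofReal (2 * R)) * ENNReal.ofReal (2 * T + 4 * R * H) := by
  classical
  have hS : ∀ (l : J) (t : ℝ), MeasurableSet {z : ℝ | |z + (t * v l - b l)| ≤ R} := by
    intro l t
    apply IsClosed.measurableSet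
    exact isClosed_le (by fun_prop) continuous_const
  have e1 : ∀ t z, fpl R v b t z ^ (2 : ℝ) = ∑ k, ∑ l,
      ({z : ℝ | |z + (t * v k - b k)| ≤ R} ∩ {z : ℝ | |z + (t * v l - b l)| ≤ R}).indicator
        (fun _ => (1 : ℝ≥0∞)) z := by
    intro t z
    rw [ENNReal.rpow_two, sq]
    unfold fpl
    rw [Finset.sum_mul_sum]
    refine Finset.sum_congr rfl fun k _ => Finset.sum_congr rfl fun l _ => ?_
    rw [indicator_apply]
    simp only [mem_inter_iff, mem_ofPred_eq, add_sub_assoc]
    by_cases h1 : |z + (t * v k - b k)| ≤ R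
    · by_cases h2 : |z + (t * v l - b l)| ≤ R
      · simp [h1, h2]
      · simp [h1, h2]
    · simp [h1]
  have e2 : ∀ t, ∫⁻ z, fpl R v b t z ^ (2 : ℝ) ≤ ∑ k, ∑ l,
      {w : ℝ | |w| ≤ 2 * R}.indicator (fun _ => ENNReal.ofReal (2 * R))
        ((t * v k - b k) - (t * v l - b l)) := by
    intro t
    simp only [e1]
    rw [lintegral_finsetSum _ (fun k _ => Finset.measurable_fun_sum _ fun l _ =>
      measurable_const.indicator ((hS k t).inter (hS l t)))]
    refine Finset.sum_le_sum fun k _ => ?_
    rw [lintegral_finsetSum _ (fun l _ => measurable_const.indicator ((hS k t).inter (hS l t)))]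
    refine Finset.sum_le_sum fun l _ => ?_
    rw [lintegral_indicator_const ((hS k t).inter (hS l t)), one_mul]
    exact pair_z hR _ _
  have hm : ∀ k l : J, Measurable (fun t : ℝ => {w : ℝ | |w| ≤ 2 * R}.indicator
      (fun _ => ENNReal.ofReal (2 * R)) ((t * v k - b k) - (t * v l - b l))) := by
    intro k l
    have h0 : MeasurableSet {w : ℝ | |w| ≤ 2 * R} := (isClosed_le (by fun_prop) continuous_const).measurableSet
    exact (measurable_const.indicator h0).comp (by fun_prop)
  calc ∫⁻ t in Icc (-T) T, ∫⁻ z, fpl R v b t z ^ (2 : ℝ)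
      ≤ ∫⁻ t in Icc (-T) T, ∑ k, ∑ l, {w : ℝ | |w| ≤ 2 * R}.indicator (fun _ => ENNReal.ofReal (2 * R))
        ((t * v k - b k) - (t * v l - b l)) := lintegral_mono fun t => e2 t
    _ = ∑ k, ∑ l, ∫⁻ t in Icc (-T) T, {w : ℝ | |w| ≤ 2 * R}.indicator
        (fun _ => ENNReal.ofReal (2 * R)) ((t * v k - b k) - (t * v l - b l)) := by
        rw [lintegral_finsetSum _ (fun k _ => Finset.measurable_fun_sum _ fun l _ => hm k l)]
        refine Finset.sum_congr rfl fun k _ => ?_
        rw [lintegral_finsetSum _ (fun l _ => hm k l)]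
    _ ≤ ∑ _k : J, ENNReal.ofReal (2 * R) * ENNReal.ofReal (2 * T + 4 * R * H) := by
        refine Finset.sum_le_sum fun k _ => ?_
        rw [← Finset.add_sum_erase _ _ (Finset.mem_univ k)]
        have h1 : ∫⁻ t in Icc (-T) T, {w : ℝ | |w| ≤ 2 * R}.indicator
            (fun _ => ENNReal.ofReal (2 * R)) ((t * v k - b k) - (t * v k - b k)) ≤
            ENNReal.ofReal (2 * R) * ENNReal.ofReal (2 * T) := by
          calc _ ≤ ∫⁻ _t in Icc (-T) T, ENNReal.ofReal (2 * R) := by
                refine lintegral_mono fun t => ?_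
                exact indicator_le_self' (fun _ _ => zero_le) _
            _ = ENNReal.ofReal (2 * R) * ENNReal.ofReal (2 * T) := by
                rw [setLIntegral_const, Real.volume_Icc]
                congr 2
                ring
        have h2 : ∀ l ∈ Finset.univ.erase k, ∫⁻ t in Icc (-T) T, {w : ℝ | |w| ≤ 2 * R}.indicator
            (fun _ => ENNReal.ofReal (2 * R)) ((t * v k - b k) - (t * v l - b l)) ≤
            ENNReal.ofReal (2 * R) * ENNReal.ofReal (4 * R * (1 / |v k - v l|)) := by
          intro l hl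
          have hne : v k - v l ≠ 0 := sub_ne_zero.2 (hv k l (Finset.ne_of_mem_erase hl).symm)
          have hms : MeasurableSet {t : ℝ | |t * (v k - v l) - (b k - b l)| ≤ 2 * R} :=
            (isClosed_le (by fun_prop) continuous_const).measurableSet
          calc _ ≤ ∫⁻ t : ℝ, {w : ℝ | |w| ≤ 2 * R}.indicator
                (fun _ => ENNReal.ofReal (2 * R)) ((t * v k - b k) - (t * v l - b l)) :=
                setLIntegral_le_lintegral _ _
            _ = ∫⁻ t : ℝ, {t : ℝ | |t * (v k - v l) - (b k - b l)| ≤ 2 * R}.indicator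
                (fun _ => ENNReal.ofReal (2 * R)) t := by
                refine lintegral_congr fun t => ?_
                have e : (t * v k - b k) - (t * v l - b l) = t * (v k - v l) - (b k - b l) := by ring
                rw [e]
                rfl
            _ = ENNReal.ofReal (2 * R) * ENNReal.ofReal (4 * R * (1 / |v k - v l|)) := by
                rw [lintegral_indicator_const hms, vol_time hne]
        calc _ ≤ ENNReal.ofReal (2 * R) * ENNReal.ofReal (2 * T) +
              ∑ l ∈ Finset.univ.erase k, ENNReal.ofReal (2 * R) * ENNReal.ofReal (4 * R * (1 / |v k - v l|)) :=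
              add_le_add h1 (Finset.sum_le_sum h2)
          _ = ENNReal.ofReal (2 * R) * ENNReal.ofReal (2 * T +
              4 * R * ∑ l ∈ Finset.univ.erase k, (1 / |v k - v l|)) := by
              rw [← Finset.mul_sum, ← mul_add, ← ENNReal.ofReal_sum_of_nonneg (fun l _ => by positivity),
                ← ENNReal.ofReal_add (by positivity) (Finset.sum_nonneg fun l _ => by positivity),
                Finset.mul_sum]
          _ ≤ _ := by
              gcongr
              exact hs k
    _ = _ := by
        rw [Finset.sum_const, Finset.card_univ, nsmul_eq_mul]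
        ring

end Pool.Agent.W772
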