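import Pool.Agent.W772.Tri1
import Pool.Agent.H810R3.Tub.Lp

set_option autoImplicit false
set_option linter.unusedSectionVars false

/-! Triangular families: the induction on the dimension. -/

open MeasureTheory Set ENNReal

namespace Pool.Agent.W772

/-- The inequality for one fibre. -/
theorem fiber {K : Type} [Fintype K] {α : Type} [MeasurableSpace α] {μ : Measure α} (w : K → ℝ≥0∞)
    (hw : ∀ k, w k ≠ ∞) (f : K → α → ℝ≥0∞) (hf : ∀ k, Measurable (f k)) {d : ℝ} (hd : 1 ≤ d) :
    ∫⁻ z, (∑ k, w k * f k z) ^ (1 + 1 / d) ∂μ ≤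
      (∑ k, w k) * (∑ k, w k * (∫⁻ z, f k z ^ (1 + 1 / d) ∂μ) ^ d) ^ (1 / d) := by
  have hd0 : 0 < d := by linarith
  set p : ℝ := 1 + 1 / d with hp
  have hp1 : 1 ≤ p := by
    have : 0 < 1 / d := by positivity
    linarith
  have hp0 : 0 < p := by linarith
  have h1 : ∀ z, (∑ k, w k * f k z) ^ p ≤ (∑ k, w k) ^ (1 / d) * ∑ k, w k * f k z ^ p := by
    intro z
    have h := ENNReal.inner_le_weight_mul_Lp_of_nonneg Finset.univ hp1 w (fun k => f k z)
    have h2 := ENNReal.rpow_le_rpow h hp0.le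
    refine h2.trans (le_of_eq ?_)
    rw [ENNReal.mul_rpow_of_nonneg _ _ hp0.le, ← ENNReal.rpow_mul, ← ENNReal.rpow_mul,
      inv_mul_cancel₀ hp0.ne', ENNReal.rpow_one]
    congr 2
    have : (1 - p⁻¹) * p = p - 1 := by field_simp
    rw [this, hp]
    ring
  have hsum : ∑ k, w k ≠ ∞ := by
    rw [ENNReal.sum_ne_top]
    exact fun k _ => hw k
  calc ∫⁻ z, (∑ k, w k * f k z) ^ p ∂μ ≤ ∫⁻ z, (∑ k, w k) ^ (1 / d) * ∑ k, w k * f k z ^ p ∂μ :=
        lintegral_mono h1
    _ = (∑ k, w k) ^ (1 / d) * ∑ k, w k * ∫⁻ z, f k z ^ p ∂μ := by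
        rw [lintegral_const_mul' _ _ (ENNReal.rpow_ne_top_of_nonneg (by positivity) hsum),
          lintegral_finsetSum _ (fun k _ => ((hf k).pow_const p).const_mul _)]
        congr 1
        refine Finset.sum_congr rfl fun k _ => ?_
        rw [lintegral_const_mul _ ((hf k).pow_const p)]
    _ ≤ (∑ k, w k) ^ (1 / d) * ((∑ k, w k) ^ (1 - d⁻¹) *
          (∑ k, w k * (∫⁻ z, f k z ^ p ∂μ) ^ d) ^ d⁻¹) :=
        mul_le_mul' le_rfl (ENNReal.inner_le_weight_mul_Lp_of_nonneg Finset.univ hd w _)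
    _ = _ := by
        have h0 : 0 ≤ 1 - d⁻¹ := by
          rw [sub_nonneg]
          exact inv_le_one_of_one_le₀ hd
        rw [← mul_assoc, ← ENNReal.rpow_add_of_nonneg _ _ (by positivity) h0]
        rw [one_div, add_sub_cancel, ENNReal.rpow_one]

variable {J : Type} [Fintype J]

/-- The slice at height `t` of a tube. -/
def hit {e : ℕ} (R : ℝ) (v : J → ℝ) (b : Fin e → ℝ) (k : Fin e → J) (t : ℝ) : Set (Fin e → ℝ) :=
  {x | ∀ j, |x j + t * v (k j) - b j| ≤ R}

/-- The number of tubes through a point. -/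
noncomputable def Gs {e : ℕ} (R : ℝ) (v : J → ℝ) (B : (Fin e → J) → Fin e → ℝ) (t : ℝ) (x : Fin e → ℝ) : ℝ≥0∞ :=
  ∑ k : Fin e → J, (hit R v (B k) k t).indicator (fun _ => 1) x

/-- A triangular family of positions. -/
def Tri {e : ℕ} (B : (Fin e → J) → Fin e → ℝ) : Prop :=
  ∀ (k k' : Fin e → J) (j : Fin e), (∀ l, l ≤ j → k l = k' l) → B k j = B k' j

theorem hit_closed {e : ℕ} (R : ℝ) (v : J → ℝ) (b : Fin e → ℝ) (k : Fin e → J) :
    IsClosed {p : ℝ × (Fin e → ℝ) | p.2 ∈ hit R v b k p.1} := by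
  have : {p : ℝ × (Fin e → ℝ) | p.2 ∈ hit R v b k p.1} =
      ⋂ j, {p : ℝ × (Fin e → ℝ) | |p.2 j + p.1 * v (k j) - b j| ≤ R} := by
    ext p
    simp [hit]
  rw [this]
  exact isClosed_iInter fun j => isClosed_le (by fun_prop) continuous_const

theorem hit_ind_meas {e : ℕ} (R : ℝ) (v : J → ℝ) (b : Fin e → ℝ) (k : Fin e → J) :
    Measurable (fun p : ℝ × (Fin e → ℝ) => (hit R v b k p.1).indicator (fun _ => (1 : ℝ≥0∞)) p.2) := by
  have : (fun p : ℝ × (Fin e → ℝ) => (hit R v b k p.1).indicator (fun _ => (1 : ℝ≥0∞)) p.2) =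
      {p : ℝ × (Fin e → ℝ) | p.2 ∈ hit R v b k p.1}.indicator (fun _ => 1) := rfl
  rw [this]
  exact measurable_const.indicator (hit_closed R v b k).measurableSet

theorem Gs_meas {e : ℕ} (R : ℝ) (v : J → ℝ) (B : (Fin e → J) → Fin e → ℝ) :
    Measurable (fun p : ℝ × (Fin e → ℝ) => Gs R v B p.1 p.2) := by
  unfold Gs
  exact Finset.measurable_fun_sum _ fun k _ => hit_ind_meas R v (B k) k

theorem hit_vol {e : ℕ} (R : ℝ) (v : J → ℝ) (b : Fin e → ℝ) (k : Fin e → J) (t : ℝ) :
    volume (hit R v b k t) = ENNReal.ofReal (2 * R) ^ e := by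
  have : hit R v b k t = Set.pi univ (fun j => {z : ℝ | |z + (t * v (k j) - b j)| ≤ R}) := by
    ext x
    simp [hit, add_sub_assoc]
  rw [this, volume_pi_pi]
  simp only [vol_strip]
  simp

/-- The count in one more dimension. -/
theorem Gs_succ {e : ℕ} (R : ℝ) (v : J → ℝ) (B : (Fin (e + 1) → J) → Fin (e + 1) → ℝ) (hB : Tri B) (l₀ : J)
    (t : ℝ) (x : Fin e → ℝ) (z : ℝ) :
    Gs R v B t (Fin.snoc x z) = ∑ k : Fin e → J,
      (hit R v (fun j => B (Fin.snoc k l₀) j.castSucc) k t).indicator (fun _ => 1) x *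
        fpl R v (fun l => B (Fin.snoc k l) (Fin.last e)) t z := by
  classical
  unfold Gs
  rw [← (Fin.snocEquiv (fun _ => J)).sum_comp, Fintype.sum_prod_type, Finset.sum_comm]
  refine Finset.sum_congr rfl fun k _ => ?_
  unfold fpl
  rw [Finset.mul_sum]
  refine Finset.sum_congr rfl fun l _ => ?_
  have hk : (Fin.snocEquiv (fun _ => J)) (l, k) = (Fin.snoc k l : Fin (e + 1) → J) := rfl
  rw [hk]
  have hb : ∀ j : Fin e, B (Fin.snoc k l) j.castSucc = B (Fin.snoc k l₀) j.castSucc := by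
    intro j
    apply hB
    intro i hi
    have hi' : i.val < e := lt_of_le_of_lt hi j.isLt
    have : i = (⟨i.val, hi'⟩ : Fin e).castSucc := by ext; rfl
    rw [this, Fin.snoc_castSucc (α := fun _ => J), Fin.snoc_castSucc (α := fun _ => J)]
  have hiff : (Fin.snoc x z : Fin (e + 1) → ℝ) ∈ hit R v (B (Fin.snoc k l)) (Fin.snoc k l) t ↔
      x ∈ hit R v (fun j => B (Fin.snoc k l₀) j.castSucc) k t ∧
        |z + t * v l - B (Fin.snoc k l) (Fin.last e)| ≤ R := by
    unfold hit
    rw [mem_ofPred_eq, mem_ofPred_eq, Fin.forall_fin_succ']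
    simp only [Fin.snoc_castSucc, Fin.snoc_last, hb]
  by_cases h1 : x ∈ hit R v (fun j => B (Fin.snoc k l₀) j.castSucc) k t
  · by_cases h2 : |z + t * v l - B (Fin.snoc k l) (Fin.last e)| ≤ R
    · rw [indicator_of_mem (hiff.2 ⟨h1, h2⟩), indicator_of_mem h1, if_pos h2, one_mul]
    · rw [indicator_of_notMem (fun h => h2 (hiff.1 h).2), if_neg h2, mul_zero]
  · rw [indicator_of_notMem (fun h => h1 (hiff.1 h).1), indicator_of_notMem h1, zero_mul]

theorem Tri_succ {e : ℕ} {B : (Fin (e + 1) → J) → Fin (e + 1) → ℝ} (hB : Tri B) (l₀ : J) :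
    Tri (fun k : Fin e → J => fun j => B (Fin.snoc k l₀) j.castSucc) := by
  intro k k' j h
  apply hB
  intro l hl
  have hi' : l.val < e := lt_of_le_of_lt hl j.isLt
  have : l = (⟨l.val, hi'⟩ : Fin e).castSucc := by ext; rfl
  rw [this, Fin.snoc_castSucc (α := fun _ => J), Fin.snoc_castSucc (α := fun _ => J)]
  exact h _ hl

/-- Splitting off the last coordinate. -/
theorem lint_snoc {e : ℕ} (g : (Fin (e + 1) → ℝ) → ℝ≥0∞) (hg : Measurable g) :
    ∫⁻ x, g x = ∫⁻ x : Fin e → ℝ, ∫⁻ z : ℝ, g (Fin.snoc x z) := by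
  have h := (volume_preserving_piFinSuccAbove (fun _ : Fin (e + 1) => ℝ) (Fin.last e)).symm
  have h2 := h.lintegral_comp hg
  rw [← h2]
  have h3 : Measurable (fun p : ℝ × (Fin e → ℝ) =>
      g ((MeasurableEquiv.piFinSuccAbove (fun _ : Fin (e + 1) => ℝ) (Fin.last e)).symm p)) :=
    hg.comp (MeasurableEquiv.measurable _)
  have h4 := lintegral_prod_symm (μ := (volume : Measure ℝ)) (ν := (volume : Measure (Fin e → ℝ))) _ h3.aemeasurable
  refine Eq.trans ?_ (h4.trans ?_)
  · rfl
  · refine lintegral_congr fun x => lintegral_congr fun z => ?_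
    congr 1
    rw [MeasurableEquiv.piFinSuccAbove_symm_apply]
    exact (Fin.insertNth_last' (β := ℝ) z x)

theorem snoc_meas {e : ℕ} : Measurable (fun p : (Fin e → ℝ) × ℝ => (Fin.snoc p.1 p.2 : Fin (e + 1) → ℝ)) := by
  rw [measurable_pi_iff]
  intro j
  refine Fin.lastCases ?_ (fun i => ?_) j
  · simp only [Fin.snoc_last]
    exact measurable_snd
  · simp only [Fin.snoc_castSucc]
    exact (measurable_pi_apply i).comp measurable_fst

/-- The main estimate for triangular families. -/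
theorem main_tri [Nonempty J] {R T H : ℝ} (hR : 0 ≤ R) (hT : 0 ≤ T) (hH : 0 ≤ H) (v : J → ℝ)
    (hv : ∀ k l, k ≠ l → v k ≠ v l) [DecidableEq J]
    (hs : ∀ k, ∑ l ∈ Finset.univ.erase k, 1 / |v k - v l| ≤ H) :
    ∀ (e : ℕ) (B : (Fin e → J) → Fin e → ℝ), Tri B →
      ∫⁻ t in Icc (-T) T, ∫⁻ x : Fin e → ℝ, Gs R v B t x ^ (1 + 1 / (e : ℝ)) ≤
        (Fintype.card J * ENNReal.ofReal (2 * R)) ^ e * ENNReal.ofReal (2 * T + 4 * R * H) := by
  intro e
  induction e with
  | zero =>
    intro B _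
    have h1 : ∀ t x, Gs R v B t x = 1 := by
      intro t x
      unfold Gs
      rw [Fintype.sum_unique, indicator_of_mem]
      intro j
      exact j.elim0
    simp only [h1, ENNReal.one_rpow, lintegral_const, one_mul, pow_zero]
    rw [volume_pi, Measure.pi_univ]
    simp only [Finset.univ_eq_empty, Finset.prod_empty, one_mul, Measure.restrict_apply_univ, Real.volume_Icc]
    apply ENNReal.ofReal_le_ofReal
    have : 0 ≤ 4 * R * H := by positivity
    linarith
  | succ e ih =>
    intro B hB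
    obtain ⟨l₀⟩ := (inferInstance : Nonempty J)
    set X : ℝ≥0∞ := Fintype.card J * ENNReal.ofReal (2 * R) with hX
    set L : ℝ≥0∞ := ENNReal.ofReal (2 * T + 4 * R * H) with hL
    set B' : (Fin e → J) → Fin e → ℝ := fun k => fun j => B (Fin.snoc k l₀) j.castSucc with hB'
    have hTri' : Tri B' := Tri_succ hB l₀
    set f : (Fin e → J) → ℝ → ℝ → ℝ≥0∞ := fun k t z =>
      fpl R v (fun l => B (Fin.snoc k l) (Fin.last e)) t z with hf
    set w : (Fin e → J) → ℝ → (Fin e → ℝ) → ℝ≥0∞ := fun k t x =>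
      (hit R v (B' k) k t).indicator (fun _ => 1) x with hw
    set D : ℝ := (e : ℝ) + 1 with hD
    have hD1 : 1 ≤ D := by
      have : (0 : ℝ) ≤ e := Nat.cast_nonneg e
      linarith
    have hD0 : 0 < D := by linarith
    have hcast : ((e + 1 : ℕ) : ℝ) = D := by rw [hD]; push_cast; rfl
    set p : ℝ := 1 + 1 / D with hp
    have hp1 : 1 ≤ p := by
      have : 0 < 1 / D := by positivity
      linarith
    have hfm : ∀ k, Measurable (fun q : ℝ × ℝ => f k q.1 q.2) := fun k => fpl_meas R v _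
    have hfm' : ∀ k t, Measurable (f k t) := fun k t => fpl_meas' R v _ t
    -- the fibre moments
    set a : (Fin e → J) → ℝ → ℝ≥0∞ := fun k t => ∫⁻ z, f k t z ^ p with ha
    have ham : ∀ k, Measurable (a k) := by
      intro k
      exact Measurable.lintegral_prod_right' (f := fun q : ℝ × ℝ => f k q.1 q.2 ^ p) ((hfm k).pow_const p)
    have hwm : ∀ k, Measurable (fun q : ℝ × (Fin e → ℝ) => w k q.1 q.2) := fun k => hit_ind_meas R v (B' k) k
    -- the estimate of one fibre
    have hfib : ∀ t x, ∫⁻ z, Gs R v B t (Fin.snoc x z) ^ p ≤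
        (∑ k, w k t x) * (∑ k, w k t x * a k t ^ D) ^ (1 / D) := by
      intro t x
      simp only [Gs_succ R v B hB l₀ t x]
      refine fiber (fun k => w k t x) (fun k => ?_) (fun k => f k t) (fun k => hfm' k t) hD1
      have : w k t x ≤ 1 := by
        show (hit R v (B' k) k t).indicator (fun _ => (1 : ℝ≥0∞)) x ≤ 1
        exact indicator_le_self' (fun _ _ => zero_le) x
      exact (this.trans_lt ENNReal.one_lt_top).ne
    -- powers of the fibre moments
    have hak : ∀ k t, a k t ^ D ≤ X ^ (e : ℝ) * ∫⁻ z, f k t z ^ (2 : ℝ) := by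
      intro k t
      have hp2 : p ≤ 2 := by
        have : 1 / D ≤ 1 := by rw [div_le_one hD0]; exact hD1
        linarith
      have h := Pool.Agent.H810R3.Tub.interp (μ := (volume : Measure ℝ)) (hfm' k t) (by norm_num : (1 : ℝ) < 2) hp1 hp2
      have e1 : (p - 1) / (2 - 1) = 1 / D := by rw [hp]; norm_num
      rw [e1] at h
      have e2 : ∫⁻ z, f k t z = X := fpl_one R v _ t
      rw [e2] at h
      have h2 := ENNReal.rpow_le_rpow h hD0.le
      refine h2.trans (le_of_eq ?_)
      rw [ENNReal.mul_rpow_of_nonneg _ _ hD0.le, ← ENNReal.rpow_mul, ← ENNReal.rpow_mul,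
        one_div_mul_cancel hD0.ne', ENNReal.rpow_one]
      congr 2
      have : (1 - 1 / D) * D = D - 1 := by field_simp
      rw [this, hD]
      ring
    -- the two factors
    set μ : Measure (ℝ × (Fin e → ℝ)) := (volume.restrict (Icc (-T) T)).prod (volume : Measure (Fin e → ℝ)) with hμ
    set U : ℝ × (Fin e → ℝ) → ℝ≥0∞ := fun q => ∑ k, w k q.1 q.2 * a k q.1 ^ D with hU
    set V : ℝ × (Fin e → ℝ) → ℝ≥0∞ := fun q => Gs R v B' q.1 q.2 ^ (1 + 1 / (e : ℝ)) with hV
    have hterm : ∀ k, Measurable (fun q : ℝ × (Fin e → ℝ) => w k q.1 q.2 * a k q.1 ^ D) :=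
      fun k => (hwm k).mul (((ham k).comp measurable_fst).pow_const D)
    have hUm : Measurable U := Finset.measurable_fun_sum _ fun k _ => hterm k
    have hVm : Measurable V := (Gs_meas R v B').pow_const _
    have hUi : ∫⁻ q, U q ∂μ ≤ X ^ (2 * e + 1) * L := by
      have hsplit : ∫⁻ q, U q ∂μ = ∑ k, ∫⁻ q, w k q.1 q.2 * a k q.1 ^ D ∂μ :=
        lintegral_finsetSum _ (fun k _ => hterm k)
      rw [hsplit]
      calc ∑ k, ∫⁻ q, w k q.1 q.2 * a k q.1 ^ D ∂μ ≤ ∑ _k : Fin e → J,
            ENNReal.ofReal (2 * R) ^ e * (X ^ (e : ℝ) * (X * L)) := by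
            refine Finset.sum_le_sum fun k _ => ?_
            rw [hμ, lintegral_prod _ (hterm k).aemeasurable]
            calc ∫⁻ t in Icc (-T) T, ∫⁻ x, w k t x * a k t ^ D
                = ∫⁻ t in Icc (-T) T, ENNReal.ofReal (2 * R) ^ e * a k t ^ D := by
                  refine lintegral_congr fun t => ?_
                  have hwt : Measurable (fun x => w k t x) :=
                    (hwm k).comp (measurable_const.prodMk measurable_id)
                  rw [lintegral_mul_const _ hwt]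
                  congr 1
                  show ∫⁻ x, (hit R v (B' k) k t).indicator (fun _ => 1) x = _
                  have hms : MeasurableSet (hit R v (B' k) k t) :=
                    ((hit_closed R v (B' k) k).preimage (Continuous.prodMk continuous_const continuous_id)
                      : IsClosed ((fun x : Fin e → ℝ => (t, x)) ⁻¹' _)).measurableSet
                  rw [lintegral_indicator_const hms, one_mul, hit_vol]
              _ = ENNReal.ofReal (2 * R) ^ e * ∫⁻ t in Icc (-T) T, a k t ^ D := by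
                  rw [lintegral_const_mul _ ((ham k).pow_const D)]
              _ ≤ ENNReal.ofReal (2 * R) ^ e * (X ^ (e : ℝ) * (X * L)) := by
                  refine mul_le_mul' le_rfl ?_
                  calc ∫⁻ t in Icc (-T) T, a k t ^ D
                      ≤ ∫⁻ t in Icc (-T) T, X ^ (e : ℝ) * ∫⁻ z, f k t z ^ (2 : ℝ) :=
                        lintegral_mono fun t => hak k t
                    _ = X ^ (e : ℝ) * ∫⁻ t in Icc (-T) T, ∫⁻ z, f k t z ^ (2 : ℝ) := by
                        rw [lintegral_const_mul]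
                        exact Measurable.lintegral_prod_right' (f := fun q : ℝ × ℝ => f k q.1 q.2 ^ (2 : ℝ))
                          ((hfm k).pow_const 2)
                    _ ≤ X ^ (e : ℝ) * (X * L) := mul_le_mul' le_rfl (fpl_two hR hT hH v _ hv hs)
        _ = X ^ (2 * e + 1) * L := by
            rw [Finset.sum_const, Finset.card_univ, nsmul_eq_mul, Fintype.card_fun, Fintype.card_fin,
              ENNReal.rpow_natCast, Nat.cast_pow]
            rw [hX]
            ring
    have hVi : ∫⁻ q, V q ∂μ ≤ X ^ e * L := by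
      rw [hμ, lintegral_prod _ hVm.aemeasurable]
      exact ih B' hTri'
    have hGV : ∀ q, (∑ k, w k q.1 q.2) = V q ^ ((e : ℝ) / D) := by
      intro q
      show Gs R v B' q.1 q.2 = (Gs R v B' q.1 q.2 ^ (1 + 1 / (e : ℝ))) ^ ((e : ℝ) / D)
      rcases Nat.eq_zero_or_pos e with he | he
      · subst he
        have h1 : Gs R v B' q.1 q.2 = 1 := by
          unfold Gs
          rw [Fintype.sum_unique, indicator_of_mem]
          intro j
          exact j.elim0
        rw [h1, ENNReal.one_rpow, ENNReal.one_rpow]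
      · have he0 : (0 : ℝ) < e := by exact_mod_cast he
        rw [← ENNReal.rpow_mul]
        have : (1 + 1 / (e : ℝ)) * ((e : ℝ) / D) = 1 := by
          rw [hD]
          field_simp
        rw [this, ENNReal.rpow_one]
    rw [hcast]
    calc ∫⁻ t in Icc (-T) T, ∫⁻ x : Fin (e + 1) → ℝ, Gs R v B t x ^ p
        = ∫⁻ t in Icc (-T) T, ∫⁻ x : Fin e → ℝ, ∫⁻ z : ℝ, Gs R v B t (Fin.snoc x z) ^ p := by
          refine lintegral_congr fun t => ?_
          exact lint_snoc _ (((Gs_meas R v B).comp (measurable_const.prodMk measurable_id)).pow_const p)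
      _ ≤ ∫⁻ t in Icc (-T) T, ∫⁻ x : Fin e → ℝ, U (t, x) ^ (1 / D) * V (t, x) ^ ((e : ℝ) / D) := by
          refine lintegral_mono fun t => lintegral_mono fun x => ?_
          refine (hfib t x).trans (le_of_eq ?_)
          rw [hGV (t, x), mul_comm]
      _ = ∫⁻ q, U q ^ (1 / D) * V q ^ ((e : ℝ) / D) ∂μ := by
          have hUV : Measurable (fun q => U q ^ (1 / D) * V q ^ ((e : ℝ) / D)) :=
            (hUm.pow_const _).mul (hVm.pow_const _)
          rw [hμ, lintegral_prod _ hUV.aemeasurable]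
      _ ≤ (∫⁻ q, U q ∂μ) ^ (1 / D) * (∫⁻ q, V q ∂μ) ^ ((e : ℝ) / D) :=
          ENNReal.lintegral_mul_norm_pow_le hUm.aemeasurable hVm.aemeasurable (by positivity) (by positivity)
            (by rw [hD]; field_simp; ring)
      _ ≤ (X ^ (2 * e + 1) * L) ^ (1 / D) * (X ^ e * L) ^ ((e : ℝ) / D) :=
          mul_le_mul' (ENNReal.rpow_le_rpow hUi (by positivity)) (ENNReal.rpow_le_rpow hVi (by positivity))
      _ = X ^ (e + 1) * L := by
          rw [ENNReal.mul_rpow_of_nonneg _ _ (by positivity), ENNReal.mul_rpow_of_nonneg _ _ (by positivity)]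
          have e1 : X ^ (2 * e + 1) = X ^ ((2 * e + 1 : ℕ) : ℝ) := (ENNReal.rpow_natCast _ _).symm
          have e2 : X ^ e = X ^ (e : ℝ) := (ENNReal.rpow_natCast _ _).symm
          have e3 : X ^ (e + 1) = X ^ ((e + 1 : ℕ) : ℝ) := (ENNReal.rpow_natCast _ _).symm
          rw [e1, e2, e3, ← ENNReal.rpow_mul, ← ENNReal.rpow_mul]
          have e4 : X ^ (((2 * e + 1 : ℕ) : ℝ) * (1 / D)) * L ^ (1 / D) *
              (X ^ ((e : ℝ) * ((e : ℝ) / D)) * L ^ ((e : ℝ) / D)) =
              (X ^ (((2 * e + 1 : ℕ) : ℝ) * (1 / D)) * X ^ ((e : ℝ) * ((e : ℝ) / D))) *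
                (L ^ (1 / D) * L ^ ((e : ℝ) / D)) := by ring
          rw [e4, ← ENNReal.rpow_add_of_nonneg _ _ (by positivity) (by positivity),
            ← ENNReal.rpow_add_of_nonneg _ _ (by positivity) (by positivity)]
          have e5 : ((2 * e + 1 : ℕ) : ℝ) * (1 / D) + (e : ℝ) * ((e : ℝ) / D) = ((e + 1 : ℕ) : ℝ) := by
            rw [hcast]
            push_cast
            rw [hD]
            field_simp
            ring
          have e6 : 1 / D + (e : ℝ) / D = 1 := by
            rw [hD]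
            field_simp
            ring
          rw [e5, e6, ENNReal.rpow_one]

end Pool.Agent.W772
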