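import Pool.Agent.W772.Tri3

set_option autoImplicit false
set_option linter.unusedSectionVars false

/-! Triangular families of boxes: the integral bound. -/

open MeasureTheory Set ENNReal

namespace Pool.Agent.W772

open Pool.Agent.H810R3.Tub

/-- The integral bound for a triangular family of boxes. -/
theorem tri_int (d : ℕ) (hd : 1 ≤ d) (σ : ℝ) (hσ : 0 < σ) (hσ1 : σ ≤ 1) :
    ∃ E : ℝ, 0 < E ∧ ∀ (U : Vec d ≃ₗᵢ[ℝ] Vec d) (K S N : ℝ), 0 ≤ K → 0 ≤ S → 1 ≤ N → ∀ (ι : Type) [Fintype ι]
      (ω β : ι → Vec d) (s : ι → ℝ) (f : ι → Fin d → Space d),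
      (∀ i, ‖ω i‖ ≤ 1) → (∀ i j, i ≠ j → σ / N ≤ ‖ω i - ω j‖) →
      (∀ i, Orthonormal ℝ (Fin.cons (nor (ω i)) (f i) : Fin (d + 1) → Space d)) →
      (∀ i, |s i| ≤ S * N ^ 2) →
      (∀ i i' j, (∀ l, l ≤ j → |U (ω i) l - U (ω i') l| ≤ σ / N) → |U (β i) j - U (β i') j| ≤ K * N) →
      ∫⁻ y, Fb N ω f (fun i => WithLp.toLp 2 (β i + s i • (-(2 : ℝ) • ω i), s i)) y ^ (1 + 1 / (d : ℝ)) ≤
        ENNReal.ofReal (E * ((1 + K + S) ^ (d + 1) * (1 + Real.log N)) * N ^ (2 * (d + 1))) := by
  classical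
  have hd0 : (0 : ℝ) < d := by exact_mod_cast hd
  have hd1 : (1 : ℝ) ≤ d := by exact_mod_cast hd
  set Λ : ℝ := 1 + Real.log (10 * d / σ) with hΛ
  have h10 : 1 ≤ 10 * d / σ := by
    rw [le_div_iff₀ hσ]
    linarith
  have hlog0 : 0 ≤ Real.log (10 * d / σ) := Real.log_nonneg h10
  have hΛ1 : 1 ≤ Λ := by rw [hΛ]; linarith
  set c₁ : ℝ := 20 * d * (2 * d + 2) / σ with hc₁
  set c₂ : ℝ := 2 * (1 + d) + 16 * d * (2 * d + 2) * Λ / σ with hc₂
  have hc₁0 : 0 < c₁ := by positivity
  have hc₂0 : 0 < c₂ := by positivity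
  refine ⟨c₁ ^ d * c₂, by positivity, ?_⟩
  intro U K S N hK hS hN ι _ ω β s f hω hsep hf hs htri
  have hN0 : 0 < N := by linarith
  have hlogN : 0 ≤ Real.log N := Real.log_nonneg hN
  obtain ⟨M, κ, B, hMM, hκi, hBtri, hmem⟩ := tri_red d hd U σ hσ hσ1 K S N hK hS hN ι ω β s f hω hsep hf hs htri
  set ρ : ℝ := σ / (2 * d * N) with hρ
  have hρ0 : 0 < ρ := by positivity
  set W : ℝ := 1 + K + S with hW
  have hW1 : 1 ≤ W := by rw [hW]; linarith
  set T : ℝ := (1 + d) * W * N ^ 2 with hT
  set R : ℝ := (2 * d + 2) * W * N with hR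
  have hT0 : 0 < T := by positivity
  have hR0 : 0 < R := by positivity
  set v : Fin (2 * M + 1) → ℝ := fun k => 2 * ρ * ((k : ℝ) - M) with hv
  set a : ι → Space d := fun i => WithLp.toLp 2 (β i + s i • (-(2 : ℝ) • ω i), s i) with ha
  set H : ℝ := 2 / ρ * (1 + Real.log (2 * M + 1)) with hH
  have hM0 : (0 : ℝ) ≤ M := Nat.cast_nonneg M
  have hlogM : 0 ≤ Real.log (2 * M + 1) := Real.log_nonneg (by linarith)
  have hH0 : 0 ≤ H := by positivity
  set q : ℝ := 1 + 1 / (d : ℝ) with hq
  have hq0 : 0 < q := by positivity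
  -- the pointwise bound
  have hpt : ∀ (x : Fin d → ℝ) (t : ℝ), Fb N ω f a (WithLp.toLp 2 (U.symm (WithLp.toLp 2 x), t)) ^ q ≤
      (Icc (-T) T).indicator (fun t => Gs R v B t x ^ q) t := by
    intro x t
    by_cases ht : t ∈ Icc (-T) T
    · rw [indicator_of_mem ht]
      refine ENNReal.rpow_le_rpow ?_ hq0.le
      unfold Fb Gs
      calc ∑ i, (box N (nor (ω i)) (f i) (a i)).indicator (fun _ => (1 : ℝ≥0∞))
              (WithLp.toLp 2 (U.symm (WithLp.toLp 2 x), t))
          ≤ ∑ i, (hit R v (B (κ i)) (κ i) t).indicator (fun _ => (1 : ℝ≥0∞)) x := by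
            refine Finset.sum_le_sum fun i _ => ?_
            by_cases hm : (WithLp.toLp 2 (U.symm (WithLp.toLp 2 x), t) : Space d) ∈ box N (nor (ω i)) (f i) (a i)
            · rw [indicator_of_mem hm, indicator_of_mem (hmem i x t hm).2]
            · rw [indicator_of_notMem hm]
              exact zero_le
        _ = ∑ k ∈ Finset.univ.image κ, (hit R v (B k) k t).indicator (fun _ => (1 : ℝ≥0∞)) x := by
            rw [Finset.sum_image (fun i _ j _ h => hκi h)]
        _ ≤ ∑ k, (hit R v (B k) k t).indicator (fun _ => (1 : ℝ≥0∞)) x :=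
            Finset.sum_le_sum_of_subset (Finset.subset_univ _)
    · rw [indicator_of_notMem ht]
      have : Fb N ω f a (WithLp.toLp 2 (U.symm (WithLp.toLp 2 x), t)) = 0 := by
        unfold Fb
        apply Finset.sum_eq_zero
        intro i _
        exact indicator_of_notMem (fun h => ht (hmem i x t h).1) _
      rw [this, ENNReal.zero_rpow_of_pos hq0]
  -- slicing
  have hmp := WithLp.volume_preserving_toLp (Vec d) ℝ
  have hmp2 := PiLp.volume_preserving_toLp (Fin d)
  have hg : Measurable (fun y : Space d => Fb N ω f a y ^ q) := (Fb_measurable N ω f a).pow_const _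
  have hS1 : ∫⁻ y : Space d, Fb N ω f a y ^ q =
      ∫⁻ t : ℝ, ∫⁻ x : Fin d → ℝ, Fb N ω f a (WithLp.toLp 2 (U.symm (WithLp.toLp 2 x), t)) ^ q := by
    rw [← hmp.lintegral_comp hg]
    have hg2 : Measurable (fun p : Vec d × ℝ => Fb N ω f a (WithLp.toLp 2 p) ^ q) := hg.comp hmp.measurable
    rw [Measure.volume_eq_prod, lintegral_prod_symm _ hg2.aemeasurable]
    refine lintegral_congr fun t => ?_
    have hg3 : Measurable (fun x : Vec d => Fb N ω f a (WithLp.toLp 2 (x, t)) ^ q) :=
      hg2.comp (measurable_id.prodMk measurable_const)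
    have hg4 : Measurable (fun x : Vec d => Fb N ω f a (WithLp.toLp 2 (U.symm x, t)) ^ q) :=
      hg3.comp U.symm.continuous.measurable
    rw [← U.symm.measurePreserving.lintegral_comp hg3, ← hmp2.lintegral_comp hg4]
  rw [hS1]
  have hvne : ∀ k l, k ≠ l → v k ≠ v l := by
    intro k l hkl h
    apply hkl
    have h2 : 2 * ρ * ((k : ℝ) - M) = 2 * ρ * ((l : ℝ) - M) := h
    have h3 : (k : ℝ) - M = (l : ℝ) - M := mul_left_cancel₀ (by positivity) h2
    apply Fin.ext
    have h4 : ((k : ℕ) : ℝ) = ((l : ℕ) : ℝ) := by linarith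
    exact_mod_cast h4
  have hmain := main_tri hR0.le hT0.le hH0 v hvne (fun k => vel_sum hρ0 M k) d B hBtri
  calc ∫⁻ t : ℝ, ∫⁻ x : Fin d → ℝ, Fb N ω f a (WithLp.toLp 2 (U.symm (WithLp.toLp 2 x), t)) ^ q
      ≤ ∫⁻ t : ℝ, ∫⁻ x : Fin d → ℝ, (Icc (-T) T).indicator (fun t => Gs R v B t x ^ q) t :=
        lintegral_mono fun t => lintegral_mono fun x => hpt x t
    _ = ∫⁻ t in Icc (-T) T, ∫⁻ x : Fin d → ℝ, Gs R v B t x ^ q := by
        rw [← lintegral_indicator measurableSet_Icc]
        refine lintegral_congr fun t => ?_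
        by_cases ht : t ∈ Icc (-T) T
        · simp only [indicator_of_mem ht]
        · simp only [indicator_of_notMem ht, lintegral_zero]
    _ ≤ _ := hmain
    _ ≤ _ := by
        rw [Fintype.card_fin]
        have e1 : ((2 * M + 1 : ℕ) : ℝ≥0∞) * ENNReal.ofReal (2 * R) = ENNReal.ofReal ((2 * M + 1) * (2 * R)) := by
          rw [← ENNReal.ofReal_natCast, ← ENNReal.ofReal_mul (by positivity)]
          congr 1
          push_cast
          ring
        rw [e1, ← ENNReal.ofReal_pow (by positivity), ← ENNReal.ofReal_mul (by positivity)]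
        apply ENNReal.ofReal_le_ofReal
        have hX : (2 * (M : ℝ) + 1) * (2 * R) ≤ c₁ * (W * N ^ 2) := by
          calc (2 * (M : ℝ) + 1) * (2 * R) ≤ (10 * d * N / σ) * (2 * R) :=
                mul_le_mul_of_nonneg_right hMM (by positivity)
            _ = c₁ * (W * N ^ 2) := by
                rw [hR, hc₁]
                field_simp
                ring
        have hlog : 1 + Real.log (2 * M + 1) ≤ Λ * (1 + Real.log N) := by
          have h1 : Real.log (2 * M + 1) ≤ Real.log (10 * d / σ) + Real.log N := by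
            rw [← Real.log_mul (by positivity) (by positivity)]
            apply Real.log_le_log (by positivity)
            refine hMM.trans (le_of_eq ?_)
            ring
          rw [hΛ]
          nlinarith [mul_nonneg hlog0 hlogN]
        have hL : 2 * T + 4 * R * H ≤ c₂ * (W * N ^ 2 * (1 + Real.log N)) := by
          have h1 : 2 * T ≤ 2 * (1 + d) * (W * N ^ 2 * (1 + Real.log N)) := by
            rw [hT]
            have : 0 ≤ 2 * (1 + (d : ℝ)) * (W * N ^ 2) := by positivity
            nlinarith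
          have h2 : 4 * R * H ≤ (16 * d * (2 * d + 2) * Λ / σ) * (W * N ^ 2 * (1 + Real.log N)) := by
            calc 4 * R * H = (4 * R * (2 / ρ)) * (1 + Real.log (2 * M + 1)) := by rw [hH]; ring
              _ ≤ (4 * R * (2 / ρ)) * (Λ * (1 + Real.log N)) :=
                  mul_le_mul_of_nonneg_left hlog (by positivity)
              _ = _ := by
                  rw [hR, hρ]
                  field_simp
                  ring
          rw [hc₂]
          linarith
        calc ((2 * (M : ℝ) + 1) * (2 * R)) ^ d * (2 * T + 4 * R * H)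
            ≤ (c₁ * (W * N ^ 2)) ^ d * (c₂ * (W * N ^ 2 * (1 + Real.log N))) :=
              mul_le_mul (pow_le_pow_left₀ (by positivity) hX d) hL (by positivity) (by positivity)
          _ = _ := by
              rw [mul_pow, mul_pow, ← pow_mul]
              ring

end Pool.Agent.W772
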