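import Pool.Agent.W772.Tri4

set_option autoImplicit false
set_option linter.unusedSectionVars false

/-! Comparison with the centred family, with the exponent of the loss depending on `p`. -/

open MeasureTheory Set Filter Topology ENNReal NNReal Metric

namespace Pool.Agent.W772

open Pool.Agent.H810R3.Tub

theorem small_r {V Q B e κ b Y w r : ℝ} (hV : 0 < V) (hQ : 0 < Q) (hB : 0 < B) (he : 0 < e) (hκ : 0 < κ)
    (hb : 0 < b) (hY : 1 ≤ Y) (hw0 : 0 ≤ w) (hw1 : w ≤ 1) (hr : 1 ≤ r)
    (h1 : Q ≤ e * Y / κ * V) (h2 : B ≤ b / κ * V) :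
    V ^ (1 - w) * Q ^ w ≤ (max 1 (e / κ) * max 1 (b / κ)) ^ r * Y ^ w * (V ^ r * (B ^ (r - 1))⁻¹) := by
  set m₁ : ℝ := max 1 (e / κ) with hm₁
  set m₂ : ℝ := max 1 (b / κ) with hm₂
  have hm₁1 : 1 ≤ m₁ := le_max_left _ _
  have hm₂1 : 1 ≤ m₂ := le_max_left _ _
  have hm₁0 : 0 < m₁ := by linarith
  have hm₂0 : 0 < m₂ := by linarith
  have hY0 : 0 < Y := by linarith
  have hBr : 0 < B ^ (r - 1) := Real.rpow_pos_of_pos hB _
  have h3 : Q ≤ m₁ * Y * V := by
    refine h1.trans ?_
    have : e * Y / κ ≤ m₁ * Y := by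
      rw [mul_div_right_comm]
      exact mul_le_mul_of_nonneg_right (le_max_right _ _) hY0.le
    exact mul_le_mul_of_nonneg_right this hV.le
  have h4 : B ≤ m₂ * V := h2.trans (mul_le_mul_of_nonneg_right (le_max_right _ _) hV.le)
  have h5 : V ^ (1 - w) * Q ^ w ≤ m₁ * Y ^ w * V := by
    calc V ^ (1 - w) * Q ^ w ≤ V ^ (1 - w) * (m₁ * Y * V) ^ w :=
          mul_le_mul_of_nonneg_left (Real.rpow_le_rpow hQ.le h3 hw0) (by positivity)
      _ = (m₁ ^ w * Y ^ w) * (V ^ (1 - w) * V ^ w) := by
          rw [Real.mul_rpow (by positivity) hV.le, Real.mul_rpow hm₁0.le hY0.le]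
          ring
      _ = (m₁ ^ w * Y ^ w) * V := by
          rw [← Real.rpow_add hV, sub_add_cancel, Real.rpow_one]
      _ ≤ m₁ * Y ^ w * V := by
          have : m₁ ^ w ≤ m₁ := by
            calc m₁ ^ w ≤ m₁ ^ (1 : ℝ) := Real.rpow_le_rpow_of_exponent_le hm₁1 hw1
              _ = m₁ := Real.rpow_one _
          gcongr
  have h6 : V * B ^ (r - 1) ≤ m₂ ^ r * V ^ r := by
    calc V * B ^ (r - 1) ≤ V * (m₂ * V) ^ (r - 1) :=
          mul_le_mul_of_nonneg_left (Real.rpow_le_rpow hB.le h4 (by linarith)) hV.le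
      _ = m₂ ^ (r - 1) * (V ^ (1 : ℝ) * V ^ (r - 1)) := by
          rw [Real.mul_rpow hm₂0.le hV.le, Real.rpow_one]
          ring
      _ = m₂ ^ (r - 1) * V ^ r := by
          rw [← Real.rpow_add hV]
          congr 2
          ring
      _ ≤ m₂ ^ r * V ^ r := by
          have : m₂ ^ (r - 1) ≤ m₂ ^ r := Real.rpow_le_rpow_of_exponent_le hm₂1 (by linarith)
          gcongr
  have h7 : V ≤ m₂ ^ r * (V ^ r * (B ^ (r - 1))⁻¹) := by
    rw [← mul_assoc, ← div_eq_mul_inv, le_div_iff₀ hBr]
    exact h6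
  have h8 : m₁ ≤ m₁ ^ r := by
    calc m₁ = m₁ ^ (1 : ℝ) := (Real.rpow_one _).symm
      _ ≤ m₁ ^ r := Real.rpow_le_rpow_of_exponent_le hm₁1 hr
  calc V ^ (1 - w) * Q ^ w ≤ m₁ * Y ^ w * V := h5
    _ ≤ m₁ ^ r * Y ^ w * (m₂ ^ r * (V ^ r * (B ^ (r - 1))⁻¹)) :=
        mul_le_mul (mul_le_mul_of_nonneg_right h8 (by positivity)) h7 hV.le (by positivity)
    _ = _ := by
        rw [Real.mul_rpow hm₁0.le hm₂0.le]
        ring

/-- The exponent of the logarithmic loss. -/
noncomputable def th (d : ℕ) (p : ℝ≥0∞) : ℝ := min (d * (1 - 1 / p.toReal)) (1 / p.toReal)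

/-- Comparison of the norms, for all exponents. -/
theorem compare_tri (d : ℕ) (hd : 1 ≤ d) (κ e : ℝ) (hκ : 0 < κ) (he : 0 < e) :
    ∃ D : ℝ, 1 ≤ D ∧ ∀ {ι : Type} [Fintype ι] [Nonempty ι] {N Y : ℝ} (_ : 1 ≤ N) (_ : 1 ≤ Y)
      (ω : ι → Vec d) (f : ι → Fin d → Space d)
      (_ : ∀ i, Orthonormal ℝ (Fin.cons (nor (ω i)) (f i) : Fin (d + 1) → Space d)) (a : ι → Space d)
      (_ : κ * N ^ d ≤ (Fintype.card ι : ℝ))
      (_ : ∫⁻ y, Fb N ω f a y ^ (1 + 1 / (d : ℝ)) ≤ ENNReal.ofReal (e * Y * N ^ (2 * (d + 1))))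
      (p : ℝ≥0∞) (_ : 1 ≤ p),
      eLpNorm (fun y : Space d => ∑ i, (box N (nor (ω i)) (f i) (a i)).indicator (fun _ => (1 : ℝ)) y) p volume
        ≤ ENNReal.ofReal (D * Y ^ th d p) *
          eLpNorm (fun y : Space d => ∑ i,
            (box N (nor (ω i)) (f i) 0).indicator (fun _ => (1 : ℝ)) y) p volume := by
  have hd0 : (0 : ℝ) < d := by exact_mod_cast hd
  set q : ℝ := 1 + 1 / (d : ℝ) with hq
  have hq1 : 1 < q := by
    have : 0 < 1 / (d : ℝ) := by positivity
    rw [hq]; linarith
  have hq0 : 0 < q := by linarith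
  set w₀ : ℝ := wv d with hw
  have hw0 : 0 < w₀ := wv_pos d
  set b : ℝ := (1 + (d : ℝ)) ^ (d + 1) * w₀ with hb
  have hb0 : 0 < b := by positivity
  set D₁ : ℝ := max 1 (e / κ) * max 1 (b / κ) with hD₁
  set D₂ : ℝ := max 1 (e * 2 ^ (d + 1) / (κ ^ q * w₀)) with hD₂
  have hD₁1 : 1 ≤ D₁ := by
    have h1 : 1 ≤ max 1 (e / κ) := le_max_left _ _
    have h2 : 1 ≤ max 1 (b / κ) := le_max_left _ _
    nlinarith
  have hD₂1 : 1 ≤ D₂ := le_max_left _ _
  set D : ℝ := max D₁ D₂ with hD
  have hD1 : 1 ≤ D := hD₁1.trans (le_max_left _ _)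
  refine ⟨D, hD1, ?_⟩
  intro ι _ _ N Y hN hY ω f hf a hcard hQi p hp
  have hN0 : 0 < N := by linarith
  have hY0 : 0 < Y := by linarith
  have hD0 : 0 < D := by linarith
  set Q : ℝ := e * Y * N ^ (2 * (d + 1)) with hQ
  have hQ0 : 0 < Q := by positivity
  have hwe : volume (ball (0 : Space d) 1) = ENNReal.ofReal w₀ := by
    rw [hw, wv, ENNReal.ofReal_toReal measure_ball_lt_top.ne]
  set c : ℝ := (Fintype.card ι : ℝ) with hc
  have hc0 : 0 < c := by
    have h1 : (0 : ℝ) < (Fintype.card ι : ℝ) := by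
      have := Fintype.card_pos (α := ι)
      exact_mod_cast this
    exact h1
  set V : ℝ := c * N ^ (d + 2) with hV
  have hV0 : 0 < V := by positivity
  have hVa : ∫⁻ y, Fb N ω f a y = ENNReal.ofReal V := Fb_int hN hf a
  have hV0' : ∫⁻ y, Fb N ω f (fun _ => 0) y = ENNReal.ofReal V := Fb_int hN hf _
  have hVκ : κ * N ^ (2 * (d + 1)) ≤ V := by
    rw [hV]
    calc κ * N ^ (2 * (d + 1)) = (κ * N ^ d) * N ^ (d + 2) := by ring
      _ ≤ c * N ^ (d + 2) := mul_le_mul_of_nonneg_right hcard (by positivity)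
  set B : ℝ := b * N ^ (2 * (d + 1)) with hB
  have hB0 : 0 < B := by positivity
  have hBv : volume (closedBall (0 : Space d) ((1 + d) * N ^ 2)) = ENNReal.ofReal B := by
    have : Nontrivial (Space d) := by
      apply Module.nontrivial_of_finrank_pos (R := ℝ)
      rw [finrank_space]
      omega
    rw [Measure.addHaar_closedBall _ _ (by positivity), finrank_space, hwe,
      ← ENNReal.ofReal_mul (by positivity)]
    congr 1
    rw [hB, hb, mul_pow, ← pow_mul]
    ring
  have hbv : volume (ball (0 : Space d) (N / 2)) = ENNReal.ofReal ((N / 2) ^ (d + 1) * w₀) := by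
    rw [Measure.addHaar_ball_of_pos _ _ (by positivity), finrank_space, hwe,
      ← ENNReal.ofReal_mul (by positivity)]
  have hFm := Fb_measurable N ω f a
  have hFm0 := Fb_measurable N ω f (fun _ => (0 : Space d))
  have hball : ∀ y ∈ ball (0 : Space d) (N / 2), Fb N ω f (fun _ => (0 : Space d)) y = ENNReal.ofReal c := by
    intro y hy
    unfold Fb
    rw [Finset.sum_congr rfl (fun i _ => indicator_of_mem (ball_sub_box hN (hf i) hy) _)]
    simp [hc]
  have hFc : ∀ y, Fb N ω f a y ≤ ENNReal.ofReal c := by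
    intro y
    refine (Fb_le N ω f a y).trans (le_of_eq ?_)
    rw [hc, ENNReal.ofReal_natCast]
  rcases eq_or_ne p ∞ with hpt | hpt
  · -- the case of the supremum norm
    have hth : th d p = 0 := by
      rw [hpt, th]
      simp
    have hD1e : (1 : ℝ≥0∞) ≤ ENNReal.ofReal (D * Y ^ th d p) := by
      rw [hth, Real.rpow_zero, mul_one, ← ENNReal.ofReal_one]
      exact ENNReal.ofReal_le_ofReal hD1
    rw [hpt] at hD1e ⊢
    rw [eLpNorm_exponent_top, eLpNorm_exponent_top]
    have h1 : eLpNormEssSup (fun y : Space d => ∑ i, (box N (nor (ω i)) (f i)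
        (a i)).indicator (fun _ => (1 : ℝ)) y) volume ≤ ENNReal.ofReal c := by
      unfold eLpNormEssSup
      refine essSup_le_of_ae_le _ (Filter.Eventually.of_forall fun y => ?_)
      show ‖∑ i, (box N (nor (ω i)) (f i) (a i)).indicator (fun _ => (1 : ℝ)) y‖ₑ ≤ ENNReal.ofReal c
      rw [enorm_sum_box]
      exact hFc y
    have h2 : ENNReal.ofReal c ≤ eLpNormEssSup (fun y : Space d => ∑ i,
        (box N (nor (ω i)) (f i) 0).indicator (fun _ => (1 : ℝ)) y) volume := by
      have h3 := ae_le_eLpNormEssSup (f := fun y : Space d => ∑ i,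
        (box N (nor (ω i)) (f i) 0).indicator (fun _ => (1 : ℝ)) y) (μ := volume)
      have h4 : volume (ball (0 : Space d) (N / 2)) ≠ 0 := (measure_ball_pos _ _ (by positivity)).ne'
      obtain ⟨y, hy1, hy2⟩ : ∃ y ∈ ball (0 : Space d) (N / 2), ‖∑ i,
          (box N (nor (ω i)) (f i) 0).indicator (fun _ => (1 : ℝ)) y‖ₑ ≤ eLpNormEssSup (fun y : Space d => ∑ i,
          (box N (nor (ω i)) (f i) 0).indicator (fun _ => (1 : ℝ)) y) volume := by
        by_contra hcon
        push Not at hcon
        apply h4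
        refine measure_mono_null ?_ (ae_iff.1 h3)
        intro y hy
        exact not_le.2 (hcon y hy)
      have h5 := enorm_sum_box N ω f (fun _ => (0 : Space d)) y
      rw [h5, hball y hy1] at hy2
      exact hy2
    calc _ ≤ 1 * ENNReal.ofReal c := by rw [one_mul]; exact h1
      _ ≤ _ := mul_le_mul' hD1e h2
  · -- finite exponents
    have hp0 : p ≠ 0 := by
      intro h
      rw [h] at hp
      exact absurd hp (by simp)
    set r : ℝ := p.toReal with hr
    have hr1 : 1 ≤ r := by
      rw [hr, ← ENNReal.toReal_one]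
      exact ENNReal.toReal_mono hpt hp
    have hr0 : 0 < r := by linarith
    rw [eLpNorm_eq_lintegral_rpow_enorm_toReal hp0 hpt, eLpNorm_eq_lintegral_rpow_enorm_toReal hp0 hpt, ← hr]
    have e1 : ∫⁻ y : Space d, ‖∑ i, (box N (nor (ω i)) (f i) (a i)).indicator (fun _ => (1 : ℝ)) y‖ₑ ^ r =
        ∫⁻ y, Fb N ω f a y ^ r := by
      refine lintegral_congr fun y => ?_
      rw [enorm_sum_box]
    have e2 : ∫⁻ y : Space d, ‖∑ i, (box N (nor (ω i)) (f i) 0).indicator (fun _ => (1 : ℝ)) y‖ₑ ^ r =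
        ∫⁻ y, Fb N ω f (fun _ => 0) y ^ r := by
      refine lintegral_congr fun y => ?_
      rw [← enorm_sum_box]
    rw [e1, e2]
    have key : ∫⁻ y, Fb N ω f a y ^ r ≤ ENNReal.ofReal ((D * Y ^ th d p) ^ r) *
        ∫⁻ y, Fb N ω f (fun _ => 0) y ^ r := by
      rcases le_total r q with hrq | hrq
      · -- small exponents
        have hth : th d p = d * (1 - 1 / r) := by
          rw [th, ← hr]
          apply min_eq_left
          have h1 : d * (r - 1) ≤ 1 := by
            have h2 : r - 1 ≤ 1 / (d : ℝ) := by rw [hq] at hrq; linarith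
            calc d * (r - 1) ≤ d * (1 / (d : ℝ)) := mul_le_mul_of_nonneg_left h2 hd0.le
              _ = 1 := by field_simp
          have h2 : d * (1 - 1 / r) = (d * (r - 1)) * (1 / r) := by field_simp
          rw [h2]
          calc (d * (r - 1)) * (1 / r) ≤ 1 * (1 / r) := mul_le_mul_of_nonneg_right h1 (by positivity)
            _ = 1 / r := one_mul _
        have h1 := interp (μ := (volume : Measure (Space d))) hFm hq1 hr1 hrq
        have h2 := lower (μ := (volume : Measure (Space d))) hFm0 (B := closedBall (0 : Space d) ((1 + d) * N ^ 2))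
          measurableSet_closedBall (by
            intro y hy
            unfold Fb
            apply Finset.sum_eq_zero
            intro i _
            exact indicator_of_notMem (fun h => hy (box_sub_ball hN (hf i) h)) _) hr1
        rw [hV0', hBv, ENNReal.ofReal_rpow_of_pos hV0, ENNReal.ofReal_rpow_of_pos hB0] at h2
        have h3 : ENNReal.ofReal (V ^ r * (B ^ (r - 1))⁻¹) ≤ ∫⁻ y, Fb N ω f (fun _ => 0) y ^ r := by
          have hBr : 0 < B ^ (r - 1) := Real.rpow_pos_of_pos hB0 _
          rw [← div_eq_mul_inv, ENNReal.ofReal_div_of_pos hBr]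
          exact ENNReal.div_le_of_le_mul h2
        have ew : (r - 1) / (q - 1) = d * (r - 1) := by
          rw [hq]
          field_simp
          ring
        rw [ew] at h1
        have hw0' : 0 ≤ d * (r - 1) := mul_nonneg hd0.le (by linarith)
        have hw1' : d * (r - 1) ≤ 1 := by
          have h2 : r - 1 ≤ 1 / (d : ℝ) := by rw [hq] at hrq; linarith
          calc d * (r - 1) ≤ d * (1 / (d : ℝ)) := mul_le_mul_of_nonneg_left h2 hd0.le
            _ = 1 := by field_simp
        calc ∫⁻ y, Fb N ω f a y ^ r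
            ≤ (∫⁻ y, Fb N ω f a y) ^ (1 - d * (r - 1)) *
              (∫⁻ y, Fb N ω f a y ^ q) ^ (d * (r - 1)) := h1
          _ ≤ (ENNReal.ofReal V) ^ (1 - d * (r - 1)) * (ENNReal.ofReal Q) ^ (d * (r - 1)) := by
              rw [hVa]
              exact mul_le_mul' le_rfl (ENNReal.rpow_le_rpow hQi hw0')
          _ = ENNReal.ofReal (V ^ (1 - d * (r - 1)) * Q ^ (d * (r - 1))) := by
              rw [ENNReal.ofReal_rpow_of_pos hV0, ENNReal.ofReal_rpow_of_pos hQ0,
                ← ENNReal.ofReal_mul (by positivity)]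
          _ ≤ ENNReal.ofReal (D₁ ^ r * Y ^ (d * (r - 1)) * (V ^ r * (B ^ (r - 1))⁻¹)) := by
              apply ENNReal.ofReal_le_ofReal
              refine small_r hV0 hQ0 hB0 he hκ hb0 hY hw0' hw1' hr1 ?_ ?_
              · rw [hQ, div_mul_eq_mul_div, le_div_iff₀ hκ]
                calc e * Y * N ^ (2 * (d + 1)) * κ = e * Y * (κ * N ^ (2 * (d + 1))) := by ring
                  _ ≤ e * Y * V := mul_le_mul_of_nonneg_left hVκ (by positivity)
              · rw [hB, div_mul_eq_mul_div, le_div_iff₀ hκ]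
                calc b * N ^ (2 * (d + 1)) * κ = b * (κ * N ^ (2 * (d + 1))) := by ring
                  _ ≤ b * V := mul_le_mul_of_nonneg_left hVκ (by positivity)
          _ ≤ ENNReal.ofReal ((D * Y ^ th d p) ^ r * (V ^ r * (B ^ (r - 1))⁻¹)) := by
              apply ENNReal.ofReal_le_ofReal
              refine mul_le_mul_of_nonneg_right ?_ (by positivity)
              rw [Real.mul_rpow hD0.le (by positivity), ← Real.rpow_mul hY0.le, hth]
              have e3 : d * (1 - 1 / r) * r = d * (r - 1) := by field_simp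
              rw [e3]
              refine mul_le_mul_of_nonneg_right ?_ (by positivity)
              exact Real.rpow_le_rpow (by linarith) (le_max_left _ _) hr0.le
          _ = ENNReal.ofReal ((D * Y ^ th d p) ^ r) * ENNReal.ofReal (V ^ r * (B ^ (r - 1))⁻¹) :=
              ENNReal.ofReal_mul (by positivity)
          _ ≤ _ := mul_le_mul' le_rfl h3
      · -- large exponents
        have hth : th d p = 1 / r := by
          rw [th, ← hr]
          apply min_eq_right
          have h1 : 1 ≤ d * (r - 1) := by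
            have h2 : 1 / (d : ℝ) ≤ r - 1 := by rw [hq] at hrq; linarith
            calc (1 : ℝ) = d * (1 / (d : ℝ)) := by field_simp
              _ ≤ d * (r - 1) := mul_le_mul_of_nonneg_left h2 hd0.le
          have h2 : d * (1 - 1 / r) = (d * (r - 1)) * (1 / r) := by field_simp
          rw [h2]
          calc 1 / r = 1 * (1 / r) := (one_mul _).symm
            _ ≤ (d * (r - 1)) * (1 / r) := mul_le_mul_of_nonneg_right h1 (by positivity)
        have h1 : ∫⁻ y, Fb N ω f a y ^ r ≤ ENNReal.ofReal (c ^ (r - q) * Q) := by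
          calc ∫⁻ y, Fb N ω f a y ^ r ≤ ∫⁻ y, ENNReal.ofReal (c ^ (r - q)) * Fb N ω f a y ^ q := by
                refine lintegral_mono fun y => ?_
                simp only
                have e3 : Fb N ω f a y ^ r = Fb N ω f a y ^ (r - q) * Fb N ω f a y ^ q := by
                  rw [← ENNReal.rpow_add_of_nonneg _ _ (by linarith) hq0.le, sub_add_cancel]
                rw [e3, ← ENNReal.ofReal_rpow_of_pos hc0]
                exact mul_le_mul' (ENNReal.rpow_le_rpow (hFc y) (by linarith)) le_rfl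
            _ = ENNReal.ofReal (c ^ (r - q)) * ∫⁻ y, Fb N ω f a y ^ q :=
                lintegral_const_mul' _ _ ENNReal.ofReal_ne_top
            _ ≤ ENNReal.ofReal (c ^ (r - q)) * ENNReal.ofReal Q := mul_le_mul' le_rfl hQi
            _ = _ := (ENNReal.ofReal_mul (by positivity)).symm
        have h2 : ENNReal.ofReal (c ^ r * ((N / 2) ^ (d + 1) * w₀)) ≤ ∫⁻ y, Fb N ω f (fun _ => 0) y ^ r := by
          calc ENNReal.ofReal (c ^ r * ((N / 2) ^ (d + 1) * w₀))
              = ENNReal.ofReal (c ^ r) * volume (ball (0 : Space d) (N / 2)) := by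
                rw [hbv, ENNReal.ofReal_mul (by positivity)]
            _ = ∫⁻ _ in ball (0 : Space d) (N / 2), ENNReal.ofReal (c ^ r) := by
                rw [setLIntegral_const]
            _ = ∫⁻ y in ball (0 : Space d) (N / 2), Fb N ω f (fun _ => 0) y ^ r := by
                refine setLIntegral_congr_fun measurableSet_ball fun y hy => ?_
                rw [hball y hy, ENNReal.ofReal_rpow_of_pos hc0]
            _ ≤ _ := setLIntegral_le_lintegral _ _
        have h3 : c ^ (r - q) * Q ≤ (D * Y ^ th d p) ^ r * (c ^ r * ((N / 2) ^ (d + 1) * w₀)) := by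
          have e4 : (D * Y ^ th d p) ^ r = D ^ r * Y := by
            rw [Real.mul_rpow hD0.le (by positivity), ← Real.rpow_mul hY0.le, hth,
              one_div_mul_cancel hr0.ne', Real.rpow_one]
          have h4 : D₂ ≤ D ^ r := by
            calc D₂ ≤ D := le_max_right _ _
              _ = D ^ (1 : ℝ) := (Real.rpow_one _).symm
              _ ≤ D ^ r := Real.rpow_le_rpow_of_exponent_le hD1 hr1
          have h5 : c ^ (r - q) * c ^ q = c ^ r := by
            rw [← Real.rpow_add hc0, sub_add_cancel]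
          have h6 : κ ^ q * N ^ (d + 1) ≤ c ^ q := by
            have e5 : κ ^ q * N ^ (d + 1) = (κ * N ^ d) ^ q := by
              rw [Real.mul_rpow hκ.le (by positivity), ← Real.rpow_natCast N d, ← Real.rpow_mul hN0.le]
              congr 1
              rw [← Real.rpow_natCast]
              congr 1
              rw [hq]
              push_cast
              field_simp
            rw [e5]
            exact Real.rpow_le_rpow (by positivity) hcard hq0.le
          have h7 : Q ≤ D₂ * Y * (c ^ q * ((N / 2) ^ (d + 1) * w₀)) := by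
            have h8 : e * 2 ^ (d + 1) / (κ ^ q * w₀) ≤ D₂ := le_max_right _ _
            have hκq : 0 < κ ^ q := Real.rpow_pos_of_pos hκ _
            calc Q = (e * 2 ^ (d + 1) / (κ ^ q * w₀)) * Y * ((κ ^ q * N ^ (d + 1)) * ((N / 2) ^ (d + 1) * w₀)) := by
                  rw [hQ, div_pow]
                  field_simp
                  ring
              _ ≤ D₂ * Y * (c ^ q * ((N / 2) ^ (d + 1) * w₀)) := by
                  gcongr
          rw [e4]
          calc c ^ (r - q) * Q ≤ c ^ (r - q) * (D₂ * Y * (c ^ q * ((N / 2) ^ (d + 1) * w₀))) :=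
                mul_le_mul_of_nonneg_left h7 (by positivity)
            _ = D₂ * Y * ((c ^ (r - q) * c ^ q) * ((N / 2) ^ (d + 1) * w₀)) := by ring
            _ = D₂ * Y * (c ^ r * ((N / 2) ^ (d + 1) * w₀)) := by rw [h5]
            _ ≤ _ := by gcongr
        calc ∫⁻ y, Fb N ω f a y ^ r ≤ ENNReal.ofReal (c ^ (r - q) * Q) := h1
          _ ≤ ENNReal.ofReal ((D * Y ^ th d p) ^ r * (c ^ r * ((N / 2) ^ (d + 1) * w₀))) :=
              ENNReal.ofReal_le_ofReal h3
          _ = ENNReal.ofReal ((D * Y ^ th d p) ^ r) * ENNReal.ofReal (c ^ r * ((N / 2) ^ (d + 1) * w₀)) :=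
              ENNReal.ofReal_mul (by positivity)
          _ ≤ _ := mul_le_mul' le_rfl h2
    have hpos : 0 < D * Y ^ th d p := by positivity
    calc (∫⁻ y, Fb N ω f a y ^ r) ^ (1 / r)
        ≤ (ENNReal.ofReal ((D * Y ^ th d p) ^ r) * ∫⁻ y, Fb N ω f (fun _ => 0) y ^ r) ^ (1 / r) :=
          ENNReal.rpow_le_rpow key (by positivity)
      _ = ENNReal.ofReal (D * Y ^ th d p) * (∫⁻ y, Fb N ω f (fun _ => 0) y ^ r) ^ (1 / r) := by
          rw [ENNReal.mul_rpow_of_nonneg _ _ (by positivity), ENNReal.ofReal_rpow_of_pos (by positivity),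
            ← Real.rpow_mul hpos.le, mul_one_div_cancel hr0.ne', Real.rpow_one]

end Pool.Agent.W772
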